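import Pool.Agent.TR90.Defs
import Pool.Agent.WSB71.FWeights

/-!
# TR90, module Asm: sums over glued chains

Abstract assembly.  `ω ∈ F` (tile sequences), `Ex ω r` the `r`-th excursion (from `a r` to `q (r+1)`, which is
not visited before its end), `τ r ∈ V r` a travel from `q r` to `a r` of exactly `n r ≥ 2` sites, `t ∈ U ω` a tour from `q 0` to
`q 0` with at most `nm` sites.

Weight: for `l = glueAll K t τ E (q K)`, `count x l = count x t.dropLast + ∑ count x (τ r).dropLast + count x (visE K E) + [x = q K]`;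
`Wg β 0 B l ≥ Wg β 0 R t.dropLast * Wg β 0 C (visE K E) * fw 0 (number of the other visits)` sitewise:
off `B` by `gw_le_fw` and multiplicativity of `fw`; on `B`: if `x ∈ C ∩ vis` (then `x ∉ R`) by `gw_add_ge`
for the visits of the excursions, otherwise `x ∈ R ∩ t` and `gw_add_ge` for the visits of the tour.
(`q 0 ∉ B`, so dropping the last site of `t` does not decrease the weight.)

Injectivity: `(ω, t, τ) ↦ (l, t.length, code ω)` is injective: `t` is the first `t.length` sites (`t.dropLast` is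
followed by `q 0`, because `2 ≤ n 0`, or `K = 0` and the last site is `q 0`); then `τ 0` has `n 0` sites; then `(E 0).dropLast` ends before the first
visit of `q 1`; and so on.  So each `l` has at most `QF.card * (nm + 1)` preimages.
-/

open MeasureTheory Filter Topology
open scoped NNReal ENNReal

namespace Pool.Agent.TR90

open Pool.Agent.LT Pool.Agent.WSB71

section lists

variable {α : Type*}

lemma dropLast_append_of {l : List α} {x : α} (h : l.getLast? = some x) : l.dropLast ++ [x] = l :=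
  List.dropLast_append_getLast? x h

lemma eq_of_dropLast {l l' : List α} {x : α} (h : l.getLast? = some x) (h' : l'.getLast? = some x)
    (e : l.dropLast = l'.dropLast) : l = l' := by
  rw [← dropLast_append_of h, ← dropLast_append_of h', e]

/-- cutting before the first visit -/
lemma cut_first {x : α} : ∀ {A A' C C' : List α}, x ∉ A → x ∉ A' → A ++ x :: C = A' ++ x :: C' →
    A = A' ∧ C = C' := by
  intro A
  induction A with
  | nil =>
    intro A' C C' _ h2 h3
    cases A' with
    | nil => exact ⟨rfl, (List.cons.inj h3).2⟩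
    | cons b A' =>
      rw [List.nil_append, List.cons_append, List.cons.injEq] at h3
      exact absurd (by rw [h3.1]; exact List.mem_cons_self) h2
  | cons a A ih =>
    intro A' C C' h1 h2 h3
    cases A' with
    | nil =>
      rw [List.nil_append, List.cons_append, List.cons.injEq] at h3
      exact absurd (by rw [h3.1]; exact List.mem_cons_self) h1
    | cons b A' =>
      rw [List.cons_append, List.cons_append, List.cons.injEq] at h3
      obtain ⟨h4, h5⟩ := ih (fun h => h1 (List.mem_cons_of_mem _ h))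
        (fun h => h2 (List.mem_cons_of_mem _ h)) h3.2
      exact ⟨by rw [h3.1, h4], h5⟩

/-- the tail of the glued chain -/
def glt (K : ℕ) (τ E : ℕ → List α) (y : α) : List α :=
  (List.range K).flatMap (fun r => (τ r).dropLast ++ (E r).dropLast) ++ [y]

lemma glt_zero (τ E : ℕ → List α) (y : α) : glt 0 τ E y = [y] := rfl

lemma glt_succ (K : ℕ) (τ E : ℕ → List α) (y : α) :
    glt (K + 1) τ E y = (τ 0).dropLast ++ ((E 0).dropLast ++
      glt K (fun r => τ (r + 1)) (fun r => E (r + 1)) y) := by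
  unfold glt
  rw [List.range_succ_eq_map, List.flatMap_cons, List.flatMap_map]
  simp only [List.append_assoc]

lemma head_dropLast {l : List α} {x : α} (h : l.head? = some x) (h2 : 2 ≤ l.length) :
    l.dropLast.head? = some x := by
  match l, h, h2 with
  | a :: b :: l, h, _ =>
    rw [List.dropLast_cons_cons]
    exact h

lemma head_glt (K : ℕ) (τ E : ℕ → List α) (q : ℕ → α)
    (hτ : ∀ r < K, (τ r).head? = some (q r) ∧ 2 ≤ (τ r).length) :
    (glt K τ E (q K)).head? = some (q 0) := by
  cases K with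
  | zero => rfl
  | succ K =>
    rw [glt_succ]
    have h1 := hτ 0 (by omega)
    have h2 := head_dropLast h1.1 h1.2
    rw [List.head?_append, h2]
    rfl

lemma glt_inj (K : ℕ) : ∀ (τ τ' E E' : ℕ → List α) (a q : ℕ → α) (n : ℕ → ℕ),
    (∀ r < K, (τ r).head? = some (q r) ∧ (τ r).getLast? = some (a r) ∧ (τ r).length = n r) →
    (∀ r < K, (τ' r).head? = some (q r) ∧ (τ' r).getLast? = some (a r) ∧ (τ' r).length = n r) →
    (∀ r < K, 2 ≤ n r) →
    (∀ r < K, (E r).getLast? = some (q (r + 1)) ∧ q (r + 1) ∉ (E r).dropLast) →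
    (∀ r < K, (E' r).getLast? = some (q (r + 1)) ∧ q (r + 1) ∉ (E' r).dropLast) →
    glt K τ E (q K) = glt K τ' E' (q K) → ∀ r < K, τ r = τ' r ∧ E r = E' r := by
  induction K with
  | zero => intro τ τ' E E' a q n _ _ _ _ _ _ r hr; omega
  | succ K ih =>
    intro τ τ' E E' a q n hτ hτ' hn hE hE' h
    rw [glt_succ, glt_succ] at h
    have h0 := hτ 0 (by omega)
    have h0' := hτ' 0 (by omega)
    obtain ⟨h1, h2⟩ := List.append_inj h (by
      rw [List.length_dropLast, List.length_dropLast, h0.2.2, h0'.2.2])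
    have e0 : τ 0 = τ' 0 := eq_of_dropLast h0.2.1 h0'.2.1 h1
    have g1 : (glt K (fun r => τ (r + 1)) (fun r => E (r + 1)) (q (K + 1))).head? = some (q 1) :=
      head_glt K (fun r => τ (r + 1)) (fun r => E (r + 1)) (fun r => q (r + 1)) fun r hr => by
        have := hτ (r + 1) (by omega)
        exact ⟨this.1, by rw [this.2.2]; exact hn _ (by omega)⟩
    have g1' : (glt K (fun r => τ' (r + 1)) (fun r => E' (r + 1)) (q (K + 1))).head? =
        some (q 1) :=
      head_glt K (fun r => τ' (r + 1)) (fun r => E' (r + 1)) (fun r => q (r + 1)) fun r hr => by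
        have := hτ' (r + 1) (by omega)
        exact ⟨this.1, by rw [this.2.2]; exact hn _ (by omega)⟩
    obtain ⟨C, hC⟩ := List.head?_eq_some_iff.1 g1
    obtain ⟨C', hC'⟩ := List.head?_eq_some_iff.1 g1'
    rw [hC, hC'] at h2
    have hE0 := hE 0 (by omega)
    have hE0' := hE' 0 (by omega)
    obtain ⟨h3, h4⟩ := cut_first hE0.2 hE0'.2 h2
    have e1 : E 0 = E' 0 := eq_of_dropLast hE0.1 hE0'.1 h3
    have h5 : glt K (fun r => τ (r + 1)) (fun r => E (r + 1)) (q (K + 1)) =
        glt K (fun r => τ' (r + 1)) (fun r => E' (r + 1)) (q (K + 1)) := by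
      rw [hC, hC', h4]
    have h6 := ih (fun r => τ (r + 1)) (fun r => τ' (r + 1)) (fun r => E (r + 1))
      (fun r => E' (r + 1)) (fun r => a (r + 1)) (fun r => q (r + 1)) (fun r => n (r + 1))
      (fun r hr => hτ (r + 1) (by omega)) (fun r hr => hτ' (r + 1) (by omega))
      (fun r hr => hn (r + 1) (by omega)) (fun r hr => hE (r + 1) (by omega))
      (fun r hr => hE' (r + 1) (by omega)) h5
    intro r hr
    cases r with
    | zero => exact ⟨e0, e1⟩
    | succ r => exact h6 r (by omega)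

/-- joining chains at a common site -/
lemma join_chain {R : α → α → Prop} {A B : List α} {x : α} (hA : A.IsChain R)
    (hAl : A.getLast? = some x) (hB : B.IsChain R) (hBh : B.head? = some x) :
    (A.dropLast ++ B).IsChain R := by
  have e : A.dropLast ++ [x] = A := dropLast_append_of hAl
  obtain ⟨C, rfl⟩ := List.head?_eq_some_iff.1 hBh
  have h1 : (A.dropLast ++ [x]).IsChain R := by rw [e]; exact hA
  rw [List.isChain_append] at h1 ⊢
  refine ⟨h1.1, hB, ?_⟩
  intro u hu v hv
  exact h1.2.2 u hu v (by simpa using hv)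

lemma join_head {A B : List α} {x : α} (hAl : A.getLast? = some x) (hBh : B.head? = some x) :
    (A.dropLast ++ B).head? = A.head? := by
  have e : A.dropLast ++ [x] = A := dropLast_append_of hAl
  obtain ⟨C, rfl⟩ := List.head?_eq_some_iff.1 hBh
  conv_rhs => rw [← e]
  rw [List.head?_append, List.head?_append]
  rfl

lemma join_last {A B : List α} (hB : B ≠ []) : (A ++ B).getLast? = B.getLast? :=
  List.getLast?_append_of_ne_nil A hB

lemma glt_chain {R : α → α → Prop} (K : ℕ) : ∀ (τ E : ℕ → List α) (a q : ℕ → α),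
    (∀ r < K, (τ r).IsChain R ∧ (τ r).head? = some (q r) ∧ (τ r).getLast? = some (a r)) →
    (∀ r < K, (E r).IsChain R ∧ (E r).head? = some (a r) ∧ (E r).getLast? = some (q (r + 1))) →
    (glt K τ E (q K)).IsChain R ∧ (glt K τ E (q K)).head? = some (q 0) := by
  induction K with
  | zero =>
    intro τ E a q _ _
    rw [glt_zero]
    exact ⟨List.isChain_singleton _, rfl⟩
  | succ K ih =>
    intro τ E a q hτ hE
    have h1 := ih (fun r => τ (r + 1)) (fun r => E (r + 1)) (fun r => a (r + 1))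
      (fun r => q (r + 1)) (fun r hr => hτ (r + 1) (by omega)) (fun r hr => hE (r + 1) (by omega))
    have h2 := hτ 0 (by omega)
    have h3 := hE 0 (by omega)
    rw [glt_succ]
    have h4 : ((E 0).dropLast ++ glt K (fun r => τ (r + 1)) (fun r => E (r + 1))
        (q (K + 1))).IsChain R := join_chain h3.1 h3.2.2 h1.1 h1.2
    have h5 : ((E 0).dropLast ++ glt K (fun r => τ (r + 1)) (fun r => E (r + 1))
        (q (K + 1))).head? = some (a 0) := by
      rw [join_head h3.2.2 h1.2]
      exact h3.2.1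
    exact ⟨join_chain h2.1 h2.2.2 h4 h5, by rw [join_head h2.2.2 h5]; exact h2.2.1⟩

lemma glueAll_eq (K : ℕ) (t : List Site) (τ E : ℕ → List Site) (y : Site) :
    glueAll K t τ E y = t.dropLast ++ glt K τ E y := by
  unfold glueAll glt
  rw [List.append_assoc]

end lists

section weights

open Classical in
/-- the factor of a site -/
noncomputable def hfa (β : ℝ) (C : Set Site) (n : ℕ) (x : Site) : ℝ≥0∞ :=
  if n = 0 then 1 else if x ∈ C then gw β 0 n else fw 0 n

lemma Wg_eq_hfa (β : ℝ) (C : Set Site) (L : List Site) (S : Finset Site) (hS : L.toFinset ⊆ S) :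
    Wg β 0 C L = ∏ y ∈ S, hfa β C (L.count y) y := by
  classical
  rw [← Finset.prod_subset hS]
  · unfold Wg
    refine Finset.prod_congr rfl fun y hy => ?_
    rw [List.mem_toFinset] at hy
    have : L.count y ≠ 0 := (List.count_pos_iff.2 hy).ne'
    simp [hfa, this]
  · intro y _ hy
    rw [List.mem_toFinset] at hy
    simp [hfa, List.count_eq_zero_of_not_mem hy]

lemma fw_zero' : fw 0 0 = 1 := by unfold fw; rw [pow_zero]

lemma fw_add' (m n : ℕ) : fw 0 (m + n) = fw 0 m * fw 0 n := by unfold fw; rw [pow_add]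

lemma fw_le_one' (n : ℕ) : fw 0 n ≤ 1 := by
  unfold fw
  refine pow_le_one' ?_ n
  rw [sub_zero]
  exact ENNReal.ofReal_le_one.2 (by norm_num)

lemma fw_anti' {m n : ℕ} (h : m ≤ n) : fw 0 n ≤ fw 0 m := by
  obtain ⟨k, rfl⟩ := Nat.exists_eq_add_of_le h
  rw [fw_add']
  exact mul_le_of_le_one_right' (fw_le_one' k)

lemma fw_sum' {ι : Type*} (s : Finset ι) (f : ι → ℕ) : ∏ i ∈ s, fw 0 (f i) = fw 0 (∑ i ∈ s, f i) := by
  unfold fw
  rw [Finset.prod_pow_eq_pow_sum]

lemma hfa_le_fw {β : ℝ} (hβ : 0 ≤ β) (C : Set Site) (n : ℕ) (x : Site) :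
    hfa β C n x ≤ fw 0 n := by
  unfold hfa
  split_ifs with h1 h2
  · rw [h1, fw_zero']
  · exact gw_le_fw hβ (by norm_num) (by omega)
  · exact le_rfl

lemma site_ineq {β : ℝ} (hβ : 0 ≤ β) {B C R : Set Site} {x : Site} {cE ct ct' cτ : ℕ}
    (h1 : ct' ≤ ct) (h2 : x ∈ B → ct' = ct)
    (hcov : x ∈ B → 0 < ct' + cE + cτ → (x ∈ C ∧ 0 < cE ∧ x ∉ R) ∨ (x ∈ R ∧ 0 < ct)) :
    hfa β C cE x * hfa β R ct x * fw 0 cτ ≤ hfa β B (ct' + cE + cτ) x := by
  by_cases h0 : ct' + cE + cτ = 0
  · have e : hfa β B (ct' + cE + cτ) x = 1 := by unfold hfa; rw [if_pos h0]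
    rw [e]
    have a1 := (hfa_le_fw hβ C cE x).trans (fw_le_one' _)
    have a2 := (hfa_le_fw hβ R ct x).trans (fw_le_one' _)
    exact mul_le_one' (mul_le_one' a1 a2) (fw_le_one' _)
  by_cases hxB : x ∈ B
  · have e : hfa β B (ct' + cE + cτ) x = gw β 0 (ct' + cE + cτ) := by
      unfold hfa; rw [if_neg h0, if_pos hxB]
    rw [e]
    rcases hcov hxB (by omega) with ⟨hxC, hcE, hxR⟩ | ⟨hxR, hct⟩
    · have e1 : hfa β C cE x = gw β 0 cE := by
        unfold hfa; rw [if_neg (by omega), if_pos hxC]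
      rw [e1, mul_assoc]
      calc gw β 0 cE * (hfa β R ct x * fw 0 cτ) ≤ gw β 0 cE * (fw 0 ct' * fw 0 cτ) := by
            gcongr
            exact (hfa_le_fw hβ R ct x).trans (fw_anti' h1)
        _ = gw β 0 cE * fw 0 (ct' + cτ) := by rw [fw_add']
        _ ≤ gw β 0 (cE + (ct' + cτ)) := gw_add_ge hβ (by norm_num) (by omega) _
        _ = _ := by congr 1; omega
    · have hct' := h2 hxB
      have e1 : hfa β R ct x = gw β 0 ct' := by
        unfold hfa; rw [if_neg (by omega), if_pos hxR, hct']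
      rw [e1]
      calc hfa β C cE x * gw β 0 ct' * fw 0 cτ ≤ fw 0 cE * gw β 0 ct' * fw 0 cτ := by
            gcongr
            exact hfa_le_fw hβ C cE x
        _ = gw β 0 ct' * fw 0 (cE + cτ) := by rw [fw_add']; ring
        _ ≤ gw β 0 (ct' + (cE + cτ)) := gw_add_ge hβ (by norm_num) (by omega) _
        _ = _ := by congr 1; omega
  · have e : hfa β B (ct' + cE + cτ) x = fw 0 (ct' + cE + cτ) := by
      unfold hfa; rw [if_neg h0, if_neg hxB]
    rw [e, fw_add', fw_add']
    calc hfa β C cE x * hfa β R ct x * fw 0 cτ ≤ fw 0 cE * fw 0 ct' * fw 0 cτ := by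
          gcongr
          · exact hfa_le_fw hβ C cE x
          · exact (hfa_le_fw hβ R ct x).trans (fw_anti' h1)
      _ = _ := by rw [mul_comm (fw 0 cE)]

/-- the sites of the travels and the last site -/
def oth (K : ℕ) (τ : ℕ → List Site) (y : Site) : List Site :=
  (List.range K).flatMap (fun r => (τ r).dropLast) ++ [y]

lemma count_glueAll (K : ℕ) (t : List Site) (τ E : ℕ → List Site) (y x : Site) :
    (glueAll K t τ E y).count x = t.dropLast.count x + (visE K E).count x +
      (oth K τ y).count x := by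
  unfold glueAll oth visE
  rw [List.count_append, List.count_append, List.count_append]
  have h := (List.flatMap_append_perm (List.range K) (fun r => (τ r).dropLast)
    (fun r => (E r).dropLast)).count_eq x
  rw [List.count_append] at h
  omega

lemma length_oth {K : ℕ} {τ : ℕ → List Site} {n : ℕ → ℕ} (h : ∀ r < K, (τ r).length = n r)
    (y : Site) : (oth K τ y).length = ∑ r ∈ Finset.range K, (n r - 1) + 1 := by
  unfold oth
  rw [List.length_append, List.length_flatMap, List.length_singleton]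
  congr 1
  induction K with
  | zero => simp
  | succ K ih =>
    rw [List.range_succ, List.map_append, List.sum_append, Finset.sum_range_succ,
      ih fun r hr => h r (by omega)]
    simp [List.length_dropLast, h K (by omega)]

lemma triple_ineq {β : ℝ} (hβ : 0 ≤ β) {K : ℕ} {q0 y : Site} {B C R : Set Site} {t : List Site}
    {τ E : ℕ → List Site} {n : ℕ → ℕ} (ht : t.getLast? = some q0)
    (hτ : ∀ r < K, (τ r).length = n r) (hq0 : q0 ∉ B) (hRB : R ⊆ B)
    (hCR : ∀ x ∈ R, ¬ (x ∈ C ∧ x ∈ visE K E))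
    (hcov : ∀ x ∈ glueAll K t τ E y, x ∈ B → (x ∈ C ∧ x ∈ visE K E) ∨ (x ∈ R ∧ x ∈ t)) :
    Wg β 0 C (visE K E) * Wg β 0 R t * ((∏ r ∈ Finset.range K, fw 0 (n r)) * fw 0 1) ≤
      Wg β 0 B (glueAll K t τ E y) := by
  classical
  set S : Finset Site := (visE K E).toFinset ∪ t.toFinset ∪ (oth K τ y).toFinset ∪
    (glueAll K t τ E y).toFinset with hS
  have s1 : (visE K E).toFinset ⊆ S := by
    rw [hS]; intro x hx; simp only [Finset.mem_union]; tauto
  have s2 : t.toFinset ⊆ S := by
    rw [hS]; intro x hx; simp only [Finset.mem_union]; tauto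
  have s3 : (oth K τ y).toFinset ⊆ S := by
    rw [hS]; intro x hx; simp only [Finset.mem_union]; tauto
  have s4 : (glueAll K t τ E y).toFinset ⊆ S := by
    rw [hS]; intro x hx; simp only [Finset.mem_union]; tauto
  rw [Wg_eq_hfa β C _ S s1, Wg_eq_hfa β R _ S s2, Wg_eq_hfa β B _ S s4]
  have h1 : (∏ r ∈ Finset.range K, fw 0 (n r)) * fw 0 1 ≤
      ∏ x ∈ S, fw 0 ((oth K τ y).count x) := by
    rw [fw_sum', fw_sum', ← fw_add']
    apply fw_anti'
    have h2 : ∑ x ∈ S, (oth K τ y).count x = (oth K τ y).length := by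
      refine (Finset.sum_subset (f := fun x => (oth K τ y).count x) s3
        fun x _ hx => ?_).symm.trans ?_
      · rw [List.mem_toFinset] at hx
        exact List.count_eq_zero_of_not_mem hx
      · rw [← List.sum_toFinset_count_eq_length (oth K τ y)]
        refine Finset.sum_congr rfl fun x _ => ?_
        congr!
    rw [h2, length_oth hτ]
    have h3 : ∑ r ∈ Finset.range K, (n r - 1) ≤ ∑ r ∈ Finset.range K, n r :=
      Finset.sum_le_sum fun r _ => Nat.sub_le _ _
    omega
  calc (∏ x ∈ S, hfa β C ((visE K E).count x) x) * (∏ x ∈ S, hfa β R (t.count x) x) *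
        ((∏ r ∈ Finset.range K, fw 0 (n r)) * fw 0 1) ≤
      (∏ x ∈ S, hfa β C ((visE K E).count x) x) * (∏ x ∈ S, hfa β R (t.count x) x) *
        ∏ x ∈ S, fw 0 ((oth K τ y).count x) := by gcongr
    _ = ∏ x ∈ S, hfa β C ((visE K E).count x) x * hfa β R (t.count x) x *
        fw 0 ((oth K τ y).count x) := by
        rw [Finset.prod_mul_distrib, Finset.prod_mul_distrib]
    _ ≤ ∏ x ∈ S, hfa β B ((glueAll K t τ E y).count x) x := by
        refine Finset.prod_le_prod' fun x _ => ?_
        rw [count_glueAll]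
        have e := dropLast_append_of ht
        have e2 : t.count x = t.dropLast.count x + [q0].count x := by
          rw [← List.count_append, e]
        refine site_ineq hβ ?_ ?_ ?_
        · omega
        · intro hxB
          have : x ≠ q0 := fun h => hq0 (h ▸ hxB)
          rw [List.count_singleton] at e2
          have h4 : (q0 == x) = false := by
            rw [beq_eq_false_iff_ne]
            exact fun h => this h.symm
          rw [h4] at e2
          simpa using e2.symm
        · intro hxB hpos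
          rw [← count_glueAll, List.count_pos_iff] at hpos
          rcases hcov x hpos hxB with h5 | h5
          · exact Or.inl ⟨h5.1, List.count_pos_iff.2 h5.2, fun h6 => hCR x h6 h5⟩
          · exact Or.inr ⟨h5.1, List.count_pos_iff.2 h5.2⟩

end weights

theorem assemble {Ω Q : Type} {β : ℝ} (hβ : 0 ≤ β) (F : Finset Ω) (K nm : ℕ)
    (a q : ℕ → Site) (B : Set Site) (C R : Ω → Set Site) (Ex : Ω → ℕ → List Site)
    (U : Ω → Finset (List Site)) (V : ℕ → Finset (List Site)) (n : ℕ → ℕ)
    (code : Ω → Q) (QF : Finset Q)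
    (hEx : ∀ ω ∈ F, ∀ r < K, (Ex ω r).head? = some (a r) ∧ (Ex ω r).getLast? = some (q (r + 1)) ∧
      q (r + 1) ∉ (Ex ω r).dropLast)
    (hU : ∀ ω ∈ F, ∀ t ∈ U ω, t.head? = some (q 0) ∧ t.getLast? = some (q 0) ∧ t.length ≤ nm)
    (hV : ∀ r < K, ∀ τ ∈ V r, τ.head? = some (q r) ∧ τ.getLast? = some (a r) ∧ τ.length = n r)
    (hn : ∀ r < K, 2 ≤ n r)
    (hcode : ∀ ω ∈ F, code ω ∈ QF)
    (hinj : ∀ ω ∈ F, ∀ ω' ∈ F, code ω = code ω' → (∀ r < K, Ex ω r = Ex ω' r) → ω = ω')
    (hq0 : q 0 ∉ B) (hRB : ∀ ω ∈ F, R ω ⊆ B)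
    (hCR : ∀ ω ∈ F, ∀ x ∈ R ω, ¬ (x ∈ C ω ∧ x ∈ visE K (Ex ω)))
    (hcov : ∀ ω ∈ F, ∀ t ∈ U ω, ∀ τ : ℕ → List Site, (∀ r < K, τ r ∈ V r) →
      ∀ x ∈ glueAll K t τ (Ex ω) (q K), x ∈ B →
        (x ∈ C ω ∧ x ∈ visE K (Ex ω)) ∨ (x ∈ R ω ∧ x ∈ t)) :
    ∃ S : Finset (List Site),
      (∀ l ∈ S, ∃ ω ∈ F, ∃ t ∈ U ω, ∃ τ : ℕ → List Site, (∀ r < K, τ r ∈ V r) ∧
        l = glueAll K t τ (Ex ω) (q K)) ∧
      (∑ ω ∈ F, Wg β 0 (C ω) (visE K (Ex ω)) * ∑ t ∈ U ω, Wg β 0 (R ω) t) *
          (∏ r ∈ Finset.range K, ((V r).card : ℝ≥0∞) * fw 0 (n r)) * fw 0 1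
        ≤ ((QF.card * (nm + 1) : ℕ) : ℝ≥0∞) * ∑ l ∈ S, Wg β 0 B l := by
  classical
  let P : Finset (Fin K → List Site) := Fintype.piFinset fun r : Fin K => V r
  let ex : (Fin K → List Site) → ℕ → List Site := fun σ r => if h : r < K then σ ⟨r, h⟩ else []
  have hex : ∀ σ ∈ P, ∀ r < K, ex σ r ∈ V r := by
    intro σ hσ r hr
    simp only [ex, dif_pos hr]
    exact Fintype.mem_piFinset.1 hσ ⟨r, hr⟩
  let I : Finset (Σ _ : Ω, List Site × (Fin K → List Site)) := F.sigma fun ω => U ω ×ˢ P
  have hI : ∀ i, i ∈ I ↔ i.1 ∈ F ∧ i.2.1 ∈ U i.1 ∧ i.2.2 ∈ P := by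
    intro i
    simp only [I, Finset.mem_sigma, Finset.mem_product]
  let Φ : (Σ _ : Ω, List Site × (Fin K → List Site)) → List Site := fun i =>
    glueAll K i.2.1 (ex i.2.2) (Ex i.1) (q K)
  refine ⟨I.image Φ, ?_, ?_⟩
  · intro l hl
    obtain ⟨i, hi, rfl⟩ := Finset.mem_image.1 hl
    obtain ⟨h1, h2, h3⟩ := (hI i).1 hi
    exact ⟨i.1, h1, i.2.1, h2, ex i.2.2, hex _ h3, rfl⟩
  -- the left side as a sum over triples
  have hleft : (∑ ω ∈ F, Wg β 0 (C ω) (visE K (Ex ω)) * ∑ t ∈ U ω, Wg β 0 (R ω) t) *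
          (∏ r ∈ Finset.range K, ((V r).card : ℝ≥0∞) * fw 0 (n r)) * fw 0 1 =
      ∑ i ∈ I, Wg β 0 (C i.1) (visE K (Ex i.1)) * Wg β 0 (R i.1) i.2.1 *
        ((∏ r ∈ Finset.range K, fw 0 (n r)) * fw 0 1) := by
    have hP : (P.card : ℝ≥0∞) = ∏ r ∈ Finset.range K, ((V r).card : ℝ≥0∞) := by
      rw [Fintype.card_piFinset, Nat.cast_prod, Finset.prod_range]
    rw [Finset.sum_sigma, Finset.prod_mul_distrib, Finset.sum_mul, Finset.sum_mul]
    refine Finset.sum_congr rfl fun ω _ => ?_
    rw [Finset.sum_product, Finset.mul_sum, Finset.sum_mul, Finset.sum_mul]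
    refine Finset.sum_congr rfl fun t _ => ?_
    simp only
    rw [Finset.sum_const, nsmul_eq_mul, hP]
    ring
  rw [hleft]
  calc ∑ i ∈ I, Wg β 0 (C i.1) (visE K (Ex i.1)) * Wg β 0 (R i.1) i.2.1 *
        ((∏ r ∈ Finset.range K, fw 0 (n r)) * fw 0 1) ≤ ∑ i ∈ I, Wg β 0 B (Φ i) := by
        refine Finset.sum_le_sum fun i hi => ?_
        obtain ⟨h1, h2, h3⟩ := (hI i).1 hi
        refine triple_ineq hβ (hU _ h1 _ h2).2.1 (fun r hr => (hV r hr _ (hex _ h3 r hr)).2.2)
          hq0 (hRB _ h1) (hCR _ h1) (hcov _ h1 _ h2 _ (hex _ h3))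
    _ = ∑ l ∈ I.image Φ, ∑ i ∈ I with Φ i = l, Wg β 0 B (Φ i) :=
        (Finset.sum_fiberwise_of_maps_to (fun i hi => Finset.mem_image_of_mem Φ hi) _).symm
    _ ≤ ∑ l ∈ I.image Φ, ((QF.card * (nm + 1) : ℕ) : ℝ≥0∞) * Wg β 0 B l := by
        refine Finset.sum_le_sum fun l _ => ?_
        have e1 : ∑ i ∈ I with Φ i = l, Wg β 0 B (Φ i) = ∑ i ∈ I with Φ i = l, Wg β 0 B l :=
          Finset.sum_congr rfl fun i hi => by rw [(Finset.mem_filter.1 hi).2]
        rw [e1, Finset.sum_const, nsmul_eq_mul]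
        gcongr
        -- the fibre
        have hcard : (QF ×ˢ Finset.range (nm + 1)).card = QF.card * (nm + 1) := by
          rw [Finset.card_product, Finset.card_range]
        rw [← hcard]
        refine Finset.card_le_card_of_injOn (fun i => (code i.1, i.2.1.length)) ?_ ?_
        · intro i hi
          have hi' := (hI i).1 (Finset.mem_filter.1 (Finset.mem_coe.1 hi)).1
          rw [Finset.mem_coe, Finset.mem_product, Finset.mem_range]
          exact ⟨hcode _ hi'.1, Nat.lt_succ_of_le (hU _ hi'.1 _ hi'.2.1).2.2⟩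
        · rintro ⟨ω, t, σ⟩ hi ⟨ω', t', σ'⟩ hi' heq
          obtain ⟨hi1, hi2⟩ := Finset.mem_filter.1 (Finset.mem_coe.1 hi)
          obtain ⟨hj1, hj2⟩ := Finset.mem_filter.1 (Finset.mem_coe.1 hi')
          obtain ⟨hω, ht, hσ⟩ := (hI _).1 hi1
          obtain ⟨hω', ht', hσ'⟩ := (hI _).1 hj1
          simp only at hω ht hσ hω' ht' hσ'
          simp only [Prod.mk.injEq] at heq
          have hg : glueAll K t (ex σ) (Ex ω) (q K) = glueAll K t' (ex σ') (Ex ω') (q K) :=
            hi2.trans hj2.symm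
          rw [glueAll_eq, glueAll_eq] at hg
          obtain ⟨g1, g2⟩ := List.append_inj hg (by
            rw [List.length_dropLast, List.length_dropLast, heq.2])
          have e2 : t = t' := eq_of_dropLast (hU _ hω _ ht).2.1 (hU _ hω' _ ht').2.1 g1
          have g3 := glt_inj K (ex σ) (ex σ') (Ex ω) (Ex ω') a q n
            (fun r hr => hV r hr _ (hex _ hσ r hr)) (fun r hr => hV r hr _ (hex _ hσ' r hr)) hn
            (fun r hr => (hEx _ hω r hr).2) (fun r hr => (hEx _ hω' r hr).2) g2
          have e3 : ω = ω' := hinj _ hω _ hω' heq.1 fun r hr => (g3 r hr).2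
          have e4 : σ = σ' := by
            funext r
            have := (g3 r r.2).1
            simpa only [ex, dif_pos r.2] using this
          subst e2 e3 e4
          rfl
    _ = _ := by rw [Finset.mul_sum]

/-- Elementary properties of the glued chain. -/
theorem glueAll_chain {K : ℕ} {t : List Site} {τ E : ℕ → List Site} {a q : ℕ → Site} {n : ℕ}
    (ht : t.IsChain Adj ∧ t.head? = some (q 0) ∧ t.getLast? = some (q 0))
    (hτ : ∀ r < K, (τ r).IsChain Adj ∧ (τ r).head? = some (q r) ∧ (τ r).getLast? = some (a r))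
    (hE : ∀ r < K, (E r).IsChain Adj ∧ (E r).head? = some (a r) ∧
      (E r).getLast? = some (q (r + 1)))
    (hlen : ∀ r < K, (τ r).length + (E r).length ≤ n) :
    (glueAll K t τ E (q K)).IsChain Adj ∧ (glueAll K t τ E (q K)).head? = some (q 0) ∧
      (glueAll K t τ E (q K)).getLast? = some (q K) ∧
      (glueAll K t τ E (q K)).length ≤ t.length + K * n + 1 ∧
      (∀ x ∈ glueAll K t τ E (q K), x ∈ t ∨ (∃ r < K, x ∈ τ r) ∨ x ∈ visE K E ∨ x = q K) ∧
      (∀ x ∈ t, x = q 0 ∨ x ∈ glueAll K t τ E (q K)) ∧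
      (∀ x ∈ visE K E, x ∈ glueAll K t τ E (q K)) := by
  have h1 := glt_chain K τ E a q hτ hE
  rw [glueAll_eq]
  have hne : glt K τ E (q K) ≠ [] := by
    unfold glt
    simp
  refine ⟨join_chain ht.1 ht.2.2 h1.1 h1.2, ?_, ?_, ?_, ?_, ?_, ?_⟩
  · rw [join_head ht.2.2 h1.2]
    exact ht.2.1
  · rw [join_last hne]
    unfold glt
    rw [List.getLast?_append_of_ne_nil _ (by simp)]
    rfl
  · rw [List.length_append, List.length_dropLast]
    unfold glt
    rw [List.length_append, List.length_flatMap, List.length_singleton]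
    have h2 : ((List.range K).map fun r => ((τ r).dropLast ++ (E r).dropLast).length).sum ≤ K * n := by
      have h3 : ∀ x ∈ ((List.range K).map fun r => ((τ r).dropLast ++ (E r).dropLast).length),
          x ≤ n := by
        intro x hx
        obtain ⟨r, hr, rfl⟩ := List.mem_map.1 hx
        rw [List.length_append, List.length_dropLast, List.length_dropLast]
        have := hlen r (List.mem_range.1 hr)
        omega
      have h4 := List.sum_le_card_nsmul _ _ h3
      rw [List.length_map, List.length_range, smul_eq_mul] at h4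
      exact h4
    omega
  · intro x hx
    rw [List.mem_append] at hx
    rcases hx with hx | hx
    · exact Or.inl (List.mem_of_mem_dropLast hx)
    · unfold glt at hx
      rw [List.mem_append, List.mem_flatMap, List.mem_singleton] at hx
      rcases hx with ⟨r, hr, hx⟩ | hx
      · rw [List.mem_append] at hx
        rcases hx with hx | hx
        · exact Or.inr (Or.inl ⟨r, List.mem_range.1 hr, List.mem_of_mem_dropLast hx⟩)
        · exact Or.inr (Or.inr (Or.inl (List.mem_flatMap.2 ⟨r, hr, hx⟩)))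
      · exact Or.inr (Or.inr (Or.inr hx))
  · intro x hx
    rw [← dropLast_append_of ht.2.2, List.mem_append, List.mem_singleton] at hx
    rcases hx with hx | hx
    · exact Or.inr (List.mem_append_left _ hx)
    · exact Or.inl hx
  · intro x hx
    obtain ⟨r, hr, hx⟩ := List.mem_flatMap.1 hx
    refine List.mem_append_right _ ?_
    unfold glt
    exact List.mem_append_left _ (List.mem_flatMap.2 ⟨r, hr, List.mem_append_right _ hx⟩)

end Pool.Agent.TR90
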