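import Pool.Agent.LT.Cov
import Pool.Agent.WSB71.FMain

/-!
# TR90, module CovChain: from `Cov` to sums over chains

`cov_chain`: let `s ≤ τ` be the time of `Cov`.  For a chain `l` (translated by `-x`) `main_formula` with `lam = 0` gives
`Wg β 0 R l = ∫_0^∞ μ(chain_u = l, local times ≥ β on R) du ≥ ∫_s^{s+1} ... ≥ e^{-4} μ(chain_s = l, local times at time s ≥ β on R)`
(no jump in `[s, s+1]`: `chain_time`, `IsLaw.markov_set`, see the proof of `evt_le`).  Sum over all the chains `l` of the event
`cev A R β s x y` of length `≤ n`: `≥ e^{-4} (e^{-c} - P(length > n))`, and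
`P(length of chain_s > n) ≤ P(length of chain_t ≥ 32 t + 2) ≤ e^{-t}` for `t = τ + c + 1 ≥ s` (`length_le`; the length
of `chainOf` is monotone in time by `chainOf_add`).  The translation: `main_formula` needs chains which start at `0`;
`Wg` is invariant under translations.

`cov_travel`: `R = ∅`, `Wg β 0 ∅ l = fw 0 l.length = ofReal (1/4) ^ l.length`; pigeonhole over the length.
-/

open MeasureTheory Filter Topology
open scoped NNReal ENNReal

namespace Pool.Agent.TR90

open Pool.Agent.LT Pool.Agent.WSB71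

private lemma ccv_inj (x : Site) : Function.Injective (fun z : Site => z - x) := fun a b h => by
  simpa using h

/-- Translation invariance of the weight. -/
private lemma ccv_Wg (β lam : ℝ) (B : Set Site) (x : Site) (l : List Site) :
    Wg β lam {w | x + w ∈ B} (l.map (fun z => z - x)) = Wg β lam B l := by
  classical
  unfold Wg
  have he : (l.map (fun z => z - x)).toFinset = l.toFinset.image (fun z => z - x) := by
    ext w
    simp
  rw [he, Finset.prod_image (fun a _ b _ h => ccv_inj x h)]
  apply Finset.prod_congr rfl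
  intro z _
  have hc : (l.map (fun z => z - x)).count (z - x) = l.count z :=
    List.count_map_of_injective l _ (ccv_inj x) z
  have hm : (z - x ∈ {w | x + w ∈ B}) ↔ z ∈ B := by
    rw [Set.mem_ofPred_eq, add_sub_cancel]
  rw [hc]
  by_cases h : z ∈ B
  · rw [if_pos h, if_pos (hm.2 h)]
  · rw [if_neg h, if_neg (fun h' => h (hm.1 h'))]

private lemma ccv_chain_map {l : List Site} (hl : l.IsChain Adj) (f : Site → Site)
    (hf : ∀ a b, Adj a b → Adj (f a) (f b)) : (l.map f).IsChain Adj := by
  rw [List.isChain_map]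
  exact hl.imp hf

private lemma ccv_adj_sub {a b : Site} (x : Site) (h : Adj a b) : Adj (a - x) (b - x) := by
  unfold Adj at h ⊢
  simpa using h

private lemma ccv_adj_add {a b : Site} (x : Site) (h : Adj a b) : Adj (x + a) (x + b) := by
  unfold Adj at h ⊢
  simpa using h

private lemma ccv_occ_pos {s : ℝ≥0} {x z : Site} {f : WP}
    (h : 0 < occ s (fun w => if x + w = z then 1 else 0) f) : z - x ∈ chainOf s f := by
  by_contra hn
  have h1 : z - x ∉ rangeF s f := by
    rw [← chainOf_toFinset, List.mem_toFinset]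
    exact hn
  have h2 : occ s (fun w => if x + w = z then 1 else 0) f = 0 := by
    unfold occ
    have h3 : ∀ u ∈ Set.uIcc (0 : ℝ) s,
        (fun w : Site => if x + w = z then (1 : ℝ) else 0) (f.1 u.toNNReal) = 0 := by
      intro u hu
      rw [Set.uIcc_of_le s.coe_nonneg] at hu
      show (if x + f.1 u.toNNReal = z then (1 : ℝ) else 0) = 0
      rw [if_neg]
      intro h4
      apply h1
      rw [mem_rangeF]
      refine ⟨u.toNNReal, ?_, ?_⟩
      · rw [← NNReal.coe_le_coe, Real.coe_toNNReal _ hu.1]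
        exact hu.2
      · rw [← h4]
        abel
    rw [intervalIntegral.integral_congr h3]
    simp
  linarith

private lemma ccv_occ_lt {s : ℝ≥0} {x z : Site} {f : WP} :
    occ s (fun w => if x + w = x + z then 1 else 0) f = lt s f z := by
  unfold lt
  congr 1
  funext w
  simp only [add_right_inj]

theorem cov_chain {μ : Measure WP} (hμ : IsLaw μ) {A R : Finset Site} {β τ c : ℝ} {x y : Site}
    (hβ : 0 < β) (hτ : 0 ≤ τ) (hc : 0 ≤ c) (h : Cov A R β τ x y c) {n : ℕ}
    (hn : 32 * (τ + c + 1) + 3 ≤ n) :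
    ENNReal.ofReal (Real.exp (-(c + 5))) ≤
      ∑' l : {l : List Site // l.IsChain Adj ∧ l.head? = some x ∧ l.getLast? = some y ∧
        (∀ z ∈ l, z ∈ A) ∧ (∀ z ∈ R, z ∈ l) ∧ l.length ≤ n}, Wg β 0 (R : Set Site) l := by
  classical
  obtain ⟨s, hsτ, hcov⟩ := h
  have hprob := hμ.prob
  have hE := hcov μ hμ
  -- the chain at time `s` is not too long
  set T : ℝ≥0 := (τ + c + 1).toNNReal with hT
  have hTc : (T : ℝ) = τ + c + 1 := Real.coe_toNNReal _ (by linarith)
  have hsT : s ≤ T := by
    rw [← NNReal.coe_le_coe, hTc]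
    linarith
  have hlong : μ.real {f : WP | n < (chainOf s f).length} ≤ Real.exp (-(τ + c + 1)) := by
    have h1 := length_le hμ T
    have h2 : {f : WP | n < (chainOf s f).length} ⊆
        {f : WP | 32 * (T : ℝ) + 2 ≤ (chainOf T f).length} := by
      intro f hf
      have h3 : n < (chainOf s f).length := hf
      have h4 : (chainOf s f).length ≤ (chainOf T f).length := by
        have h5 := chainOf_add s (T - s) f
        rw [add_tsub_cancel_of_le hsT] at h5
        rw [h5, List.length_append]
        exact Nat.le_add_right _ _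
      have h6 : (n : ℝ) ≤ ((chainOf T f).length : ℝ) := by
        exact_mod_cast (h3.le.trans h4)
      show 32 * (T : ℝ) + 2 ≤ (chainOf T f).length
      rw [hTc]
      linarith
    have h3 := (measure_mono h2).trans h1
    unfold Measure.real
    have h4 := ENNReal.toReal_mono ENNReal.ofReal_ne_top h3
    rw [ENNReal.toReal_ofReal (Real.exp_nonneg _), hTc] at h4
    exact h4
  -- the good event
  set A1 : Set WP := {f : WP | f ∈ cev A R β s x y ∧ chainOf s f ∈ {l : List Site | l.length ≤ n}}
    with hA1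
  set G : Set WP := {f : WP | chainOf 1 f = [0]} with hG
  have hAm : MeasurableSet A1 :=
    (measurableSet_cev A R β s x y).inter (measurableSet_chain_mem s {l : List Site | l.length ≤ n})
  have hAstop : stop s ⁻¹' A1 = A1 := by
    have h1 : stop s ⁻¹' (cev A R β s x y) = cev A R β s x y := cev_stop
    ext f
    have h2 : stop s f ∈ cev A R β s x y ↔ f ∈ cev A R β s x y := by
      have := congrArg (fun S : Set WP => f ∈ S) h1
      simpa using this
    simp only [hA1, Set.mem_preimage, Set.mem_ofPred_eq, h2, chainOf_stop]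
  have hGm : μ G = ENNReal.ofReal (Real.exp (-4)) := by
    rw [hG, chain_time hμ 1 [0] (by simp) rfl]
    simp
  have hmk : μ (A1 ∩ shift s ⁻¹' G) = μ A1 * ENNReal.ofReal (Real.exp (-4)) := by
    have := hμ.markov_set s hAm (measurableSet_chainOf 1 [0])
    rw [hAstop] at this
    rw [← hGm]
    exact this
  have hA1r : Real.exp (-(c + 1)) ≤ μ.real A1 := by
    have h1 : μ.real (cev A R β s x y) ≤ μ.real A1 + μ.real {f : WP | n < (chainOf s f).length} := by
      refine (measureReal_mono (s₂ := A1 ∪ {f : WP | n < (chainOf s f).length}) ?_).trans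
        (measureReal_union_le _ _)
      intro f hf
      by_cases h2 : (chainOf s f).length ≤ n
      · exact Or.inl ⟨hf, h2⟩
      · exact Or.inr (not_le.1 h2)
    have h2 : Real.exp (-(τ + c + 1)) ≤ Real.exp (-(c + 1)) := Real.exp_le_exp.2 (by linarith)
    have h3 : 2 * Real.exp (-(c + 1)) ≤ Real.exp (-c) := by
      have h4 : Real.exp (-c) = Real.exp 1 * Real.exp (-(c + 1)) := by
        rw [← Real.exp_add]; ring_nf
      rw [h4]
      have h5 : (2 : ℝ) ≤ Real.exp 1 := by have := Real.add_one_le_exp (1 : ℝ); linarith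
      exact mul_le_mul_of_nonneg_right h5 (Real.exp_nonneg _)
    linarith
  -- the sum over the chains at time `u`
  set B : Set Site := {w | x + w ∈ (R : Set Site)} with hB
  have key : ∀ u ∈ Set.Icc (s : ℝ) (s + 1), μ A1 * ENNReal.ofReal (Real.exp (-4)) ≤
      ∑' l : {l : List Site // l.IsChain Adj ∧ l.head? = some x ∧ l.getLast? = some y ∧
        (∀ z ∈ l, z ∈ A) ∧ (∀ z ∈ R, z ∈ l) ∧ l.length ≤ n},
        Fm μ β B (l.1.map (fun z => z - x)) u := by
    intro u hu
    have hu0 : 0 ≤ u := s.coe_nonneg.trans hu.1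
    rw [← hmk]
    have hnull : μ {f : WP | f.1 0 ≠ 0} = 0 := hμ.start
    have hsub : A1 ∩ shift s ⁻¹' G ⊆ {f : WP | f.1 0 ≠ 0} ∪
        ⋃ l : {l : List Site // l.IsChain Adj ∧ l.head? = some x ∧ l.getLast? = some y ∧
        (∀ z ∈ l, z ∈ A) ∧ (∀ z ∈ R, z ∈ l) ∧ l.length ≤ n},
          {f : WP | chainOf u.toNNReal f = l.1.map (fun z => z - x) ∧
            ∀ w ∈ l.1.map (fun z => z - x), w ∈ B → β ≤ lt u.toNNReal f w} := by
      rintro f ⟨⟨⟨hf1, hf2, hf3⟩, hlen⟩, hfG⟩
      by_cases hf0 : f.1 0 = 0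
      · right
        rw [Set.mem_iUnion]
        have hmm : ((chainOf s f).map (fun z => x + z)).map (fun z => z - x) = chainOf s f := by
          rw [List.map_map]
          have : ((fun z : Site => z - x) ∘ fun z => x + z) = id := by
            funext z
            simp
          rw [this, List.map_id]
        have hsu : s ≤ u.toNNReal := by
          rw [← NNReal.coe_le_coe, Real.coe_toNNReal _ hu0]; exact hu.1
        have hus : u.toNNReal ≤ s + 1 := by
          rw [← NNReal.coe_le_coe, Real.coe_toNNReal _ hu0]; push_cast; exact hu.2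
        refine ⟨⟨(chainOf s f).map (fun z => x + z), ?_, ?_, ?_, ?_, ?_, ?_⟩, ?_, ?_⟩
        · exact ccv_chain_map (chainOf_isChain s f) _ fun a b hab => ccv_adj_add x hab
        · rw [List.head?_map, chainOf_head, hf0]
          simp
        · rw [List.getLast?_map, chainOf_getLast, Option.map_some, hf3]
        · intro z hz
          rw [List.mem_map] at hz
          obtain ⟨w, hw, rfl⟩ := hz
          have h1 : w ∈ rangeF s f := by
            rw [← chainOf_toFinset]; exact List.mem_toFinset.2 hw
          obtain ⟨u', hu', rfl⟩ := mem_rangeF.1 h1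
          exact hf1 u' hu'
        · intro z hz
          have h1 := ccv_occ_pos (lt_of_lt_of_le hβ (hf2 z hz))
          rw [List.mem_map]
          exact ⟨z - x, h1, by abel⟩
        · rw [List.length_map]
          exact hlen
        · show chainOf u.toNNReal f = ((chainOf s f).map (fun z => x + z)).map (fun z => z - x)
          rw [hmm]
          apply chainOf_const hsu
          intro u' hu1 hu2
          have h3 : (shift s f).1 (u' - s) = 0 :=
            const_of_chain hfG (by
              rw [tsub_le_iff_left]; exact hu2.trans hus)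
          simp only [shift] at h3
          rw [add_tsub_cancel_of_le hu1] at h3
          exact sub_eq_zero.1 h3
        · intro w _ hwB
          have h4 := hf2 (x + w) hwB
          rw [ccv_occ_lt] at h4
          exact h4.trans (lt_mono hsu f w)
      · left; exact hf0
    refine (measure_mono hsub).trans ((measure_union_le _ _).trans ?_)
    rw [hnull, zero_add]
    refine (measure_iUnion_le _).trans (le_of_eq ?_)
    refine tsum_congr fun l => ?_
    rw [Fm_eq μ β B _ hu0]
  -- integrate
  have hint : μ A1 * ENNReal.ofReal (Real.exp (-4)) ≤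
      ∑' l : {l : List Site // l.IsChain Adj ∧ l.head? = some x ∧ l.getLast? = some y ∧
        (∀ z ∈ l, z ∈ A) ∧ (∀ z ∈ R, z ∈ l) ∧ l.length ≤ n}, Wg β 0 (R : Set Site) l := by
    calc μ A1 * ENNReal.ofReal (Real.exp (-4))
        = ∫⁻ u in Set.Icc (s : ℝ) (s + 1), μ A1 * ENNReal.ofReal (Real.exp (-4)) := by
          rw [setLIntegral_const, Real.volume_Icc]; simp
      _ ≤ ∫⁻ u in Set.Icc (s : ℝ) (s + 1), ∑' l : {l : List Site // l.IsChain Adj ∧
            l.head? = some x ∧ l.getLast? = some y ∧
            (∀ z ∈ l, z ∈ A) ∧ (∀ z ∈ R, z ∈ l) ∧ l.length ≤ n},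
              Fm μ β B (l.1.map (fun z => z - x)) u :=
          setLIntegral_mono' measurableSet_Icc fun u hu => key u hu
      _ ≤ ∫⁻ u in Set.Ici (0 : ℝ), ∑' l : {l : List Site // l.IsChain Adj ∧
            l.head? = some x ∧ l.getLast? = some y ∧
            (∀ z ∈ l, z ∈ A) ∧ (∀ z ∈ R, z ∈ l) ∧ l.length ≤ n},
              Fm μ β B (l.1.map (fun z => z - x)) u := by
          apply lintegral_mono_set
          intro u hu
          exact s.coe_nonneg.trans hu.1
      _ = _ := by
          rw [lintegral_tsum]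
          · refine tsum_congr fun l => ?_
            have h1 := main_formula' hμ hβ.le (lam := 0) (by norm_num) B
              (l.1.map (fun z => z - x))
              (ccv_chain_map l.2.1 _ fun a b hab => ccv_adj_sub x hab)
              (by rw [List.head?_map, l.2.2.1]; simp)
            rw [← ccv_Wg β 0 (R : Set Site) x l.1]
            rw [← h1]
            refine lintegral_congr fun u => ?_
            simp
          · intro l
            exact (measurable_Fm μ β B _).aemeasurable
  refine le_trans ?_ hint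
  have h1 : μ A1 = ENNReal.ofReal (μ.real A1) := (ofReal_measureReal).symm
  rw [h1, ← ENNReal.ofReal_mul measureReal_nonneg]
  apply ENNReal.ofReal_le_ofReal
  calc Real.exp (-(c + 5)) = Real.exp (-(c + 1)) * Real.exp (-4) := by
        rw [← Real.exp_add]; ring_nf
    _ ≤ μ.real A1 * Real.exp (-4) := mul_le_mul_of_nonneg_right hA1r (Real.exp_nonneg _)

theorem cov_travel {μ : Measure WP} (hμ : IsLaw μ) {A : Finset Site} {β τ c : ℝ} {x y : Site}
    (hxy : x ≠ y) (hτ : 0 ≤ τ) (hc : 0 ≤ c) (h : Cov A ∅ β τ x y c) :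
    ∃ n : ℕ, 2 ≤ n ∧ (n : ℝ) ≤ 32 * (τ + c + 1) + 4 ∧ ∃ V : Finset (List Site),
      (∀ l ∈ V, l.IsChain Adj ∧ l.head? = some x ∧ l.getLast? = some y ∧ (∀ z ∈ l, z ∈ A) ∧
        l.length = n) ∧
      Real.exp (-(c + 5)) / (32 * (τ + c + 1) + 5) ≤ V.card * (1 / 4 : ℝ) ^ n := by
  classical
  have h1 : Cov A ∅ 1 τ x y c := by
    obtain ⟨s, hs, h2⟩ := h
    refine ⟨s, hs, fun ν hν => ?_⟩
    have h3 := h2 ν hν
    have h4 : cev A ∅ β s x y = cev A ∅ 1 s x y := by
      unfold cev
      simp
    rw [← h4]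
    exact h3
  set N : ℕ := ⌈32 * (τ + c + 1) + 3⌉₊ with hN
  have hN1 : 32 * (τ + c + 1) + 3 ≤ N := Nat.le_ceil _
  have hN2 : (N : ℝ) < 32 * (τ + c + 1) + 3 + 1 := Nat.ceil_lt_add_one (by linarith)
  have h2 := cov_chain hμ one_pos hτ hc h1 hN1
  -- the finite set of all the chains
  set D : Finset (List Site) := ((Finset.range N).biUnion fun m => chains m x).filter fun l =>
    l.IsChain Adj ∧ l.head? = some x ∧ l.getLast? = some y ∧ (∀ z ∈ l, z ∈ A) ∧ l.length ≤ N
    with hD
  have hDp : ∀ l ∈ D, l.IsChain Adj ∧ l.head? = some x ∧ l.getLast? = some y ∧ (∀ z ∈ l, z ∈ A) ∧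
      l.length ≤ N := fun l hl => (Finset.mem_filter.1 hl).2
  have hlen2 : ∀ l ∈ D, l.length ∈ Finset.Icc 2 N := by
    intro l hl
    obtain ⟨_, hh, hla, _, hle⟩ := hDp l hl
    rw [Finset.mem_Icc]
    refine ⟨?_, hle⟩
    rcases l with _ | ⟨a, _ | ⟨b, l⟩⟩
    · simp at hh
    · exfalso
      simp only [List.head?_cons, Option.some.injEq] at hh
      simp only [List.getLast?_singleton, Option.some.injEq] at hla
      exact hxy (hh.symm.trans hla)
    · simp
  have hw : ∀ l : List Site, Wg 1 0 ((∅ : Finset Site) : Set Site) l =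
      ENNReal.ofReal ((1 / 4 : ℝ) ^ l.length) := by
    intro l
    unfold Wg fw
    rw [Finset.prod_congr rfl (g := fun x => ENNReal.ofReal ((4 - 0)⁻¹) ^ l.count x)
      (fun x _ => by simp)]
    rw [Finset.prod_pow_eq_pow_sum]
    have : ∑ x ∈ l.toFinset, l.count x = l.length := by
      rw [← List.sum_toFinset_count_eq_length l]
      refine Finset.sum_congr rfl fun x _ => ?_
      congr 1
      exact lawful_beq_subsingleton _ _
    rw [this, ENNReal.ofReal_pow (by norm_num)]
    norm_num
  have h3 : (∑' l : {l : List Site // l.IsChain Adj ∧ l.head? = some x ∧ l.getLast? = some y ∧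
        (∀ z ∈ l, z ∈ A) ∧ (∀ z ∈ (∅ : Finset Site), z ∈ l) ∧ l.length ≤ N},
          Wg 1 0 ((∅ : Finset Site) : Set Site) l) ≤
      ∑ l ∈ D, ENNReal.ofReal ((1 / 4 : ℝ) ^ l.length) := by
    have h4 : {l : List Site | l.IsChain Adj ∧ l.head? = some x ∧ l.getLast? = some y ∧
        (∀ z ∈ l, z ∈ A) ∧ (∀ z ∈ (∅ : Finset Site), z ∈ l) ∧ l.length ≤ N} ⊆
        (D : Set (List Site)) := by
      rintro l ⟨a1, a2, a3, a4, a5, a6⟩
      rw [Finset.mem_coe, hD, Finset.mem_filter, Finset.mem_biUnion]
      refine ⟨⟨l.length - 1, ?_, ?_⟩, a1, a2, a3, a4, a6⟩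
      · rw [Finset.mem_range]
        rcases l with _ | ⟨a, l⟩
        · simp at a2
        · simp only [List.length_cons] at a6 ⊢
          omega
      · apply mem_chains a1 a2
        rcases l with _ | ⟨a, l⟩
        · simp at a2
        · simp
    have h5 := ENNReal.tsum_mono_subtype (fun l : List Site => Wg 1 0 ((∅ : Finset Site) : Set Site) l)
      h4
    refine h5.trans ?_
    rw [Finset.tsum_subtype' D (fun l : List Site => Wg 1 0 ((∅ : Finset Site) : Set Site) l)]
    exact le_of_eq (Finset.sum_congr rfl fun l _ => hw l)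
  have h4 : Real.exp (-(c + 5)) ≤ ∑ l ∈ D, (1 / 4 : ℝ) ^ l.length := by
    have h5 := h2.trans h3
    rw [← ENNReal.ofReal_sum_of_nonneg (fun l _ => by positivity)] at h5
    exact (ENNReal.ofReal_le_ofReal_iff (Finset.sum_nonneg fun l _ => by positivity)).1 h5
  have h5 : ∑ l ∈ D, (1 / 4 : ℝ) ^ l.length =
      ∑ m ∈ Finset.Icc 2 N, ((D.filter fun l => l.length = m).card : ℝ) * (1 / 4 : ℝ) ^ m := by
    rw [← Finset.sum_fiberwise_of_maps_to hlen2]
    refine Finset.sum_congr rfl fun m _ => ?_
    rw [Finset.sum_congr rfl (g := fun _ => (1 / 4 : ℝ) ^ m), Finset.sum_const, nsmul_eq_mul]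
    intro l hl
    rw [(Finset.mem_filter.1 hl).2]
  set K : ℝ := 32 * (τ + c + 1) + 5 with hK
  have hK0 : 0 < K := by rw [hK]; linarith
  obtain ⟨m, hm, hmle⟩ : ∃ m ∈ Finset.Icc 2 N,
      Real.exp (-(c + 5)) / K ≤ ((D.filter fun l => l.length = m).card : ℝ) * (1 / 4 : ℝ) ^ m := by
    by_contra hcon
    push Not at hcon
    have h6 : ∑ m ∈ Finset.Icc 2 N, ((D.filter fun l => l.length = m).card : ℝ) * (1 / 4 : ℝ) ^ m ≤
        ∑ m ∈ Finset.Icc 2 N, Real.exp (-(c + 5)) / K :=
      Finset.sum_le_sum fun m hm => (hcon m hm).le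
    rw [Finset.sum_const, nsmul_eq_mul, Nat.card_Icc] at h6
    have h7 : ((N + 1 - 2 : ℕ) : ℝ) ≤ N := by
      have : N + 1 - 2 ≤ N := by omega
      exact_mod_cast this
    have h8 : (N : ℝ) < K := by rw [hK]; linarith
    have h9 : ((N + 1 - 2 : ℕ) : ℝ) * (Real.exp (-(c + 5)) / K) < Real.exp (-(c + 5)) := by
      have h10 : 0 < Real.exp (-(c + 5)) / K := by positivity
      calc ((N + 1 - 2 : ℕ) : ℝ) * (Real.exp (-(c + 5)) / K)
          ≤ N * (Real.exp (-(c + 5)) / K) := mul_le_mul_of_nonneg_right h7 h10.le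
        _ < K * (Real.exp (-(c + 5)) / K) := mul_lt_mul_of_pos_right h8 h10
        _ = Real.exp (-(c + 5)) := by field_simp
    linarith
  rw [Finset.mem_Icc] at hm
  refine ⟨m, hm.1, ?_, D.filter fun l => l.length = m, ?_, hmle⟩
  · have : (m : ℝ) ≤ N := by exact_mod_cast hm.2
    linarith
  · intro l hl
    obtain ⟨h6, h7⟩ := Finset.mem_filter.1 hl
    obtain ⟨a1, a2, a3, a4, _⟩ := hDp l h6
    exact ⟨a1, a2, a3, a4, h7⟩

end Pool.Agent.TR90
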