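import Pool.Agent.WSB71.Tile

/-!
# TR90 (task WSB71-T4, helper90): `tile_realizable`, definitions

Coordinates `T = Ts x = x₁ + x₂`, `g = gs x = x₁ - x₂` (same parity).  `v` = end point of the tiles, `a = Ts v`,
`G = gs v`.  A row of `k` tiles `ω i = (γ_i, E_i)`, the tile `i` is translated by `i v`.

`pr γ h ρ v τ` (`0 ≤ τ ≤ a`): the profile of one tile, `τ = T - 1`: the minimum of `env γ T + ρ` and of two
wedges at the ends; `pr 0 = -13 h`, `pr a = G - 13 h`, 2-Lipschitz.  `gl` glues the profiles of the
`k` tiles: a 2-Lipschitz function `φ`.  `UU φ` is the domain above `φ`.  Facts (module Geo):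
visits of excursions outside the inner zone `Cz`, exits and entrances are in `UU φ` at height `≥ h/4` above
`φ`; at most `M + 200 h s₀` sites per tile of the layer `φ < g < φ + s₀` are not (in `Cz` and visited by the tile).

Chain of a row: (tour from `x0` to `x0` inside `UU φ` which visits all sites of `UU φ` up to height `2^I`, except
some of the layer which are visited by the tiles) then (travel, excursion, travel, excursion, ...),
travels of prescribed length inside the cones above their end points, so inside `UU φ`.

Modules: Tour, CovChain, Travel, GeoA, GeoB, Glue, Asm, Prod, Row, Main.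
-/

open MeasureTheory Filter Topology
open scoped NNReal ENNReal

namespace Pool.Agent.TR90

open Pool.Agent.LT Pool.Agent.WSB71

/-- The site with `Ts = T` and `gs = g` or `gs = g - 1` (according to the parity). -/
def pt (T g : ℤ) : Site := ((T + g) / 2, T - (T + g) / 2)

lemma Ts_pt (T g : ℤ) : Ts (pt T g) = T := by
  unfold Ts pt
  simp only
  omega

lemma gs_pt (T g : ℤ) : g - 1 ≤ gs (pt T g) ∧ gs (pt T g) ≤ g := by
  unfold gs pt
  simp only
  omega

/-- 2-Lipschitz functions. -/
def Lip2 (φ : ℤ → ℤ) : Prop := ∀ T, |φ (T + 1) - φ T| ≤ 2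

/-- The domain above `φ`: it is connected upwards by the staircase `x, x + (1, 0), x + (1, -1), ...` or
`x, x - (0, 1), x + (1, -1), ...`. -/
def UU (φ : ℤ → ℤ) (x : Site) : Prop := φ (Ts x) + 2 ≤ gs x ∨ φ (Ts x - 1) + 3 ≤ gs x

/-- The wedge at a junction. -/
def psi (h τ : ℤ) : ℤ := -(13 * h) + 2 * max 0 (|τ| - 9 * h)

/-- The profile of a tile. -/
noncomputable def pr (γ : List Site) (h ρ : ℤ) (v : Site) (τ : ℤ) : ℤ :=
  min (env γ (1 + τ) + ρ) (min (psi h τ) (gs v + psi h (Ts v - τ)))

/-- Gluing of `k` profiles. -/
def gl (k : ℕ) (a G : ℤ) (p : ℕ → ℤ → ℤ) (T : ℤ) : ℤ :=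
  min (max 0 (min (T - 1) (k * a)) / a) (k - 1) * G +
    p (min (max 0 (min (T - 1) (k * a)) / a) (k - 1)).toNat
      (max 0 (min (T - 1) (k * a)) - min (max 0 (min (T - 1) (k * a)) / a) (k - 1) * a)

/-- The full chain: `t` the tour, `τ r` the travels, `E r` the excursions, `y` the last site. -/
def glueAll (K : ℕ) (t : List Site) (τ E : ℕ → List Site) (y : Site) : List Site :=
  t.dropLast ++ (List.range K).flatMap (fun r => (τ r).dropLast ++ (E r).dropLast) ++ [y]

/-- The visits of the excursions. -/
def visE (K : ℕ) (E : ℕ → List Site) : List Site :=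
  (List.range K).flatMap (fun r => (E r).dropLast)

/-- All the excursions of a row of tiles, in order. -/
def allExc (k : ℕ) (v : Site) (ω : ℕ → List Site × List (List Site)) : List (List Site) :=
  (List.range k).flatMap (fun i => (ω i).2.map (fun e => e.map (fun x => i • v + x)))

/-- The union of the inner zones of a row of tiles. -/
def Cu (k : ℕ) (v : Site) (h : ℤ) (ω : ℕ → List Site × List (List Site)) : Set Site :=
  {x | ∃ i < k, x - i • v ∈ Cz (ω i).1 h}

/-- The first and last vertices of the contour. -/
def codeT (h : ℤ) (q : List Site × List (List Site)) : List Site × List Site :=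
  (q.1.take (12 * h.toNat + 13), q.1.reverse.take (12 * h.toNat + 13))

end Pool.Agent.TR90
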