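import Pool.Agent.TR90.Defs
import Pool.Agent.WSB71.TileCont
import Pool.Agent.WSB71.TileUnique

/-!
# TR90, module GeoA: the profile of a tile, depth of exits and entrances

`Tfst γ = 1`, `Tlst γ = 1 + Ts v`.  `env γ` is the maximum over the finite set `γ`, `env γ (Td p) ≥ gd p`, it is
2-Lipschitz.  A tile path has `n` steps, `L ≤ n ≤ 2 L`, `99 n ≤ 100 Ts v`, `|gd γ_k| ≤ k`, `|gd γ_k - gs v| ≤ n - k`,
`3 k ≤ 4 (Td γ_k - 1)`, `3 (n - k) ≤ 4 (1 + Ts v - Td γ_k)`.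
On each level `T` with `1 ≤ T ≤ Ts v` the number of steps of `γ` between the levels `T` and `T + 1` is odd (the path goes from
level `1` to level `1 + Ts v`), so a site `x` of that level which is on the right of `γ` satisfies
`gd s.1 + gd s.2 ≤ 2 gs x` for at least one such step; if `Ts x ≤ 1 + 8 h` then `s` has index `≤ (4/3)(8 h + 1)`, so
`gs x ≥ -12 h`; if `Ts x ≥ 1 + Ts v - 8 h` then `gs x ≥ gs v - 12 h`.
-/

open MeasureTheory Filter Topology
open scoped NNReal ENNReal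

namespace Pool.Agent.TR90

open Pool.Agent.LT Pool.Agent.WSB71

variable {L : ℕ} {v : Site} {γ : List Site} {h : ℤ}

namespace GA

lemma gd_step {p q : Site} (h : Adj p q) :
    (Td q = Td p + 1 ∨ Td q = Td p - 1) ∧ (gd q = gd p + 1 ∨ gd q = gd p - 1) := by
  unfold Td gd
  rcases TC.adj_iff.1 h with h | h | h | h <;> rw [h] <;> simp only <;> omega

lemma dist {γ : List Site} (hc : γ.IsChain Adj) {i : ℕ} {p : Site} (hi : γ[i]? = some p) :
    ∀ (m : ℕ) {q : Site}, γ[i + m]? = some q → |gd q - gd p| ≤ m ∧ |Td q - Td p| ≤ m := by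
  intro m
  induction m with
  | zero =>
    intro q hq
    rw [add_zero, hi] at hq
    obtain rfl := Option.some.inj hq
    simp
  | succ m ih =>
    intro q hq
    have hlt : i + m < γ.length := by
      have := (List.getElem?_eq_some_iff.1 hq).1
      omega
    have hr : γ[i + m]? = some γ[i + m] := List.getElem?_eq_getElem hlt
    have h1 := ih hr
    have h2 := gd_step (TU.chain_get hc hr hq)
    push_cast
    generalize γ[i + m] = r at *
    simp only [abs_eq_max_neg] at *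
    omega

lemma at0 (hγ : TilePath L v γ) : γ[0]? = some 0 := by
  rw [← List.head?_eq_getElem?]
  exact hγ.head

lemma atn (hγ : TilePath L v γ) : γ[γ.length - 1]? = some v := by
  rw [← List.getLast?_eq_getElem?]
  exact hγ.last

lemma gd_v (v : Site) : gd v = gs v := rfl

lemma Td_v (v : Site) : Td v = 1 + Ts v := by
  unfold Td Ts
  ring

lemma lst (hγ : TilePath L v γ) : Tlst γ = 1 + Ts v := by
  rw [TC.tp_lst hγ, Td_v]

lemma bd (hγ : TilePath L v γ) {k : ℕ} {p : Site} (hp : γ[k]? = some p) :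
    |gd p| ≤ k ∧ |gd p - gs v| ≤ (γ.length : ℤ) - 1 - k ∧ 3 * (k : ℤ) ≤ 4 * (Td p - 1) ∧
      3 * ((γ.length : ℤ) - 1 - k) ≤ 4 * (1 + Ts v - Td p) ∧ (k : ℤ) + 1 ≤ γ.length := by
  have hk := (List.getElem?_eq_some_iff.1 hp).1
  have h1 := dist hγ.chain (at0 hγ) k (q := p) (by rw [zero_add]; exact hp)
  have h2 := dist hγ.chain hp (γ.length - 1 - k) (q := v) (by
    rw [show k + (γ.length - 1 - k) = γ.length - 1 by omega]
    exact atn hγ)
  have h3 := TU.lo hγ hp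
  have h4 := TU.hi hγ hp
  rw [TC.tp_fst hγ] at h3
  rw [lst hγ] at h4
  have e1 : gd (0 : Site) = 0 := rfl
  have e2 : ((γ.length - 1 - k : ℕ) : ℤ) = (γ.length : ℤ) - 1 - k := by omega
  rw [e1, sub_zero] at h1
  rw [e2, gd_v] at h2
  refine ⟨h1.1, ?_, h3, h4, by omega⟩
  rw [abs_sub_comm]
  exact h2.1

lemma len_le (hγ : TilePath L v γ) : (L : ℤ) + 1 ≤ γ.length ∧ (γ.length : ℤ) ≤ 2 * L + 1 := by
  have := hγ.len
  omega

lemma env_att {γ : List Site} (h : γ ≠ []) (T : ℤ) :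
    ∃ p ∈ γ, env γ T = gd p - 2 * |T - Td p| := by
  have hfin : {a | ∃ p ∈ γ, a = gd p - 2 * |T - Td p|}.Finite := by
    have : {a | ∃ p ∈ γ, a = gd p - 2 * |T - Td p|} =
        (fun p => gd p - 2 * |T - Td p|) '' {p | p ∈ γ} := by
      ext a
      simp only [Set.mem_ofPred_eq, Set.mem_image]
      constructor
      · rintro ⟨p, hp, rfl⟩
        exact ⟨p, hp, rfl⟩
      · rintro ⟨p, hp, rfl⟩
        exact ⟨p, hp, rfl⟩
    rw [this]
    exact γ.finite_toSet.image _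
  have hne : {a | ∃ p ∈ γ, a = gd p - 2 * |T - Td p|}.Nonempty := by
    obtain ⟨p, hp⟩ := List.exists_mem_of_ne_nil γ h
    exact ⟨_, p, hp, rfl⟩
  exact hne.csSup_mem hfin

lemma ne_nil (hγ : TilePath L v γ) : γ ≠ [] := by
  intro h
  have := hγ.head
  rw [h] at this
  simp at this

lemma env_lip (hγ : TilePath L v γ) (T : ℤ) : |env γ (T + 1) - env γ T| ≤ 2 := by
  obtain ⟨p, hp, e1⟩ := env_att (ne_nil hγ) T
  obtain ⟨q, hq, e2⟩ := env_att (ne_nil hγ) (T + 1)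
  have h1 := TU.env_ge hp (T + 1)
  have h2 := TU.env_ge hq T
  simp only [abs_eq_max_neg] at *
  omega

/-- Upper bounds for the envelope. -/
lemma env_up (hγ : TilePath L v γ) (T : ℤ) : 3 * env γ T ≤ 4 * (T - 1) ∧
    3 * env γ T ≤ 3 * gs v + 4 * (1 + Ts v - T) ∧ env γ T ≤ 2 * L := by
  obtain ⟨p, hp, e1⟩ := env_att (ne_nil hγ) T
  obtain ⟨k, hk⟩ := List.mem_iff_getElem?.1 hp
  obtain ⟨h1, h2, h3, h4, h5⟩ := bd hγ hk
  have h6 := len_le hγ
  rw [e1]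
  simp only [abs_eq_max_neg] at *
  omega

/-- A site on the right of the path is beyond some step of its level. -/
lemma exists_step (hγ : TilePath L v γ) {x : Site} (hx : rightOf γ x) (h1 : 1 ≤ Ts x)
    (h2 : Ts x ≤ Ts v) : ∃ (k : ℕ) (p q : Site), γ[k]? = some p ∧ γ[k + 1]? = some q ∧
      min (Td p) (Td q) = Ts x ∧ gd p + gd q ≤ 2 * gs x := by
  by_contra hcon
  push Not at hcon
  unfold rightOf at hx
  have h5 : (steps γ).countP (fun s => min (Td s.1) (Td s.2) = Ts x ∧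
      2 * gs x < gd s.1 + gd s.2) = (steps γ).countP (fun s => min (Td s.1) (Td s.2) = Ts x) := by
    apply List.countP_congr
    intro s hs
    obtain ⟨p, q⟩ := s
    obtain ⟨k, hk1, hk2⟩ := TU.mem_steps.1 hs
    have h3 := hcon k p q hk1 hk2
    simp only [decide_eq_true_eq]
    constructor
    · exact fun h => h.1
    · exact fun h => ⟨h, h3 h⟩
  rw [h5, TC.even_cross (Ts x) γ hγ.chain 0 v hγ.head hγ.last] at hx
  have h7 : Td (0 : Site) ≤ Ts x := by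
    have : Td (0 : Site) = 1 := by simp [Td]
    omega
  have h8 := hx.1 h7
  rw [Td_v] at h8
  omega

/-- Lower bounds for the sites on the right of the path. -/
lemma low (hγ : TilePath L v γ) {x : Site} (hx : rightOf γ x) (h1 : 1 ≤ Ts x)
    (h2 : Ts x ≤ Ts v) : -(8 * (Ts x - 1)) - 3 ≤ 6 * gs x ∧
      6 * gs v - 8 * (1 + Ts v - Ts x) ≤ 6 * gs x ∧ -(2 * (L : ℤ)) ≤ gs x := by
  obtain ⟨k, p, q, hp, hq, h3, h4⟩ := exists_step hγ hx h1 h2
  obtain ⟨a1, a2, a3, a4, a5⟩ := bd hγ hp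
  obtain ⟨b1, b2, b3, b4, b5⟩ := bd hγ hq
  have h5 := gd_step (TU.chain_get hγ.chain hp hq)
  have h6 := len_le hγ
  push_cast at *
  simp only [abs_eq_max_neg] at *
  omega

lemma psi_lip (h τ : ℤ) : |psi h (τ + 1) - psi h τ| ≤ 2 := by
  unfold psi
  simp only [abs_eq_max_neg]
  omega

/-- Upper bounds for the profile. -/
lemma pr_le (ρ τ : ℤ) : pr γ h ρ v τ ≤ env γ (1 + τ) + ρ ∧ pr γ h ρ v τ ≤ psi h τ ∧
    pr γ h ρ v τ ≤ gs v + psi h (Ts v - τ) := by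
  unfold pr
  omega

lemma psi_small {τ : ℤ} (h0 : 0 ≤ τ) (h1 : τ ≤ 9 * h) : psi h τ = -(13 * h) := by
  unfold psi
  simp only [abs_eq_max_neg]
  omega

lemma psi_big (hh : 1 ≤ h) {τ : ℤ} (h1 : 9 * h ≤ τ) : psi h τ = 2 * τ - 31 * h := by
  unfold psi
  simp only [abs_eq_max_neg]
  omega

/-- The depth near the ends. -/
lemma depth (hγ : TilePath L v γ) (hh : 1 ≤ h) (hhL : 100 * h ≤ L) {x : Site}
    (hx : rightOf γ x) (h1 : 1 ≤ Ts x) (h2 : Ts x ≤ Ts v)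
    (h3 : Ts x ≤ 1 + 8 * h ∨ 1 + Ts v - 8 * h ≤ Ts x) (ρ : ℤ) :
    4 * pr γ h ρ v (Ts x - 1) + 4 * h ≤ 4 * gs x := by
  obtain ⟨a1, a2, a3⟩ := low hγ hx h1 h2
  obtain ⟨b1, b2, b3⟩ := pr_le (γ := γ) (h := h) (v := v) ρ (Ts x - 1)
  rcases h3 with h3 | h3
  · rw [psi_small (by omega) (by omega)] at b2
    omega
  · rw [psi_small (by omega) (by omega)] at b3
    omega

end GA

open GA

theorem v_bounds (hγ : TilePath L v γ) : 99 * (L : ℤ) ≤ 100 * Ts v ∧ Ts v ≤ 2 * L ∧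
    |gs v| ≤ 2 * L ∧ Tfst γ = 1 ∧ Tlst γ = 1 + Ts v := by
  have h1 := hγ.low
  rw [TC.tp_fst hγ, lst hγ] at h1
  have h2 := len_le hγ
  have h3 := dist hγ.chain (at0 hγ) (γ.length - 1) (q := v) (by rw [zero_add]; exact atn hγ)
  have e1 : gd (0 : Site) = 0 := rfl
  have e2 : Td (0 : Site) = 1 := by simp [Td]
  have e3 : ((γ.length - 1 : ℕ) : ℤ) = (γ.length : ℤ) - 1 := by omega
  rw [e1, e2, e3, Td_v, gd_v] at h3
  obtain ⟨h3, h4⟩ := h3
  rw [abs_le] at h3 h4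
  refine ⟨by omega, by omega, ?_, TC.tp_fst hγ, lst hγ⟩
  rw [abs_le]
  omega

theorem pr_zero (hγ : TilePath L v γ) (hh : 1 ≤ h) (hhL : 100 * h ≤ L) {ρ : ℤ} (hρ : 0 ≤ ρ) :
    pr γ h ρ v 0 = -(13 * h) := by
  obtain ⟨h1, h2, h3, -, -⟩ := v_bounds hγ
  have h4 := TU.env_ge (List.mem_of_getElem? (at0 hγ)) (1 + 0)
  have e1 : gd (0 : Site) = 0 := rfl
  have e2 : Td (0 : Site) = 1 := by simp [Td]
  have h5 := (bd hγ (at0 hγ)).2.1
  have h6 := hγ.low
  rw [TC.tp_fst hγ, lst hγ] at h6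
  have h7 := len_le hγ
  rw [e1, e2] at h4
  rw [e1] at h5
  unfold pr
  rw [psi_small (h := h) (τ := 0) le_rfl (by omega), psi_big hh (τ := Ts v - 0) (by omega)]
  push_cast at h5
  simp only [abs_eq_max_neg] at *
  omega

theorem pr_last (hγ : TilePath L v γ) (hh : 1 ≤ h) (hhL : 100 * h ≤ L) {ρ : ℤ} (hρ : 0 ≤ ρ) :
    pr γ h ρ v (Ts v) = -(13 * h) + gs v := by
  obtain ⟨h1, h2, h3, -, -⟩ := v_bounds hγ
  have h4 := TU.env_ge (List.mem_of_getElem? (atn hγ)) (1 + Ts v)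
  have e1 : gd (0 : Site) = 0 := rfl
  have h5 := (bd hγ (at0 hγ)).2.1
  have h6 := hγ.low
  rw [TC.tp_fst hγ, lst hγ] at h6
  have h7 := len_le hγ
  rw [gd_v, Td_v] at h4
  rw [e1] at h5
  unfold pr
  rw [sub_self, psi_small (h := h) (τ := 0) le_rfl (by omega), psi_big hh (τ := Ts v) (by omega)]
  push_cast at h5
  simp only [abs_eq_max_neg] at *
  omega

theorem pr_lip (hγ : TilePath L v γ) (ρ τ : ℤ) : |pr γ h ρ v (τ + 1) - pr γ h ρ v τ| ≤ 2 := by
  have h1 := env_lip hγ (1 + τ)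
  have h2 := psi_lip h τ
  have h3 := psi_lip h (Ts v - (τ + 1))
  have e1 : 1 + (τ + 1) = 1 + τ + 1 := by ring
  have e2 : Ts v - (τ + 1) + 1 = Ts v - τ := by ring
  rw [e2] at h3
  unfold pr
  rw [e1]
  rw [abs_le] at *
  omega

theorem pr_bound (hγ : TilePath L v γ) (hh : 1 ≤ h) (hhL : 100 * h ≤ L) {ρ : ℤ} (hρ : 0 ≤ ρ)
    {τ : ℤ} (h0 : 0 ≤ τ) (h1 : τ ≤ Ts v) : |pr γ h ρ v τ| ≤ 10 * L := by
  obtain ⟨h3, h4, h5, -, -⟩ := v_bounds hγ
  have h6 := TU.env_ge (List.mem_of_getElem? (at0 hγ)) (1 + τ)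
  have e1 : gd (0 : Site) = 0 := rfl
  have e2 : Td (0 : Site) = 1 := by simp [Td]
  rw [e1, e2] at h6
  unfold pr psi
  simp only [abs_eq_max_neg] at *
  omega

/-- Between the two wedges the profile is the envelope. -/
theorem pr_mid (hγ : TilePath L v γ) (hh : 1 ≤ h) (hhL : 100 * h ≤ L) {ρ : ℤ} (hρ : 2 * ρ ≤ h)
    {τ : ℤ} (h0 : 48 * h ≤ τ) (h1 : τ ≤ Ts v - 48 * h) : pr γ h ρ v τ = env γ (1 + τ) + ρ := by
  obtain ⟨h2, h3, h4⟩ := env_up hγ (1 + τ)
  unfold pr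
  rw [psi_big hh (by omega), psi_big hh (by omega)]
  omega

theorem zz_bound (hγ : TilePath L v γ) (hh : 1 ≤ h) (hhL : 100 * h ≤ L) {x : Site}
    (hx : x ∈ Zz γ h) : 1 < Ts x ∧ Ts x < 1 + Ts v ∧ |gs x| ≤ 10 * L := by
  obtain ⟨h1, h2, h3, h4⟩ := hx
  rw [TC.tp_fst hγ] at h2
  rw [lst hγ] at h3
  have h5 := low hγ h1 (by omega) (by omega)
  have h6 := env_up hγ (Ts x)
  refine ⟨by omega, by omega, ?_⟩
  rw [abs_le]
  omega

theorem zone_depth (hγ : TilePath L v γ) (hh : 1 ≤ h) (hhL : 100 * h ≤ L) {ρ : ℤ}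
    (h0 : 0 ≤ ρ) (hρ : 2 * ρ ≤ h) {x : Site} (hx : x ∈ Zz γ h) (hx' : x ∉ Cz γ h) :
    2 * pr γ h ρ v (Ts x - 1) + h ≤ 2 * gs x := by
  have hb := zz_bound hγ hh hhL hx
  have hr : rightOf γ x := hx.1
  have hc : Ts x < 1 + 8 * h ∨ 1 + Ts v - 8 * h < Ts x ∨ env γ (Ts x) + h < gs x := by
    by_contra hcon
    push Not at hcon
    apply hx'
    refine ⟨hr, ?_, ?_, hcon.2.2⟩
    · rw [TC.tp_fst hγ]; exact hcon.1
    · rw [lst hγ]; exact hcon.2.1
  rcases hc with hc | hc | hc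
  · have := depth hγ hh hhL hr (by omega) (by omega) (Or.inl hc.le) ρ
    omega
  · have := depth hγ hh hhL hr (by omega) (by omega) (Or.inr hc.le) ρ
    omega
  · have := (pr_le (γ := γ) (h := h) (v := v) ρ (Ts x - 1)).1
    rw [show 1 + (Ts x - 1) = Ts x by ring] at this
    omega

theorem exit_depth (hγ : TilePath L v γ) (hh : 1 ≤ h) (hhL : 100 * h ≤ L) {ρ : ℤ}
    (h0 : 0 ≤ ρ) (hρ : 2 * ρ ≤ h) {a b : Site} {e : List Site}
    (he : IsExc (Cz γ h) (Zz γ h) a b e) (hb : rightOf γ b) :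
    pr γ h ρ v (Ts b - 1) + h ≤ gs b ∧ 1 ≤ Ts b ∧ Ts b ≤ 1 + Ts v ∧ |gs b| ≤ 10 * L := by
  obtain ⟨⟨e1, e2, e3⟩, ha, hbz, hez⟩ := he
  have haz : a ∈ Zz γ h := TC.cz_sub_zz hh ha
  have hlen : 2 ≤ e.length := by
    by_contra hcon
    have hl : e.length ≤ 1 := by omega
    have hne : e ≠ [] := by
      intro h
      rw [h] at e1
      simp at e1
    have hpos := List.length_pos_of_ne_nil hne
    obtain ⟨c, hc⟩ := List.length_eq_one_iff.1 (show e.length = 1 by omega)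
    rw [hc] at e1 e2
    simp only [List.head?_cons, Option.some.injEq, List.getLast?_singleton] at e1 e2
    apply hbz
    rw [← e2, e1]
    exact haz
  obtain ⟨p, hp, hpb⟩ := TC.last_adj e e3 hlen b e2
  obtain ⟨p1, p2, p3, p4⟩ := hez p hp
  rw [TC.tp_fst hγ] at p2
  rw [lst hγ] at p3
  have hlo := low hγ p1 (by omega) (by omega)
  have hup := env_up hγ (Ts p)
  have hst : (Ts b = Ts p + 1 ∨ Ts b = Ts p - 1) ∧ (gs b = gs p + 1 ∨ gs b = gs p - 1) := by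
    unfold Ts gs
    rcases TC.adj_iff.1 hpb with h | h | h | h <;> rw [h] <;> simp only <;> omega
  refine ⟨?_, by omega, by omega, ?_⟩
  · have hc : Ts b ≤ 1 + 4 * h ∨ 1 + Ts v - 4 * h ≤ Ts b ∨ env γ (Ts b) + 2 * h ≤ gs b := by
      by_contra hcon
      push Not at hcon
      apply hbz
      refine ⟨hb, ?_, ?_, hcon.2.2⟩
      · rw [TC.tp_fst hγ]; exact hcon.1
      · rw [lst hγ]; exact hcon.2.1
    rcases hc with hc | hc | hc
    · have := depth hγ hh hhL hb (by omega) (by omega) (Or.inl (by omega)) ρ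
      omega
    · have := depth hγ hh hhL hb (by omega) (by omega) (Or.inr (by omega)) ρ
      omega
    · have := (pr_le (γ := γ) (h := h) (v := v) ρ (Ts b - 1)).1
      rw [show 1 + (Ts b - 1) = Ts b by ring] at this
      omega
  · rw [abs_le]
    omega

theorem ent_depth (hγ : TilePath L v γ) (hh : 8 ≤ h) (hhL : 100 * h ≤ L) {ρ : ℤ}
    (h0 : 0 ≤ ρ) (hρ : 2 * ρ ≤ h) {a : Site} (ha : a ∈ Cz γ h) (he : TileEnt h γ a) :
    4 * pr γ h ρ v (Ts a - 1) + h ≤ 4 * gs a ∧ 1 ≤ Ts a ∧ Ts a ≤ 1 + Ts v ∧ |gs a| ≤ 10 * L := by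
  have hb := zz_bound hγ (by omega) hhL (TC.cz_sub_zz (by omega) ha)
  have hr : rightOf γ a := ha.1
  refine ⟨?_, by omega, by omega, hb.2.2⟩
  unfold TileEnt at he
  rw [TC.tp_fst hγ, lst hγ] at he
  rcases he with he | he | he
  · have := (pr_le (γ := γ) (h := h) (v := v) ρ (Ts a - 1)).1
    rw [show 1 + (Ts a - 1) = Ts a by ring] at this
    omega
  · have := depth hγ (by omega) hhL hr (by omega) (by omega) (Or.inl (by omega)) ρ
    omega
  · have := depth hγ (by omega) hhL hr (by omega) (by omega) (Or.inr (by omega)) ρ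
    omega

end Pool.Agent.TR90
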