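import Pool.Agent.TR90.GeoA

/-!
# TR90, module GeoB: counting the layer

Between the wedges (`48 h ≤ Ts x - 1 ≤ Ts v - 48 h`) the profile is `env γ (Ts x) + ρ` (`pr_mid`), the sites of
the layer are on the right of `γ` (`gs x ≥ env γ (Ts x) + 1` so no step of level `Ts x` is beyond `x`) and in `Cz` (as
`ρ + s₀ ≤ h`), so those which are not visited are in the set of `hcard` (finite!).  The other
sites of the layer: at most `97 h` values of `T` and at most `s₀` values of `g`.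
-/

open MeasureTheory Filter Topology
open scoped NNReal ENNReal

namespace Pool.Agent.TR90

open Pool.Agent.LT Pool.Agent.WSB71

lemma geoB_pt {x : Site} : pt (Ts x) (gs x) = x := by
  unfold pt Ts gs
  have h1 : (x.1 + x.2 + (x.1 - x.2)) / 2 = x.1 := by omega
  rw [h1]
  ext
  · rfl
  · simp only; ring

lemma geoB_adj : ∀ {γ : List Site}, γ.IsChain Adj → ∀ s ∈ steps γ, Adj s.1 s.2 := by
  intro γ hc s hs
  obtain ⟨a, b⟩ := s
  obtain ⟨i, h1, h2⟩ := TU.mem_steps.1 hs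
  exact TU.chain_get hc h1 h2

/-- A site above the envelope is on the right of the path. -/
lemma geoB_right {γ : List Site} (hc : γ.IsChain Adj) {x : Site} (h : env γ (Ts x) + 1 ≤ gs x) :
    rightOf γ x := by
  unfold rightOf
  have : (steps γ).countP (fun s => min (Td s.1) (Td s.2) = Ts x ∧ 2 * gs x < gd s.1 + gd s.2) = 0 := by
    rw [List.countP_eq_zero]
    intro s hs
    simp only [decide_eq_true_eq]
    rintro ⟨h1, h2⟩
    have hm := TC.mem_steps hs
    have ha := TU.adj_cases (geoB_adj hc s hs)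
    have e1 := TU.env_ge hm.1 (Ts x)
    have e2 := TU.env_ge hm.2 (Ts x)
    obtain ⟨⟨p1, p2⟩, ⟨q1, q2⟩⟩ := s
    simp only [Prod.mk_add_mk, Prod.mk.injEq] at ha
    unfold Td at h1 e1 e2
    unfold gd at h2 e1 e2
    simp only [abs_eq_max_neg] at h1 h2 e1 e2
    generalize Ts x = T at *
    generalize env γ T = E at *
    generalize gs x = g at *
    rcases ha with ⟨rfl, rfl⟩ | ⟨rfl, rfl⟩ | ⟨rfl, rfl⟩ | ⟨rfl, rfl⟩ <;> omega
  rw [this]
  exact Even.zero

theorem layer_count {L : ℕ} {v : Site} {γ : List Site} {h : ℤ} (hγ : TilePath L v γ)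
    (hh : 1 ≤ h) (hhL : 100 * h ≤ L) {ρ s₀ : ℤ} (h0 : 1 ≤ ρ) (hρ : 2 * ρ ≤ h) (hs : 1 ≤ s₀)
    (hsh : 2 * s₀ ≤ h) {V : List Site} {M : ℕ}
    (hcard : {x : Site | rightOf γ x ∧ Tfst γ + 8 * h ≤ Ts x ∧ Ts x ≤ Tlst γ - 8 * h ∧
      env γ (Ts x) + ρ ≤ gs x ∧ gs x < env γ (Ts x) + ρ + s₀ ∧ x ∉ V}.ncard ≤ M) :
    ∃ Y : Finset Site, (∀ x : Site, 1 ≤ Ts x → Ts x ≤ 1 + Ts v →
      pr γ h ρ v (Ts x - 1) + 1 ≤ gs x → gs x < pr γ h ρ v (Ts x - 1) + s₀ →
      ¬ (x ∈ Cz γ h ∧ x ∈ V) → x ∈ Y) ∧ (Y.card : ℤ) ≤ M + 200 * h * s₀ := by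
  classical
  obtain ⟨hv1, hv2, -, hf, hl⟩ := v_bounds hγ
  set S : Set Site := {x : Site | rightOf γ x ∧ Tfst γ + 8 * h ≤ Ts x ∧ Ts x ≤ Tlst γ - 8 * h ∧
      env γ (Ts x) + ρ ≤ gs x ∧ gs x < env γ (Ts x) + ρ + s₀ ∧ x ∉ V} with hS
  have hfin : S.Finite := by
    refine ((Finset.Icc (Tfst γ + 8 * h) (Tlst γ - 8 * h) ×ˢ Finset.Icc (0 : ℤ) s₀).image
      (fun q : ℤ × ℤ => pt q.1 (env γ q.1 + ρ + q.2))).finite_toSet.subset ?_
    intro x hx
    rw [hS] at hx
    obtain ⟨-, h2, h3, h4, h5, -⟩ := hx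
    rw [Finset.mem_coe, Finset.mem_image]
    refine ⟨(Ts x, gs x - (env γ (Ts x) + ρ)), ?_, ?_⟩
    · rw [Finset.mem_product, Finset.mem_Icc, Finset.mem_Icc]
      exact ⟨⟨h2, h3⟩, by simp only; linarith, by simp only; linarith⟩
    · simp only
      have : env γ (Ts x) + ρ + (gs x - (env γ (Ts x) + ρ)) = gs x := by ring
      rw [this, geoB_pt]
  set A : Finset ℤ := Finset.Icc 0 (48 * h - 1) ∪ Finset.Icc (Ts v - 48 * h + 1) (Ts v) with hA
  set W : Finset Site := (A ×ˢ Finset.Icc (1 : ℤ) s₀).image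
      (fun q : ℤ × ℤ => pt (1 + q.1) (pr γ h ρ v q.1 + q.2)) with hW
  refine ⟨hfin.toFinset ∪ W, ?_, ?_⟩
  · intro x hx1 hx2 hx3 hx4 hx5
    rw [Finset.mem_union]
    by_cases hmid : 48 * h ≤ Ts x - 1 ∧ Ts x - 1 ≤ Ts v - 48 * h
    · left
      rw [Set.Finite.mem_toFinset]
      have hpr := pr_mid hγ hh hhL hρ hmid.1 hmid.2
      have e1 : 1 + (Ts x - 1) = Ts x := by ring
      rw [e1] at hpr
      rw [hpr] at hx3 hx4
      have hr : rightOf γ x := geoB_right hγ.chain (by linarith)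
      have hT1 : Tfst γ + 8 * h ≤ Ts x := by rw [hf]; linarith [hmid.1]
      have hT2 : Ts x ≤ Tlst γ - 8 * h := by rw [hl]; linarith [hmid.2]
      refine ⟨hr, hT1, hT2, by linarith, by linarith, ?_⟩
      intro hV
      exact hx5 ⟨⟨hr, hT1, hT2, by linarith⟩, hV⟩
    · right
      rw [hW, Finset.mem_image]
      refine ⟨(Ts x - 1, gs x - pr γ h ρ v (Ts x - 1)), ?_, ?_⟩
      · rw [Finset.mem_product, Finset.mem_Icc, hA, Finset.mem_union, Finset.mem_Icc,
          Finset.mem_Icc]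
        simp only
        refine ⟨?_, by linarith, by linarith⟩
        by_contra hcon
        push Not at hcon
        apply hmid
        obtain ⟨c1, c2⟩ := hcon
        constructor
        · by_contra h3
          have := c1 (by linarith)
          omega
        · by_contra h3
          have := c2 (by omega)
          omega
      · simp only
        have e1 : 1 + (Ts x - 1) = Ts x := by ring
        have e2 : pr γ h ρ v (Ts x - 1) + (gs x - pr γ h ρ v (Ts x - 1)) = gs x := by ring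
        rw [e1, e2, geoB_pt]
  · have c1 : hfin.toFinset.card ≤ M := by
      rw [← Set.ncard_eq_toFinset_card S hfin]
      exact hcard
    have c2 : (A.card : ℤ) ≤ 96 * h := by
      have := Finset.card_union_le (Finset.Icc 0 (48 * h - 1)) (Finset.Icc (Ts v - 48 * h + 1) (Ts v))
      rw [← hA, Int.card_Icc, Int.card_Icc] at this
      have h3 : (A.card : ℤ) ≤ ((48 * h - 1 + 1 - 0).toNat : ℤ) +
          ((Ts v + 1 - (Ts v - 48 * h + 1)).toNat : ℤ) := by exact_mod_cast this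
      omega
    have c3 : (W.card : ℤ) ≤ 96 * h * s₀ := by
      have h1 : W.card ≤ (A ×ˢ Finset.Icc (1 : ℤ) s₀).card := Finset.card_image_le
      rw [Finset.card_product, Int.card_Icc] at h1
      have h2 : (W.card : ℤ) ≤ (A.card : ℤ) * ((s₀ + 1 - 1).toNat : ℤ) := by exact_mod_cast h1
      have h3 : ((s₀ + 1 - 1).toNat : ℤ) = s₀ := by
        rw [Int.toNat_of_nonneg (by linarith)]; ring
      rw [h3] at h2
      exact h2.trans (mul_le_mul_of_nonneg_right c2 (by linarith))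
    have c4 := Finset.card_union_le hfin.toFinset W
    have c5 : ((hfin.toFinset ∪ W).card : ℤ) ≤ (hfin.toFinset.card : ℤ) + (W.card : ℤ) := by
      exact_mod_cast c4
    have c6 : (hfin.toFinset.card : ℤ) ≤ (M : ℤ) := by exact_mod_cast c1
    have c7 : 0 ≤ h * s₀ := mul_nonneg (by linarith) (by linarith)
    nlinarith

end Pool.Agent.TR90
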