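import Pool.Agent.TR90.Defs
import Pool.Agent.WSB71.RealDef

/-!
# TR90, module Glue: gluing profiles; the strip along `v`

`cr v z = (Ts v * gs z - gs v * Ts z) / 2`, `dt v z = (Ts v * Ts z + gs v * gs z) / 2`, `dt v v = (Ts v ^ 2 + gs v ^ 2) / 2`,
`Ts v * dt v z - gs v * cr v z = Ts z * dt v v`.
-/

open MeasureTheory Filter Topology
open scoped NNReal ENNReal

namespace Pool.Agent.TR90

open Pool.Agent.LT Pool.Agent.WSB71

/-- The value at a clamped parameter `c = i a + τ`. -/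
lemma gl_val {k : ℕ} {a G : ℤ} {p : ℕ → ℤ → ℤ} {T : ℤ} {i : ℕ} {τ : ℤ}
    (hc : max 0 (min (T - 1) (k * a)) = i * a + τ)
    (hi : min ((i * a + τ) / a) ((k : ℤ) - 1) = i) : gl k a G p T = i * G + p i τ := by
  unfold gl
  rw [hc, hi, Int.toNat_natCast]
  congr 2
  ring

theorem gl_eq {k : ℕ} {a G c0 : ℤ} (ha : 0 < a) {p : ℕ → ℤ → ℤ} (h0 : ∀ i < k, p i 0 = c0)
    (h1 : ∀ i < k, p i a = c0 + G) {i : ℕ} (hi : i < k) {τ : ℤ} (hτ0 : 0 ≤ τ) (hτ1 : τ ≤ a) :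
    gl k a G p (1 + i * a + τ) = i * G + p i τ := by
  have hik : (i : ℤ) + 1 ≤ k := by exact_mod_cast hi
  have hi0 : (0 : ℤ) ≤ i := Int.natCast_nonneg i
  have hc : max 0 (min (1 + (i : ℤ) * a + τ - 1) (k * a)) = i * a + τ := by
    have h2 : (i : ℤ) * a + τ ≤ k * a := by nlinarith
    have h3 : 0 ≤ (i : ℤ) * a + τ := by positivity
    rw [show 1 + (i : ℤ) * a + τ - 1 = i * a + τ by ring, min_eq_left h2, max_eq_right h3]
  rcases lt_or_eq_of_le hτ1 with h | h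
  · refine gl_val hc ?_
    have h2 : ((i : ℤ) * a + τ) / a = i := by
      rw [add_comm, Int.add_mul_ediv_right _ _ ha.ne', Int.ediv_eq_zero_of_lt hτ0 h, zero_add]
    rw [h2]
    omega
  · subst h
    by_cases hk : i + 1 < k
    · have h3 := gl_val (k := k) (a := τ) (G := G) (p := p) (T := 1 + i * τ + τ) (i := i + 1)
        (τ := 0) (by rw [hc]; push_cast; ring) (by
          rw [add_zero]
          push_cast
          rw [Int.mul_ediv_cancel _ ha.ne']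
          omega)
      rw [h3, h0 _ hk, h1 i hi]
      push_cast
      ring
    · refine gl_val hc ?_
      have h2 : ((i : ℤ) * τ + τ) / τ = i + 1 := by
        rw [show (i : ℤ) * τ + τ = (i + 1) * τ by ring, Int.mul_ediv_cancel _ ha.ne']
      rw [h2]
      omega

/-- Every level in the range of the row belongs to some tile. -/
theorem exists_tile' {k : ℕ} (hk : 1 ≤ k) {a c : ℤ} (ha : 0 < a) (h0 : 0 ≤ c)
    (h1 : c ≤ k * a) : ∃ i < k, ∃ τ : ℤ, 0 ≤ τ ∧ τ ≤ a ∧ c = i * a + τ := by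
  by_cases h : c < k * a
  · have h2 : 0 ≤ c / a := Int.ediv_nonneg h0 ha.le
    have h3 : c / a < k := Int.ediv_lt_of_lt_mul ha h
    refine ⟨(c / a).toNat, by omega, c % a, Int.emod_nonneg _ ha.ne',
      (Int.emod_lt_of_pos _ ha).le, ?_⟩
    rw [Int.toNat_of_nonneg h2]
    have := Int.mul_ediv_add_emod c a
    linarith [mul_comm a (c / a)]
  · refine ⟨k - 1, by omega, a, ha.le, le_rfl, ?_⟩
    have h2 : ((k - 1 : ℕ) : ℤ) = (k : ℤ) - 1 := by omega
    rw [h2]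
    have h3 : c = k * a := le_antisymm h1 (not_lt.1 h)
    rw [h3]
    ring

/-- Every level in the range of the row belongs to some tile. -/
theorem exists_tile {k : ℕ} (hk : 1 ≤ k) {a T : ℤ} (ha : 0 < a) (h0 : 1 ≤ T)
    (h1 : T ≤ 1 + k * a) : ∃ i < k, ∃ τ : ℤ, 0 ≤ τ ∧ τ ≤ a ∧ T = 1 + i * a + τ := by
  obtain ⟨i, hi, τ, h2, h3, h4⟩ := exists_tile' hk (c := T - 1) ha (by omega) (by omega)
  exact ⟨i, hi, τ, h2, h3, by linarith⟩

/-- Outside the range of the row `gl` is constant. -/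
theorem gl_out {k : ℕ} {a G : ℤ} (ha : 0 < a) {p : ℕ → ℤ → ℤ} (T : ℤ) :
    gl k a G p T = gl k a G p (1 + max 0 (min (T - 1) (k * a))) := by
  have h0 : 0 ≤ (k : ℤ) * a := by positivity
  have h1 : max 0 (min (1 + max 0 (min (T - 1) ((k : ℤ) * a)) - 1) (k * a)) =
      max 0 (min (T - 1) (k * a)) := by
    omega
  unfold gl
  rw [h1]

theorem gl_lip {k : ℕ} (hk : 1 ≤ k) {a G c0 : ℤ} (ha : 0 < a) {p : ℕ → ℤ → ℤ}
    (h0 : ∀ i < k, p i 0 = c0) (h1 : ∀ i < k, p i a = c0 + G)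
    (hlip : ∀ i < k, ∀ τ, |p i (τ + 1) - p i τ| ≤ 2) : Lip2 (gl k a G p) := by
  intro T
  have hka : 0 ≤ (k : ℤ) * a := by positivity
  by_cases hT : 1 ≤ T ∧ T - 1 < k * a
  · obtain ⟨hT1, hT2⟩ := hT
    have h2 : 0 ≤ (T - 1) / a := Int.ediv_nonneg (by omega) ha.le
    have h3 : (T - 1) / a < k := Int.ediv_lt_of_lt_mul ha hT2
    have h4 := Int.emod_nonneg (T - 1) ha.ne'
    have h5 := Int.emod_lt_of_pos (T - 1) ha
    have h6 := Int.mul_ediv_add_emod (T - 1) a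
    obtain ⟨i, hi⟩ : ∃ i : ℕ, (i : ℤ) = (T - 1) / a := ⟨((T - 1) / a).toNat, Int.toNat_of_nonneg h2⟩
    have hik : i < k := by omega
    rw [← hi] at h6
    have e1 : T = 1 + i * a + (T - 1) % a := by linarith [mul_comm a (i : ℤ)]
    have e2 : T + 1 = 1 + i * a + ((T - 1) % a + 1) := by linarith
    have f1 := gl_eq (G := G) ha h0 h1 hik (τ := (T - 1) % a) h4 h5.le
    have f2 := gl_eq (G := G) ha h0 h1 hik (τ := (T - 1) % a + 1) (by omega) (by omega)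
    rw [← e1] at f1
    rw [← e2] at f2
    rw [f1, f2]
    have := hlip i hik ((T - 1) % a)
    rwa [add_sub_add_left_eq_sub]
  · have h2 : gl k a G p (T + 1) = gl k a G p T := by
      rw [gl_out ha (T + 1), gl_out ha T]
      congr 2
      omega
    rw [h2, sub_self, abs_zero]
    norm_num

lemma two_cr (v z : Site) : 2 * cr v z = Ts v * gs z - gs v * Ts z := by
  unfold cr Ts gs; ring

lemma two_dt (v z : Site) : 2 * dt v z = Ts v * Ts z + gs v * gs z := by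
  unfold dt Ts gs; ring

lemma mul_le_abs (x y B : ℤ) (h : |y| ≤ B) : |x * y| ≤ |x| * B := by
  rw [abs_mul]
  exact mul_le_mul_of_nonneg_left h (abs_nonneg x)

/-- Sites near the row are in the strip. -/
theorem strip_bounds {v : Site} (hv : 0 < Ts v) (H B : ℤ) (hH : 0 ≤ H) (hB : 0 ≤ B) :
    ∃ b : ℤ, 0 ≤ b ∧ ∀ k : ℕ, 1 ≤ k → ∀ p : ℕ → ℤ → ℤ, ∀ c0 : ℤ, (∀ i < k, p i 0 = c0) →
      (∀ i < k, p i (Ts v) = c0 + gs v) → (∀ i < k, ∀ τ, 0 ≤ τ → τ ≤ Ts v → |p i τ| ≤ B) →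
      ∀ z : Site, 1 - H ≤ Ts z → Ts z ≤ 1 + k * Ts v + H →
        |gs z - gl k (Ts v) (gs v) p (Ts z)| ≤ B →
        |cr v z| ≤ b ∧ -b ≤ dt v z ∧ dt v z ≤ k * dt v v + b := by
  set a := Ts v with ha
  set G := gs v with hG
  refine ⟨|a| * (2 * B) + |G| * (a + 1 + H) + |a| * (a + 1 + H) + |G| * (2 * B), by positivity,
    fun k hk p c0 h0 h1 hp z hz1 hz2 hz3 => ?_⟩
  have hka : 0 ≤ (k : ℤ) * a := by positivity
  obtain ⟨i, hi, τ, hτ0, hτ1, hc⟩ := exists_tile' hk (c := max 0 (min (Ts z - 1) (k * a))) hv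
    (by omega) (by omega)
  have hgl : gl k a G p (Ts z) = i * G + p i τ := by
    rw [gl_out hv, hc, ← add_assoc, gl_eq hv h0 h1 hi hτ0 hτ1]
  rw [hgl] at hz3
  have hpi := hp i hi τ hτ0 hτ1
  obtain ⟨e, he⟩ : ∃ e, e = gs z - i * G := ⟨_, rfl⟩
  obtain ⟨δ, hδ⟩ : ∃ δ, δ = Ts z - i * a := ⟨_, rfl⟩
  have he' : |e| ≤ 2 * B := by
    rw [abs_le] at hz3 hpi ⊢
    constructor <;> linarith
  have hδ' : |δ| ≤ a + 1 + H := by
    rw [abs_le]
    omega
  have hg : gs z = i * G + e := by linarith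
  have hT : Ts z = i * a + δ := by linarith
  have c1 := two_cr v z
  have c2 := two_dt v z
  have c3 := two_dt v v
  rw [← ha, ← hG, hg, hT] at c1 c2
  rw [← ha, ← hG] at c3
  have m1 := abs_le.1 (mul_le_abs a e _ he')
  have m2 := abs_le.1 (mul_le_abs G δ _ hδ')
  have m3 := abs_le.1 (mul_le_abs a δ _ hδ')
  have m4 := abs_le.1 (mul_le_abs G e _ he')
  have hi0 : (0 : ℤ) ≤ i := Int.natCast_nonneg i
  have hik : (i : ℤ) ≤ k := by exact_mod_cast hi.le
  have c1' : 2 * cr v z = a * e - G * δ := by rw [c1]; ring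
  have c2' : 2 * dt v z = i * (2 * dt v v) + (a * δ + G * e) := by rw [c2, c3]; ring
  have hd : 0 ≤ 2 * dt v v := by rw [c3]; nlinarith [sq_nonneg a, sq_nonneg G]
  have hid : 0 ≤ (i : ℤ) * (2 * dt v v) := mul_nonneg hi0 hd
  have hid' : (i : ℤ) * (2 * dt v v) ≤ k * (2 * dt v v) := mul_le_mul_of_nonneg_right hik hd
  have p1 : 0 ≤ |a| * (2 * B) := by positivity
  have p2 : 0 ≤ |G| * (a + 1 + H) := by positivity
  have p3 : 0 ≤ |a| * (a + 1 + H) := by positivity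
  have p4 : 0 ≤ |G| * (2 * B) := by positivity
  refine ⟨?_, ?_, ?_⟩
  · rw [abs_le]
    constructor <;> linarith [m1.1, m1.2, m2.1, m2.2]
  · linarith [m3.1, m4.1]
  · linarith [m3.2, m4.2]

/-- Sites with large `cr` are above the row; sites with bounded `cr` are at bounded height. -/
theorem strip_inner {v : Site} (hv : 0 < Ts v) (B : ℤ) (hB : 0 ≤ B) :
    ∃ b1 : ℤ, 0 ≤ b1 ∧ ∀ b2 : ℤ, ∃ B' : ℤ, 0 ≤ B' ∧
      ∀ k : ℕ, 1 ≤ k → ∀ p : ℕ → ℤ → ℤ, ∀ c0 : ℤ, (∀ i < k, p i 0 = c0) →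
      (∀ i < k, p i (Ts v) = c0 + gs v) → (∀ i < k, ∀ τ, 0 ≤ τ → τ ≤ Ts v → |p i τ| ≤ B) →
      ∀ z : Site, 1 ≤ Ts z → Ts z ≤ 1 + k * Ts v →
        (b1 ≤ cr v z → gl k (Ts v) (gs v) p (Ts z) + B ≤ gs z) ∧
        (cr v z ≤ b2 → gs z ≤ gl k (Ts v) (gs v) p (Ts z) + B') := by
  set a := Ts v with ha
  set G := gs v with hG
  refine ⟨|G| * (a + 1) + a * (2 * B), by positivity, fun b2 =>
    ⟨B + (2 * |b2| + |G| * (a + 1)), by positivity,
    fun k hk p c0 h0 h1 hp z hz1 hz2 => ?_⟩⟩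
  obtain ⟨i, hi, τ, hτ0, hτ1, hc⟩ := exists_tile hk hv hz1 hz2
  have hgl : gl k a G p (Ts z) = i * G + p i τ := by
    rw [hc, gl_eq hv h0 h1 hi hτ0 hτ1]
  have hpi := abs_le.1 (hp i hi τ hτ0 hτ1)
  have c1 := two_cr v z
  rw [← ha, ← hG, hc] at c1
  have m1 := abs_le.1 (mul_le_abs G (τ + 1) (a + 1) (by rw [abs_le]; omega))
  have c1' : a * (gs z - i * G) = 2 * cr v z + G * (τ + 1) := by
    rw [c1]; ring
  have p1 : 0 ≤ |G| * (a + 1) := by positivity
  have p2 : 0 ≤ a * (2 * B) := by positivity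
  rw [hgl]
  constructor
  · intro h
    have h2 : a * (2 * B) ≤ a * (gs z - i * G) := by
      rw [c1']; linarith [m1.1]
    have h3 := le_of_mul_le_mul_left h2 hv
    linarith [hpi.2]
  · intro h
    have h2 : a * (gs z - i * G) ≤ 2 * |b2| + |G| * (a + 1) := by
      rw [c1']; linarith [m1.2, le_abs_self b2]
    have h3 : gs z - i * G ≤ 2 * |b2| + |G| * (a + 1) := by
      by_contra hcon
      push Not at hcon
      have h4 : 0 ≤ 2 * |b2| + |G| * (a + 1) := by positivity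
      nlinarith
    linarith [hpi.1]

/-- The middle part of the strip. -/
theorem strip_mid {v : Site} (hv : 0 < Ts v) (b : ℤ) (hb : 0 ≤ b) :
    ∃ b3 : ℤ, b ≤ b3 ∧ ∀ b4 : ℤ, b3 ≤ b4 → ∀ k : ℕ, ∀ z : Site, b4 ≤ dt v z →
      dt v z ≤ k * dt v v - b4 → |cr v z| ≤ b → 1 ≤ Ts z ∧ Ts z ≤ 1 + k * Ts v := by
  refine ⟨b + |gs v| * b + 1, by have : 0 ≤ |gs v| * b := by positivity
                                 omega, fun b4 hb4 k z h1 h2 h3 => ?_⟩
  have c1 := two_cr v z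
  have c2 := two_dt v z
  have c3 := two_dt v v
  have key : dt v v * Ts z = Ts v * dt v z - gs v * cr v z := by
    have : 2 * (dt v v * Ts z) = 2 * (Ts v * dt v z - gs v * cr v z) := by
      linear_combination (Ts z) * c3 - (Ts v) * c2 + (gs v) * c1
    linarith
  have m1 := abs_le.1 (mul_le_abs (gs v) (cr v z) b h3)
  have hd : 0 < dt v v := by
    have : 0 < 2 * dt v v := by rw [c3]; nlinarith [sq_nonneg (gs v)]
    linarith
  have p1 : 0 ≤ |gs v| * b := by positivity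
  have h4 : b4 ≤ Ts v * dt v z := by nlinarith
  constructor
  · have h5 : 0 < dt v v * Ts z := by rw [key]; linarith [m1.2]
    have := pos_of_mul_pos_right h5 hd.le
    omega
  · have h5 : dt v v * Ts z ≤ dt v v * (k * Ts v) := by
      rw [key]
      have h6 : Ts v * dt v z ≤ Ts v * (k * dt v v - b4) := mul_le_mul_of_nonneg_left h2 hv.le
      have h7 : b4 ≤ Ts v * b4 := by nlinarith
      have h8 : Ts v * (k * dt v v - b4) = dt v v * (k * Ts v) - Ts v * b4 := by ring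
      linarith [m1.1]
    have := le_of_mul_le_mul_left h5 hd
    linarith

end Pool.Agent.TR90
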