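import Pool.Agent.TR90.MainC

/-!
# TR90, module MainE: strips and the final estimate
-/

open MeasureTheory Filter Topology
open scoped NNReal ENNReal

namespace Pool.Agent.TR90

open Pool.Agent.LT Pool.Agent.WSB71

lemma exists_strip (h : ℤ) (i0 L M : ℕ) {v : Site} (hv : 0 < Ts v)
    (D : List (Option Site × Option Site)) :
    ∃ b1 : ℤ, 0 ≤ b1 ∧ ∀ b2 : ℤ, ∃ B' : ℤ, ∀ I : ℕ, B' ≤ 2 ^ I → ∀ Hs : ℤ, 10 * (L : ℤ) ≤ Hs →
      0 ≤ Hs → ∀ x0 : Site, ∃ b b3 : ℤ, b2 ≤ b3 ∧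
        StripOK h (2 ^ i0) L M I v D x0 Hs b1 b2 b3 b := by
  obtain ⟨b1, hb1, hin⟩ := strip_inner hv (max (10 * (L : ℤ)) (2 ^ i0)) (by positivity)
  refine ⟨b1, hb1, fun b2 => ?_⟩
  obtain ⟨B', hB', hin⟩ := hin b2
  refine ⟨B', fun I hI Hs hHs hHs0 x0 => ?_⟩
  obtain ⟨b, hb, hbd⟩ := strip_bounds hv Hs Hs hHs0 hHs0
  obtain ⟨b3', hb3', hmid⟩ := strip_mid hv (max b b2) (le_trans hb (le_max_left _ _))
  set b3 := b3' + |cr v x0| + |dt v x0| + |cr v (Db D (D.length - 1))| +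
    |dt v (Db D (D.length - 1) - v)| + 1 with hb3
  have p1 := abs_nonneg (cr v x0)
  have p2 := abs_nonneg (dt v x0)
  have p3 := abs_nonneg (cr v (Db D (D.length - 1)))
  have p4 := abs_nonneg (dt v (Db D (D.length - 1) - v))
  have q1 := le_max_left b b2
  have q2 := le_max_right b b2
  refine ⟨b, b3, by linarith, ?_⟩
  refine ⟨?_, ?_, ?_, hb1, by linarith, by linarith, by linarith, by linarith, by linarith⟩
  · intro k ω HR z z1 z2 z3
    exact hbd k HR.hk _ (-(13 * h)) HR.p0 HR.p1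
      (fun i hi τ h0 h1 => (HR.pbd i hi τ h0 h1).trans hHs) z z1 z2 z3
  · intro k ω HR z z1 z2
    obtain ⟨g1, g2⟩ := hin k HR.hk _ (-(13 * h)) HR.p0 HR.p1
      (fun i hi τ h0 h1 => (HR.pbd i hi τ h0 h1).trans (le_max_left _ _)) z z1 z2
    constructor
    · intro hc
      have := g1 hc
      have h5 := le_max_right (10 * (L : ℤ)) (2 ^ i0)
      unfold phi
      linarith
    · intro hc
      have := g2 hc
      unfold phi
      linarith
  · intro k z z1 z2 z3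
    refine hmid b3 (by linarith) k z z1 z2 ?_
    rcases z3 with z3 | z3
    · exact z3.trans q1
    · exact z3.trans q2

lemma num_final {k nm n Cn Cm Qc : ℕ} {β Zr Zf ct T c C qx P : ℝ} (hk : 1 ≤ k) (hβ : 1 ≤ β)
    (hZr : 0 < Zr) (hZf : Zr / 2 ≤ Zf) (hnm : nm + 1 ≤ k * (Cn + 1)) (hn1 : 1 ≤ n)
    (hn : n ≤ k * Cm) (hQc : (Qc : ℝ) ≤ Real.exp qx)
    (hP : 1 / (2 * (n * (16 * (β + 1)))) *
      (Zf ^ k * Real.exp (-(ct + 5)) * Real.exp (-T) * (1 / 4)) ≤ ((Qc ^ k * (nm + 1) : ℕ) : ℝ) * P)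
    (hC : k * (qx + 2 + Real.log 2 - Real.log Zr) + Real.log (Cn + 1) +
      Real.log (Cm * (32 * (β + 1))) + (ct + 5) + T + Real.log 4 ≤ c * k + C) :
    Real.exp (-(c * k + C)) ≤ P := by
  have hk0 : (1 : ℝ) ≤ k := by exact_mod_cast hk
  have hn0 : (1 : ℝ) ≤ n := by exact_mod_cast hn1
  have hCm : 1 ≤ Cm := by
    rcases Nat.eq_zero_or_pos Cm with h | h
    · rw [h] at hn; omega
    · exact h
  have hCm0 : (1 : ℝ) ≤ Cm := by exact_mod_cast hCm
  have hek : (k : ℝ) ≤ Real.exp k := by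
    have := Real.add_one_le_exp (k : ℝ)
    linarith
  have hZf0 : 0 < Zf := by linarith
  -- bounds
  have e1 : ((Qc ^ k * (nm + 1) : ℕ) : ℝ)
      ≤ Real.exp (k * qx + k + Real.log (Cn + 1)) := by
    have hcn : (0 : ℝ) < (Cn : ℝ) + 1 := by positivity
    rw [Real.exp_add, Real.exp_add, Real.exp_log hcn, mul_assoc]
    push_cast
    apply mul_le_mul
    · rw [Real.exp_nat_mul]
      gcongr
    · have h1 : ((nm + 1 : ℕ) : ℝ) ≤ (k * (Cn + 1) : ℕ) := by exact_mod_cast hnm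
      push_cast at h1
      refine h1.trans ?_
      gcongr
    · positivity
    · positivity
  have e2 : Real.exp (-(k + Real.log (Cm * (32 * (β + 1))))) ≤ 1 / (2 * (n * (16 * (β + 1)))) := by
    rw [Real.exp_neg, ← one_div]
    apply one_div_le_one_div_of_le (by positivity)
    rw [Real.exp_add, Real.exp_log (by positivity)]
    have h1 : (n : ℝ) ≤ k * Cm := by exact_mod_cast hn
    calc 2 * (n * (16 * (β + 1))) = n * (32 * (β + 1)) := by ring
      _ ≤ (k * Cm) * (32 * (β + 1)) := by gcongr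
      _ = k * (Cm * (32 * (β + 1))) := by ring
      _ ≤ Real.exp k * (Cm * (32 * (β + 1))) := by gcongr
  have e3 : Real.exp (k * (Real.log Zr - Real.log 2)) ≤ Zf ^ k := by
    rw [← Real.log_div hZr.ne' (by norm_num), Real.exp_nat_mul, Real.exp_log (by positivity)]
    gcongr
  have e4 : Real.exp (-Real.log 4) = 1 / 4 := by
    rw [Real.exp_neg, Real.exp_log (by norm_num)]
    norm_num
  have hmain : Real.exp (-(c * k + C)) * ((Qc ^ k * (nm + 1) : ℕ) : ℝ)
      ≤ ((Qc ^ k * (nm + 1) : ℕ) : ℝ) * P := by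
    refine le_trans ?_ hP
    calc Real.exp (-(c * k + C)) * ((Qc ^ k * (nm + 1) : ℕ) : ℝ)
        ≤ Real.exp (-(c * k + C)) * Real.exp (k * qx + k + Real.log (Cn + 1)) := by gcongr
      _ = Real.exp (-(c * k + C) + (k * qx + k + Real.log (Cn + 1))) := (Real.exp_add _ _).symm
      _ ≤ Real.exp (-(k + Real.log (Cm * (32 * (β + 1)))) + (k * (Real.log Zr - Real.log 2)
            + -(ct + 5) + -T + -Real.log 4)) := by
          apply Real.exp_le_exp.2
          linarith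
      _ = Real.exp (-(k + Real.log (Cm * (32 * (β + 1))))) *
            (Real.exp (k * (Real.log Zr - Real.log 2)) * Real.exp (-(ct + 5)) * Real.exp (-T)
              * Real.exp (-Real.log 4)) := by
          rw [← Real.exp_add, ← Real.exp_add, ← Real.exp_add, ← Real.exp_add]
      _ ≤ _ := by
          rw [e4]
          gcongr
  have hpos : 0 < ((Qc ^ k * (nm + 1) : ℕ) : ℝ) := by
    have h1 : (0 : ℝ) ≤ ((Qc ^ k * (nm + 1) : ℕ) : ℝ) := Nat.cast_nonneg _
    rcases h1.lt_or_eq with h2 | h2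
    · exact h2
    · exfalso
      rw [← h2, zero_mul] at hP
      have h3 : 0 < 1 / (2 * (n * (16 * (β + 1)))) *
          (Zf ^ k * Real.exp (-(ct + 5)) * Real.exp (-T) * (1 / 4)) := by positivity
      linarith
  rw [mul_comm] at hmain
  exact le_of_mul_le_mul_left hmain hpos

/-- A finite part of the tile sum. -/
lemma finite_part {β : ℝ} {h s₀ : ℤ} {L M : ℕ} {v : Site} {D : List (Option Site × Option Site)}
    (hZ : ZT β 0 h s₀ L M v D ≠ 0) (hZt : ZT β 0 h s₀ L M v D ≠ ⊤) :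
    ∃ F0 : Finset (List Site × List (List Site)), (∀ q ∈ F0, Tile h s₀ L M v D q) ∧
      F0.Nonempty ∧ (ZT β 0 h s₀ L M v D).toReal / 2 ≤
        (∑ q ∈ F0, Wg β 0 (Cz q.1 h) (visits q.2)).toReal ∧
      ∑ q ∈ F0, Wg β 0 (Cz q.1 h) (visits q.2) ≠ ⊤ := by
  classical
  have h1 : ZT β 0 h s₀ L M v D / 2 < ZT β 0 h s₀ L M v D := ENNReal.half_lt_self hZ hZt
  have h2 : ZT β 0 h s₀ L M v D = ⨆ s : Finset {q // Tile h s₀ L M v D q},
      ∑ q ∈ s, Wg β 0 (Cz q.1.1 h) (visits q.1.2) := by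
    conv_lhs => unfold ZT
    exact ENNReal.tsum_eq_iSup_sum
  obtain ⟨s, hs⟩ := lt_iSup_iff.1 (h1.trans_eq h2)
  have h3 : ∑ q ∈ s.map (Function.Embedding.subtype _), Wg β 0 (Cz q.1 h) (visits q.2)
      = ∑ q ∈ s, Wg β 0 (Cz q.1.1 h) (visits q.1.2) := by
    rw [Finset.sum_map]
    rfl
  have h4 : ∑ q ∈ s, Wg β 0 (Cz q.1.1 h) (visits q.1.2) ≤ ZT β 0 h s₀ L M v D := by
    rw [h2]
    exact le_iSup (fun s : Finset {q // Tile h s₀ L M v D q} =>
      ∑ q ∈ s, Wg β 0 (Cz q.1.1 h) (visits q.1.2)) s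
  have h5 : ∑ q ∈ s, Wg β 0 (Cz q.1.1 h) (visits q.1.2) ≠ ⊤ := ne_top_of_le_ne_top hZt h4
  refine ⟨s.map (Function.Embedding.subtype _), ?_, ?_, ?_, ?_⟩
  · intro q hq
    obtain ⟨q', -, rfl⟩ := Finset.mem_map.1 hq
    exact q'.2
  · rw [Finset.map_nonempty]
    rw [Finset.nonempty_iff_ne_empty]
    rintro rfl
    rw [Finset.sum_empty] at hs
    exact absurd hs (not_lt.2 zero_le)
  · rw [h3]
    have h6 := (ENNReal.toReal_le_toReal (ne_top_of_lt hs) h5).2 hs.le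
    rw [ENNReal.toReal_div] at h6
    exact h6
  · rw [h3]
    exact h5

lemma exists_len (F0 : Finset (List Site × List (List Site))) :
    ∃ N : ℕ, ∀ q ∈ F0, ∀ e ∈ q.2, e.length ≤ N := by
  classical
  have h1 : ∀ E : List (List Site), ∃ N : ℕ, ∀ e ∈ E, e.length ≤ N := by
    intro E
    induction E with
    | nil => exact ⟨0, by simp⟩
    | cons e E ih =>
      obtain ⟨N, hN⟩ := ih
      refine ⟨max e.length N, ?_⟩
      intro e' he'
      rcases List.mem_cons.1 he' with rfl | h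
      · exact le_max_left _ _
      · exact (hN e' h).trans (le_max_right _ _)
  choose N hN using h1
  refine ⟨F0.sup (fun q => N q.2), fun q hq e he => ?_⟩
  exact (hN q.2 e he).trans (Finset.le_sup (f := fun q => N q.2) hq)

end Pool.Agent.TR90
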