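import Pool.Agent.LB24.Box
import Pool.Agent.TR90.Defs

/-!
# TR90, module Tour: covering the domain above a 2-Lipschitz function

`δ x = gs x - φ (Ts x)`.  For `d = 2^i + κ μ`, `μ = 2^i / 64`, `0 ≤ κ < 64` (and `i = I`, `κ = 0`), the row `d`: centres
`c_j = pt (T0 + j μ) (φ (T0 + j μ) + d)`, `j = 0, ..., n`, `n = ⌈W / μ⌉`, boxes `bx c_j (8 μ)` (`8 μ ≤ d / 8`): all sites of the box have
`δ ≥ d - 1 - 6 * 8 μ ≥ 2`; the next centre is in the box; `bx c_j (4 μ)` contains all `x` with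
`T0 + j μ ≤ Ts x ≤ T0 + (j+1) μ`, `d ≤ δ x ≤ d + μ`.  So by `LB24.cov_bx` (cost `C β √μ` per box) the row is a
walk `c_0 → c_n → c_0` of cost `C β (W/μ + 2) √μ`, and `c_0` of the next row is in the first box.
Sum over `κ` and over `i ≥ i0`: `C β W / √(2^i0) + C'`.
Layer: in the row `i = i0, κ = 0` (at least once), from `c_j` visit each `y ∈ Y` with `T0 + j μ ≤ Ts y ≤ T0 + (j+1) μ` one
after the other: go inside the box `bx c_j (8 μ)` to a site above `y` (`covAt_travel`), go down to `y` along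
the staircase (`covAt_step`, cost 4 per step, at most `2^i0 + 4` steps, the staircase is in `UU φ`),
stay for the time `β` (`covAt_hold`, cost `4 β`), and return.
-/

open MeasureTheory Filter Topology
open scoped NNReal ENNReal

namespace Pool.Agent.TR90.TourAux

open Pool.Agent.LT Pool.Agent.LB24
open Pool.Agent.WSB71

/-! ### Abstract passes -/

lemma cov_cast {A R R' : Finset Site} {β τ τ' c c' : ℝ} {x y : Site} (h : Cov A R β τ x y c)
    (hR : R' ⊆ R) (hτ : τ ≤ τ') (hc : c ≤ c') : Cov A R' β τ' x y c' :=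
  h.mono (le_refl _) hR le_rfl hτ hc

/-- Visit a finite set by detours. -/
lemma detours {A : Finset Site} {β t E : ℝ} {c : Site} (hc : c ∈ A) (Y : Finset Site)
    (hY : ∀ y ∈ Y, Cov A {y} β t c c E) :
    Cov A Y β (Y.card * t) c c (Y.card * E) := by
  induction Y using Finset.induction_on with
  | empty =>
    exact cov_cast (cov_refl hc β) (le_refl _) (by simp) (by simp)
  | insert z Y hz ih =>
    have h1 := (hY z (Finset.mem_insert_self _ _)).comp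
      (ih (fun y hy => hY y (Finset.mem_insert_of_mem hy)))
    refine cov_cast h1 ?_ ?_ ?_
    · rw [Finset.insert_eq]
    · rw [Finset.card_insert_of_notMem hz]; push_cast; linarith
    · rw [Finset.card_insert_of_notMem hz]; push_cast; linarith

/-- Forward pass. -/
lemma pass_fwd {A : Finset Site} {β τ e t E : ℝ} {c : ℕ → Site} (B Y : ℕ → Finset Site) (n : ℕ)
    (hc : ∀ j, j ≤ n → c j ∈ A) (h1 : ∀ j < n, Cov A (B j) β τ (c j) (c (j + 1)) e)
    (hY : ∀ j < n, ∀ y ∈ Y j, Cov A {y} β t (c j) (c j) E) :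
    Cov A ((Finset.range n).biUnion (fun j => B j ∪ Y j)) β
      (n * τ + (∑ j ∈ Finset.range n, ((Y j).card : ℝ)) * t) (c 0) (c n)
      (n * e + (∑ j ∈ Finset.range n, ((Y j).card : ℝ)) * E) := by
  induction n with
  | zero =>
    exact cov_cast (cov_refl (hc 0 le_rfl) β) (by simp) (by simp) (by simp)
  | succ n ih =>
    have h2 := ih (fun j hj => hc j (by omega)) (fun j hj => h1 j (by omega))
      (fun j hj => hY j (by omega))
    have h3 := detours (hc n (by omega)) (Y n) (hY n (by omega))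
    have h4 := (h2.comp h3).comp (h1 n (by omega))
    refine cov_cast h4 ?_ ?_ ?_
    · rw [Finset.range_add_one, Finset.biUnion_insert]
      intro z hz
      simp only [Finset.mem_union] at hz ⊢
      tauto
    · rw [Finset.sum_range_succ]; push_cast; linarith
    · rw [Finset.sum_range_succ]; push_cast; linarith

/-- Return pass. -/
lemma pass_back {A : Finset Site} {β τ e : ℝ} {c : ℕ → Site} (n : ℕ)
    (hc : ∀ j, j ≤ n → c j ∈ A) (h1 : ∀ j < n, Cov A ∅ β τ (c (j + 1)) (c j) e) :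
    Cov A ∅ β (n * τ) (c n) (c 0) (n * e) := by
  induction n with
  | zero =>
    exact cov_cast (cov_refl (hc 0 le_rfl) β) (by simp) (by simp) (by simp)
  | succ n ih =>
    have h2 := ih (fun j hj => hc j (by omega)) (fun j hj => h1 j (by omega))
    have h3 := (h1 n (by omega)).comp h2
    refine cov_cast h3 (by simp) ?_ ?_
    · push_cast; linarith
    · push_cast; linarith

/-! ### Geometry -/

lemma lip2_abs {φ : ℤ → ℤ} (h : Lip2 φ) (a b : ℤ) : |φ a - φ b| ≤ 2 * |a - b| := by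
  have key : ∀ (n : ℕ) (a : ℤ), |φ (a + n) - φ a| ≤ 2 * n := by
    intro n
    induction n with
    | zero => intro a; simp
    | succ n ih =>
      intro a
      have h1 := ih a
      have h2 := h (a + n)
      push_cast
      rw [← add_assoc]
      rw [abs_le] at *
      omega
  rcases le_total a b with hab | hab
  · have h1 := key (b - a).toNat a
    have h2 : ((b - a).toNat : ℤ) = b - a := Int.toNat_of_nonneg (by omega)
    rw [h2, add_sub_cancel] at h1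
    rw [abs_sub_comm, abs_sub_comm a b, abs_of_nonneg (by omega : 0 ≤ b - a)]
    exact h1
  · have h1 := key (a - b).toNat b
    have h2 : ((a - b).toNat : ℤ) = a - b := Int.toNat_of_nonneg (by omega)
    rw [h2, add_sub_cancel] at h1
    rw [abs_of_nonneg (by omega : 0 ≤ a - b)]
    exact h1

lemma pt_Ts_gs (x : Site) : pt (Ts x) (gs x) = x := by
  unfold pt Ts gs
  ext
  · simp only; omega
  · simp only; omega

/-- The ambient set. -/
lemma exists_amb {φ : ℤ → ℤ} (h : Lip2 φ) (T0 T1 : ℤ) (H : ℕ) : ∃ A : Finset Site,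
    ∀ x, x ∈ A ↔ UU φ x ∧ T0 ≤ Ts x ∧ Ts x ≤ T1 ∧ gs x ≤ φ (Ts x) + H := by
  have hfin : {x : Site | UU φ x ∧ T0 ≤ Ts x ∧ Ts x ≤ T1 ∧ gs x ≤ φ (Ts x) + H}.Finite := by
    apply Set.Finite.subset (((Finset.Icc T0 T1).biUnion (fun T =>
      (Finset.Icc (φ T - 10) (φ T + H)).image (fun g => pt T g))).finite_toSet)
    rintro x ⟨h1, h2, h3, h4⟩
    rw [Finset.mem_coe, Finset.mem_biUnion]
    refine ⟨Ts x, Finset.mem_Icc.2 ⟨h2, h3⟩, Finset.mem_image.2 ⟨gs x, ?_, pt_Ts_gs x⟩⟩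
    rw [Finset.mem_Icc]
    refine ⟨?_, h4⟩
    unfold UU at h1
    have h5 := h (Ts x - 1)
    rw [sub_add_cancel, abs_le] at h5
    omega
  exact ⟨hfin.toFinset, fun x => by rw [Set.Finite.mem_toFinset]; rfl⟩

lemma Ts_add (x y : Site) : Ts (x + y) = Ts x + Ts y := by
  unfold Ts
  rw [Prod.fst_add, Prod.snd_add]
  ring

lemma gs_add (x y : Site) : gs (x + y) = gs x + gs y := by
  unfold gs
  rw [Prod.fst_add, Prod.snd_add]
  ring

lemma mem_bx_Ts {c z : Site} {h : ℕ} (hz : z ∈ bx c h) :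
    |Ts z - Ts c| ≤ 2 * h ∧ |gs z - gs c| ≤ 2 * h := by
  rw [mem_bx, abs_le, abs_le] at hz
  unfold Ts gs
  rw [abs_le, abs_le]
  omega

lemma bx_of_Ts {c z : Site} {h : ℕ} (hz : |Ts z - Ts c| + |gs z - gs c| ≤ 2 * h) : z ∈ bx c h := by
  rw [mem_bx]
  unfold Ts gs at hz
  rw [abs_le, abs_le]
  have h1 := le_abs_self (z.1 + z.2 - (c.1 + c.2))
  have h2 := neg_abs_le (z.1 + z.2 - (c.1 + c.2))
  have h3 := le_abs_self (z.1 - z.2 - (c.1 - c.2))
  have h4 := neg_abs_le (z.1 - z.2 - (c.1 - c.2))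
  omega


lemma UU_up {φ : ℤ → ℤ} {y : Site} (hU : UU φ y) {k : ℤ} (hk : 0 ≤ k) : UU φ (y + (k, -k)) := by
  have h1 : Ts (y + (k, -k)) = Ts y := by rw [Ts_add]; unfold Ts; simp
  have h2 : gs (y + (k, -k)) = gs y + 2 * k := by rw [gs_add]; unfold gs; simp; ring
  unfold UU at hU ⊢
  rw [h1, h2]
  omega

/-- One double step of the staircase. -/
lemma stair_one {φ : ℤ → ℤ} {A : Finset Site} {y : Site} (β : ℝ) (hU : UU φ y)
    (hA : ∀ z, UU φ z → |Ts z - Ts y| ≤ 1 → gs z ≤ gs y + 2 → z ∈ A) :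
    Cov A ∅ β 2 y (y + (1, -1)) 8 ∧ Cov A ∅ β 2 (y + (1, -1)) y 8 := by
  have hy : y ∈ A := hA y hU (by simp) (by omega)
  have hy2 : y + (1, -1) ∈ A := by
    apply hA _ (UU_up hU (by norm_num))
    · rw [Ts_add]; unfold Ts; simp
    · rw [gs_add]; unfold gs; simp
  obtain ⟨w, hw, hw1, hw2⟩ : ∃ w ∈ A, Adj y w ∧ Adj w (y + (1, -1)) := by
    rcases hU with h | h
    · refine ⟨y + (1, 0), ?_, ?_, ?_⟩
      · apply hA
        · right
          rw [Ts_add, gs_add]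
          unfold Ts gs at *
          simp only at *
          rw [show y.1 + y.2 + (1 + 0) - 1 = y.1 + y.2 by ring]
          omega
        · rw [Ts_add]; unfold Ts; simp
        · rw [gs_add]; unfold gs; simp
      · unfold Adj
        rw [add_sub_cancel_left]
        decide
      · unfold Adj
        rw [add_sub_add_left_eq_sub]
        decide
    · refine ⟨y + (0, -1), ?_, ?_, ?_⟩
      · apply hA
        · left
          rw [Ts_add, gs_add]
          unfold Ts gs at *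
          simp only at *
          rw [show y.1 + y.2 + (0 + -1) = y.1 + y.2 - 1 by ring]
          omega
        · rw [Ts_add]; unfold Ts; simp
        · rw [gs_add]; unfold gs; simp
      · unfold Adj
        rw [add_sub_cancel_left]
        decide
      · unfold Adj
        rw [add_sub_add_left_eq_sub]
        decide
  have s : ∀ {a b : Site}, a ∈ A → b ∈ A → Adj a b → Cov A ∅ β 1 a b 4 := by
    intro a b ha hb hab
    exact ⟨1, by simp, covAt_step ha hb hab β⟩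
  constructor
  · have := (s hy hw hw1).comp (s hw hy2 hw2)
    exact cov_cast this (by simp) (by norm_num) (by norm_num)
  · have := (s hy2 hw hw2.symm).comp (s hw hy hw1.symm)
    exact cov_cast this (by simp) (by norm_num) (by norm_num)

lemma stair {φ : ℤ → ℤ} {A : Finset Site} {y : Site} (β : ℝ) (hU : UU φ y) (k : ℕ)
    (hA : ∀ z, UU φ z → |Ts z - Ts y| ≤ 1 → gs z ≤ gs y + 2 * k → z ∈ A) :
    Cov A ∅ β (2 * k) y (y + ((k : ℤ), -(k : ℤ))) (8 * k) ∧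
      Cov A ∅ β (2 * k) (y + ((k : ℤ), -(k : ℤ))) y (8 * k) := by
  induction k with
  | zero =>
    have hy : y ∈ A := hA y hU (by simp) (by simp)
    have e : y + (((0 : ℕ) : ℤ), -((0 : ℕ) : ℤ)) = y := by
      ext <;> simp
    rw [e]
    have h := cov_refl hy β
    exact ⟨cov_cast h (le_refl _) (by simp) (by simp), cov_cast h (le_refl _) (by simp) (by simp)⟩
  | succ k ih =>
    obtain ⟨h1, h2⟩ := ih (fun z h1 h2 h3 => hA z h1 h2 (by push_cast; omega))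
    have hU' := UU_up hU (k := (k : ℤ)) (by positivity)
    have hT : Ts (y + ((k : ℤ), -(k : ℤ))) = Ts y := by rw [Ts_add]; unfold Ts; simp
    have hg : gs (y + ((k : ℤ), -(k : ℤ))) = gs y + 2 * k := by
      rw [gs_add]; unfold gs; simp; ring
    obtain ⟨h3, h4⟩ := stair_one (A := A) β hU' (fun z h1 h2 h3 => hA z h1 (by rwa [hT] at h2)
      (by rw [hg] at h3; push_cast; omega))
    have e : y + ((k : ℤ), -(k : ℤ)) + (1, -1) = y + (((k + 1 : ℕ) : ℤ), -((k + 1 : ℕ) : ℤ)) := by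
      rw [add_assoc]
      congr 1
      ext
      · simp
      · simp; ring
    rw [e] at h3 h4
    constructor
    · have := h1.comp h3
      exact cov_cast this (by simp) (by push_cast; linarith) (by push_cast; linarith)
    · have := h4.comp h2
      exact cov_cast this (by simp) (by push_cast; linarith) (by push_cast; linarith)

/-- The boxes are in the domain. -/
lemma box_dom {φ : ℤ → ℤ} (hφ : Lip2 φ) {T d : ℤ} {m : ℕ} (hm : 1 ≤ m) (h1 : 64 * (m : ℤ) ≤ d)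
    (h2 : d ≤ 128 * m) {z : Site} (hz : z ∈ bx (pt T (φ T + d)) (8 * m)) :
    UU φ z ∧ T - 16 * m ≤ Ts z ∧ Ts z ≤ T + 16 * m ∧ gs z ≤ φ (Ts z) + 256 * m := by
  obtain ⟨h3, h4⟩ := mem_bx_Ts hz
  obtain ⟨h5, h6⟩ := gs_pt T (φ T + d)
  rw [Ts_pt] at h3
  have h7 := lip2_abs hφ (Ts z) T
  push_cast at h3 h4
  have h8 : |φ (Ts z) - φ T| ≤ 32 * m := by linarith
  rw [abs_le] at h3 h4 h8
  refine ⟨?_, by omega, by omega, by omega⟩
  left
  rw [mem_bx] at hz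
  -- |ΔT| + |Δg| ≤ 16 m
  have h9 : |Ts z - T| + |gs z - gs (pt T (φ T + d))| ≤ 16 * m := by
    have h10 := hz.1
    have h11 := hz.2
    have e1 : Ts z - T = (z.1 - (pt T (φ T + d)).1) + (z.2 - (pt T (φ T + d)).2) := by
      have := Ts_pt T (φ T + d)
      unfold Ts at this ⊢
      omega
    have e2 : gs z - gs (pt T (φ T + d)) =
        (z.1 - (pt T (φ T + d)).1) - (z.2 - (pt T (φ T + d)).2) := by
      unfold gs
      ring
    rw [e1, e2]
    push_cast at h10 h11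
    generalize z.1 - (pt T (φ T + d)).1 = a at *
    generalize z.2 - (pt T (φ T + d)).2 = b at *
    rw [abs_le] at h10 h11
    rcases abs_cases (a + b) with h | h <;> rcases abs_cases (a - b) with h' | h' <;> omega
  have h12 := neg_abs_le (gs z - gs (pt T (φ T + d)))
  have h13 := le_abs_self (φ (Ts z) - φ T)
  have h14 := abs_nonneg (Ts z - T)
  have h15 := abs_nonneg (gs z - gs (pt T (φ T + d)))
  omega

lemma pt_mem_bx {φ : ℤ → ℤ} (hφ : Lip2 φ) {T T' d d' : ℤ} {m : ℕ} (hm : 1 ≤ m)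
    (h1 : |T' - T| ≤ m) (h2 : |d' - d| ≤ m) :
    pt T' (φ T' + d') ∈ bx (pt T (φ T + d)) (8 * m) := by
  apply bx_of_Ts
  obtain ⟨h5, h6⟩ := gs_pt T (φ T + d)
  obtain ⟨h5', h6'⟩ := gs_pt T' (φ T' + d')
  rw [Ts_pt, Ts_pt]
  have h7 := lip2_abs hφ T' T
  have h8 : |φ T' - φ T| ≤ 2 * m := by linarith
  rw [abs_le] at h8 h2
  have h9 : |gs (pt T' (φ T' + d')) - gs (pt T (φ T + d))| ≤ 4 * m := by
    rw [abs_le]; omega
  push_cast
  linarith

lemma self_mem_bx (c : Site) (h : ℕ) : c ∈ bx c h := by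
  rw [mem_bx]; simp

/-- The sites of the cell are in the inner box. -/
lemma cell_mem {φ : ℤ → ℤ} (hφ : Lip2 φ) {T d : ℤ} {m : ℕ} (hm : 1 ≤ m) {x : Site}
    (h1 : T ≤ Ts x) (h2 : Ts x ≤ T + m) (h3 : φ (Ts x) + d ≤ gs x)
    (h4 : gs x ≤ φ (Ts x) + d + m) : x ∈ bx (pt T (φ T + d)) (4 * m) := by
  apply bx_of_Ts
  obtain ⟨h5, h6⟩ := gs_pt T (φ T + d)
  rw [Ts_pt]
  have h7 := lip2_abs hφ (Ts x) T
  have h7' : |Ts x - T| ≤ m := by rw [abs_le]; omega
  have h8 : |φ (Ts x) - φ T| ≤ 2 * m := by linarith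
  rw [abs_le] at h8
  have h9 : |gs x - gs (pt T (φ T + d))| ≤ 4 * m := by
    rw [abs_le]; omega
  push_cast
  linarith

/-- A detour to one site of the layer. -/
lemma detour {φ : ℤ → ℤ} (hφ : Lip2 φ) {A : Finset Site} {T d : ℤ} {m : ℕ} (hm : 1 ≤ m)
    (h1 : 64 * (m : ℤ) ≤ d) (h2 : d ≤ 128 * m)
    (hA : ∀ z, UU φ z → T - 16 * m ≤ Ts z → Ts z ≤ T + 16 * m → gs z ≤ φ (Ts z) + 256 * m →
      z ∈ A) {y : Site} (hy : UU φ y) (hy1 : T ≤ Ts y) (hy2 : Ts y ≤ T + m)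
    (hy3 : gs y < φ (Ts y) + d) {β : ℝ} (hβ : 0 ≤ β) :
    Cov A {y} β (β + 3 * d) (pt T (φ T + d)) (pt T (φ T + d)) (4 * β + 9 * d) := by
  obtain ⟨k, hk⟩ : ∃ k : ℕ, (k : ℤ) = (φ (Ts y) + d - gs y + 1) / 2 :=
    ⟨((φ (Ts y) + d - gs y + 1) / 2).toNat, Int.toNat_of_nonneg (by omega)⟩
  have hlow : φ (Ts y) + 1 ≤ gs y := by
    unfold UU at hy
    have h5 := hφ (Ts y - 1)
    rw [sub_add_cancel, abs_le] at h5
    omega
  have hkd : 2 * (k : ℤ) ≤ d := by omega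
  have hkd' : 2 * (k : ℝ) ≤ d := by exact_mod_cast hkd
  have hmd : 64 * (m : ℝ) ≤ d := by exact_mod_cast h1
  set z : Site := y + ((k : ℤ), -(k : ℤ)) with hz
  have hTz : Ts z = Ts y := by rw [hz, Ts_add]; unfold Ts; simp
  have hgz : gs z = gs y + 2 * k := by rw [hz, gs_add]; unfold gs; simp; ring
  have hyA : ∀ w, UU φ w → |Ts w - Ts y| ≤ 1 → gs w ≤ gs y + 2 * k → w ∈ A := by
    intro w hw1 hw2 hw3
    have h7 := lip2_abs hφ (Ts w) (Ts y)
    have h8 : |φ (Ts w) - φ (Ts y)| ≤ 2 := by linarith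
    rw [abs_le] at hw2 h8
    apply hA w hw1 <;> omega
  have hzm : z ∈ bx (pt T (φ T + d)) (4 * m) := by
    apply cell_mem hφ hm <;> rw [hTz] <;> omega
  have hzm' : z ∈ bx (pt T (φ T + d)) (8 * m) := by
    rw [mem_bx] at hzm ⊢
    push_cast at hzm ⊢
    constructor
    · have := hzm.1; omega
    · have := hzm.2; omega
  have hbA : bx (pt T (φ T + d)) (8 * m) ⊆ A := by
    intro w hw
    obtain ⟨a1, a2, a3, a4⟩ := box_dom hφ hm h1 h2 hw
    exact hA w a1 a2 a3 a4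
  obtain ⟨s1, s2⟩ := stair β hy k hyA
  rw [← hz] at s1 s2
  have hyA' : y ∈ A := hyA y hy (by simp) (by omega)
  have hold : Cov A {y} β β y y (4 * β) := by
    refine ⟨β.toNNReal, ?_, ?_⟩
    · rw [Real.coe_toNNReal _ hβ]
    · have := covAt_hold hyA' (β := β) (s := β.toNNReal) (by rw [Real.coe_toNNReal _ hβ])
      rwa [Real.coe_toNNReal _ hβ] at this
  have hin : ∀ {w : Site}, w ∈ bx (pt T (φ T + d)) (8 * m) → InBox
      ((pt T (φ T + d)).1 - ((8 * m : ℕ) : ℤ) - 1) ((pt T (φ T + d)).2 - ((8 * m : ℕ) : ℤ) - 1)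
      (2 * (8 * m) + 1) (2 * (8 * m) + 1) w := by
    intro w hw
    rw [bx_eq_boxF, mem_boxF] at hw
    exact hw
  have hD : |z.1 - (pt T (φ T + d)).1| + |z.2 - (pt T (φ T + d)).2| ≤ ((8 * m : ℕ) : ℤ) := by
    rw [mem_bx] at hzm
    push_cast at hzm ⊢
    linarith [hzm.1, hzm.2]
  have hD' : |(pt T (φ T + d)).1 - z.1| + |(pt T (φ T + d)).2 - z.2| ≤ ((8 * m : ℕ) : ℤ) := by
    rw [abs_sub_comm, abs_sub_comm (pt T (φ T + d)).2]
    exact hD
  have t1 : Cov A ∅ β (8 * m) (pt T (φ T + d)) z (32 * m) := by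
    refine Cov.mono (A := bx (pt T (φ T + d)) (8 * m)) (R := ∅) (β := β)
      (τ := ((8 * m : ℕ) : ℝ)) (c := 4 * ((8 * m : ℕ) : ℝ)) ?_ hbA (le_refl _) le_rfl
      (by push_cast; linarith) (by push_cast; linarith)
    refine ⟨((8 * m : ℕ) : ℝ≥0), by push_cast; simp, ?_⟩
    rw [bx_eq_boxF]
    exact covAt_travel β (8 * m) (hin (self_mem_bx _ _)) (hin hzm') hD'
  have t2 : Cov A ∅ β (8 * m) z (pt T (φ T + d)) (32 * m) := by
    refine Cov.mono (A := bx (pt T (φ T + d)) (8 * m)) (R := ∅) (β := β)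
      (τ := ((8 * m : ℕ) : ℝ)) (c := 4 * ((8 * m : ℕ) : ℝ)) ?_ hbA (le_refl _) le_rfl
      (by push_cast; linarith) (by push_cast; linarith)
    refine ⟨((8 * m : ℕ) : ℝ≥0), by push_cast; simp, ?_⟩
    rw [bx_eq_boxF]
    exact covAt_travel β (8 * m) (hin hzm') (hin (self_mem_bx _ _)) hD
  have h := (((t1.comp s2).comp hold).comp s1).comp t2
  refine cov_cast h ?_ ?_ ?_
  · intro w hw
    simp only [Finset.mem_union]
    tauto
  · linarith
  · linarith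


/-- One row. -/
lemma row_cov {C1 : ℝ} (hbx : ∀ β : ℝ, 1 ≤ β → ∀ h : ℕ, 1 ≤ h → ∀ p x y : Site,
    x ∈ bx p h → y ∈ bx p h →
    Cov (bx p h) (bx p (h / 2)) β (C1 * β * ((h : ℝ) ^ 2 * Real.sqrt h)) x y
      (C1 * β * Real.sqrt h)) {φ : ℤ → ℤ} (hφ : Lip2 φ) {β t E : ℝ} (hβ : 1 ≤ β)
    {d : ℤ} {m : ℕ} (hm : 1 ≤ m) (h1 : 64 * (m : ℤ) ≤ d) (h2 : d ≤ 128 * m) {T0 : ℤ} {W : ℕ}
    {A : Finset Site} (hA : ∀ z, UU φ z → T0 - 16 * m ≤ Ts z → Ts z ≤ T0 + W + 17 * m →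
      gs z ≤ φ (Ts z) + 256 * m → z ∈ A) {Y : Finset Site}
    (hY1 : ∀ y ∈ Y, T0 ≤ Ts y ∧ Ts y ≤ T0 + W)
    (hY : ∀ y ∈ Y, ∀ T : ℤ, T0 ≤ T → T ≤ T0 + W → T ≤ Ts y → Ts y ≤ T + m →
      Cov A {y} β t (pt T (φ T + d)) (pt T (φ T + d)) E)
    {R : Finset Site} (hR : ∀ x ∈ R, (T0 ≤ Ts x ∧ Ts x ≤ T0 + W ∧ φ (Ts x) + d ≤ gs x ∧
      gs x ≤ φ (Ts x) + d + m) ∨ x ∈ Y) :
    Cov A R β (2 * ((W / m + 1 : ℕ) : ℝ) *
        (C1 * β * (((8 * m : ℕ) : ℝ) ^ 2 * Real.sqrt ((8 * m : ℕ) : ℝ))) + Y.card * t)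
      (pt T0 (φ T0 + d)) (pt T0 (φ T0 + d))
      (2 * ((W / m + 1 : ℕ) : ℝ) * (C1 * β * Real.sqrt ((8 * m : ℕ) : ℝ)) + Y.card * E) := by
  obtain ⟨n, hn⟩ : ∃ n : ℕ, n = W / m + 1 := ⟨_, rfl⟩
  rw [← hn]
  have hm0 : 0 < m := hm
  have hdiv : ∀ j < n, j * m ≤ W := by
    intro j hj
    have h3 : j ≤ W / m := by omega
    exact (Nat.mul_le_mul_right m h3).trans (Nat.div_mul_le_self W m)
  have hdivn : n * m ≤ W + m := by
    rw [hn, add_mul, one_mul]
    have := Nat.div_mul_le_self W m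
    omega
  obtain ⟨c, hc⟩ : ∃ c : ℕ → Site, ∀ j : ℕ, c j = pt (T0 + j * m) (φ (T0 + j * m) + d) :=
    ⟨_, fun _ => rfl⟩
  have hc0 : c 0 = pt T0 (φ T0 + d) := by
    rw [hc]
    simp
  have hboxA : ∀ j, j ≤ n → bx (c j) (8 * m) ⊆ A := by
    intro j hj w hw
    rw [hc] at hw
    obtain ⟨a1, a2, a3, a4⟩ := box_dom hφ hm h1 h2 hw
    have h3 : j * m ≤ W + m := (Nat.mul_le_mul_right m hj).trans hdivn
    have h3' : (j : ℤ) * m ≤ W + m := by exact_mod_cast h3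
    have h4 : (0 : ℤ) ≤ (j : ℤ) * m := by positivity
    exact hA w a1 (by linarith) (by linarith) a4
  have hcA : ∀ j, j ≤ n → c j ∈ A := fun j hj => hboxA j hj (self_mem_bx _ _)
  have hnext : ∀ j, c (j + 1) ∈ bx (c j) (8 * m) := by
    intro j
    rw [hc, hc]
    apply pt_mem_bx hφ hm
    · push_cast
      rw [show T0 + ((j : ℤ) + 1) * m - (T0 + j * m) = m by ring]
      simp
    · simp
  obtain ⟨τ, hτ⟩ : ∃ τ : ℝ, τ = C1 * β * (((8 * m : ℕ) : ℝ) ^ 2 * Real.sqrt ((8 * m : ℕ) : ℝ)) :=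
    ⟨_, rfl⟩
  obtain ⟨e, he⟩ : ∃ e : ℝ, e = C1 * β * Real.sqrt ((8 * m : ℕ) : ℝ) := ⟨_, rfl⟩
  rw [← hτ, ← he]
  have hfw : ∀ j < n, Cov A (bx (c j) (4 * m)) β τ (c j) (c (j + 1)) e := by
    intro j hj
    have h3 := hbx β hβ (8 * m) (by omega) (c j) (c j) (c (j + 1)) (self_mem_bx _ _) (hnext j)
    rw [← hτ, ← he, show 8 * m / 2 = 4 * m by omega] at h3
    exact h3.mono (hboxA j hj.le) (le_refl _) le_rfl le_rfl le_rfl
  have hbk : ∀ j < n, Cov A ∅ β τ (c (j + 1)) (c j) e := by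
    intro j hj
    have h3 := hbx β hβ (8 * m) (by omega) (c j) (c (j + 1)) (c j) (hnext j) (self_mem_bx _ _)
    rw [← hτ, ← he] at h3
    exact h3.mono (hboxA j hj.le) (Finset.empty_subset _) le_rfl le_rfl le_rfl
  -- the cell of a site
  obtain ⟨cell, hcell⟩ : ∃ cell : Site → ℕ, ∀ x, cell x = (Ts x - T0).toNat / m :=
    ⟨_, fun _ => rfl⟩
  have hcell1 : ∀ x : Site, T0 ≤ Ts x → Ts x ≤ T0 + W → cell x < n ∧
      T0 + (cell x : ℤ) * m ≤ Ts x ∧ Ts x ≤ T0 + (cell x : ℤ) * m + m := by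
    intro x hx1 hx2
    obtain ⟨u, hu⟩ : ∃ u : ℕ, u = (Ts x - T0).toNat := ⟨_, rfl⟩
    have hu' : (u : ℤ) = Ts x - T0 := by rw [hu]; exact Int.toNat_of_nonneg (by omega)
    rw [hcell, ← hu]
    have h3 : u ≤ W := by omega
    have h4 : u / m ≤ W / m := Nat.div_le_div_right h3
    have h5 : u / m * m ≤ u := Nat.div_mul_le_self u m
    have h6 : u < u / m * m + m := by
      have := Nat.lt_div_mul_add (a := u) hm0
      exact this
    have h5' : ((u / m : ℕ) : ℤ) * m ≤ u := by exact_mod_cast h5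
    have h6' : (u : ℤ) < ((u / m : ℕ) : ℤ) * m + m := by exact_mod_cast h6
    refine ⟨by omega, by linarith, by linarith⟩
  have hp := pass_fwd (A := A) (β := β) (τ := τ) (e := e) (t := t) (E := E) (c := c)
    (fun j => bx (c j) (4 * m)) (fun j => Y.filter (fun y => cell y = j)) n hcA hfw (by
      intro j hj y hy
      rw [Finset.mem_filter] at hy
      obtain ⟨hy1, hy2⟩ := hY1 y hy.1
      obtain ⟨h3, h4, h5⟩ := hcell1 y hy1 hy2
      rw [hy.2] at h3 h4 h5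
      rw [hc]
      have h6 : (j : ℤ) * m ≤ W := by exact_mod_cast hdiv j hj
      exact hY y hy.1 _ (by linarith [(by positivity : (0 : ℤ) ≤ (j : ℤ) * m)]) (by linarith) h4 h5)
  have hb := pass_back (A := A) (β := β) (τ := τ) (e := e) (c := c) n hcA hbk
  have hsum : (∑ j ∈ Finset.range n, ((Y.filter (fun y => cell y = j)).card : ℝ)) = Y.card := by
    have h3 := Finset.card_eq_sum_card_fiberwise (f := cell) (s := Y) (t := Finset.range n) (by
      intro y hy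
      obtain ⟨hy1, hy2⟩ := hY1 y hy
      rw [Finset.mem_coe, Finset.mem_range]
      exact (hcell1 y hy1 hy2).1)
    rw [h3]
    push_cast
    rfl
  rw [hsum] at hp
  have h := hp.comp hb
  rw [hc0] at h
  refine cov_cast h ?_ (by linarith) (by linarith)
  intro x hx
  rw [Finset.union_empty, Finset.mem_biUnion]
  rcases hR x hx with ⟨hx1, hx2, hx3, hx4⟩ | hxY
  · obtain ⟨h3, h4, h5⟩ := hcell1 x hx1 hx2
    refine ⟨cell x, Finset.mem_range.2 h3, Finset.mem_union_left _ ?_⟩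
    rw [hc]
    exact cell_mem hφ hm h4 h5 hx3 hx4
  · obtain ⟨hx1, hx2⟩ := hY1 x hxY
    obtain ⟨h3, h4, h5⟩ := hcell1 x hx1 hx2
    exact ⟨cell x, Finset.mem_range.2 h3, Finset.mem_union_right _ (Finset.mem_filter.2 ⟨hxY, rfl⟩)⟩


/-- Numerical bounds for one row. -/
lemma row_num {C1 β : ℝ} (hC1 : 1 ≤ C1) (hβ : 1 ≤ β) {m i I W : ℕ} (hm : 1 ≤ m)
    (hmi : 64 * m = 2 ^ i) (hi : i ≤ I) :
    2 * ((W / m + 1 : ℕ) : ℝ) * (C1 * β * Real.sqrt ((8 * m : ℕ) : ℝ)) +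
        2 * (C1 * β * Real.sqrt ((8 * m : ℕ) : ℝ)) ≤
      48 * C1 * β * W * (1 / Real.sqrt (2 ^ i)) + 2 * C1 * β * 2 ^ I ∧
    2 * ((W / m + 1 : ℕ) : ℝ) * (C1 * β * (((8 * m : ℕ) : ℝ) ^ 2 *
        Real.sqrt ((8 * m : ℕ) : ℝ))) +
        2 * (C1 * β * (((8 * m : ℕ) : ℝ) ^ 2 * Real.sqrt ((8 * m : ℕ) : ℝ))) ≤
      (W + 1) * (4 * (C1 * β * ((2 ^ I) ^ 2 * Real.sqrt (2 ^ I)))) := by
  have hmR : (64 : ℝ) * m = 2 ^ i := by exact_mod_cast hmi
  have hm0 : (0 : ℝ) < m := by exact_mod_cast hm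
  have hpow : (2 : ℝ) ^ i ≤ 2 ^ I := pow_le_pow_right₀ (by norm_num) hi
  have hpow1 : (1 : ℝ) ≤ 2 ^ i := one_le_pow₀ (by norm_num)
  obtain ⟨r, hr⟩ : ∃ r : ℝ, r = Real.sqrt (2 ^ i) := ⟨_, rfl⟩
  have hr2 : r ^ 2 = 2 ^ i := by rw [hr]; exact Real.sq_sqrt (by positivity)
  have hr0 : 0 < r := by rw [hr]; exact Real.sqrt_pos.2 (by positivity)
  have hr1 : 1 ≤ r := by nlinarith
  have hq : Real.sqrt ((8 * m : ℕ) : ℝ) ≤ 3 / 8 * r := by
    rw [Real.sqrt_le_left (by positivity)]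
    push_cast
    nlinarith
  have hq0 := Real.sqrt_nonneg ((8 * m : ℕ) : ℝ)
  obtain ⟨q, hqd⟩ : ∃ q : ℝ, q = Real.sqrt ((8 * m : ℕ) : ℝ) := ⟨_, rfl⟩
  have h8 : ((8 * m : ℕ) : ℝ) ≤ 2 ^ I := by push_cast; linarith
  have hqI : Real.sqrt ((8 * m : ℕ) : ℝ) ≤ Real.sqrt (2 ^ I) := Real.sqrt_le_sqrt h8
  have hCβ : 1 ≤ C1 * β := by nlinarith
  have hn : ((W / m + 1 : ℕ) : ℝ) ≤ W / m + 1 := by
    push_cast
    have := Nat.cast_div_le (α := ℝ) (m := W) (n := m)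
    linarith
  have hn0 : (0 : ℝ) ≤ ((W / m + 1 : ℕ) : ℝ) := Nat.cast_nonneg _
  rw [← hr, ← hqd]
  rw [← hqd] at hq hq0 hqI
  constructor
  · have e1 : (W : ℝ) / m = 64 * W * (1 / r) * (1 / r) := by
      have : (m : ℝ) = r ^ 2 / 64 := by linarith
      rw [this]
      field_simp
    have hri : 1 / r * r = 1 := by field_simp
    have hs0 : 0 < 1 / r := by positivity
    have h3 : ((W / m + 1 : ℕ) : ℝ) * q ≤ (W / m + 1) * (3 / 8 * r) :=
      mul_le_mul hn hq hq0 (by positivity)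
    have h4 : ((W : ℝ) / m + 1) * (3 / 8 * r) = 24 * W * (1 / r) + 3 / 8 * r := by
      rw [e1]
      have : (64 * (W : ℝ) * (1 / r) * (1 / r) + 1) * (3 / 8 * r) =
        24 * W * (1 / r) * (1 / r * r) + 3 / 8 * r := by ring
      rw [this, hri]
      ring
    have h5 : r ≤ 2 ^ I := by nlinarith
    calc 2 * ((W / m + 1 : ℕ) : ℝ) * (C1 * β * q) + 2 * (C1 * β * q)
        = C1 * β * (2 * (((W / m + 1 : ℕ) : ℝ) * q) + 2 * q) := by ring
      _ ≤ C1 * β * (48 * W * (1 / r) + 2 * 2 ^ I) := by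
          apply mul_le_mul_of_nonneg_left _ (by linarith)
          linarith
      _ = _ := by ring
  · have h3 : ((8 * m : ℕ) : ℝ) ^ 2 * q ≤ (2 ^ I) ^ 2 * Real.sqrt (2 ^ I) := by
      apply mul_le_mul _ hqI hq0 (by positivity)
      exact pow_le_pow_left₀ (Nat.cast_nonneg _) h8 2
    have h4 : C1 * β * (((8 * m : ℕ) : ℝ) ^ 2 * q) ≤
        C1 * β * ((2 ^ I) ^ 2 * Real.sqrt (2 ^ I)) :=
      mul_le_mul_of_nonneg_left h3 (by linarith)
    have h5 : ((W / m + 1 : ℕ) : ℝ) ≤ W + 1 := by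
      have : W / m ≤ W := Nat.div_le_self W m
      have : ((W / m : ℕ) : ℝ) ≤ W := by exact_mod_cast this
      push_cast
      linarith
    have h6 : 0 ≤ C1 * β * (((8 * m : ℕ) : ℝ) ^ 2 * q) := by positivity
    have hW : (0 : ℝ) ≤ W := Nat.cast_nonneg _
    calc 2 * ((W / m + 1 : ℕ) : ℝ) * (C1 * β * (((8 * m : ℕ) : ℝ) ^ 2 * q)) +
          2 * (C1 * β * (((8 * m : ℕ) : ℝ) ^ 2 * q))
        = (2 * ((W / m + 1 : ℕ) : ℝ) + 2) * (C1 * β * (((8 * m : ℕ) : ℝ) ^ 2 * q)) := by ring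
      _ ≤ (4 * (W + 1)) * (C1 * β * ((2 ^ I) ^ 2 * Real.sqrt (2 ^ I))) :=
          mul_le_mul (by linarith) h4 h6 (by positivity)
      _ = _ := by ring

lemma sqrt_step (i : ℕ) : 4 * (1 / Real.sqrt (2 ^ (i + 1))) ≤ 3 * (1 / Real.sqrt (2 ^ i)) := by
  have h1 : (0 : ℝ) < Real.sqrt (2 ^ i) := Real.sqrt_pos.2 (by positivity)
  have h2 : (0 : ℝ) < Real.sqrt (2 ^ (i + 1)) := Real.sqrt_pos.2 (by positivity)
  have h3 : Real.sqrt (2 ^ i) ^ 2 = 2 ^ i := Real.sq_sqrt (by positivity)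
  have h4 : Real.sqrt (2 ^ (i + 1)) ^ 2 = 2 ^ (i + 1) := Real.sq_sqrt (by positivity)
  have h5 : (2 : ℝ) ^ (i + 1) = 2 ^ i * 2 := pow_succ 2 i
  have h6 : (0 : ℝ) < 2 ^ i := by positivity
  rw [mul_one_div, mul_one_div, div_le_div_iff₀ h2 h1]
  apply le_of_sq_le_sq _ (by positivity)
  rw [mul_pow, mul_pow, h3, h4, h5]
  linarith

end Pool.Agent.TR90.TourAux

namespace Pool.Agent.TR90

open Pool.Agent.LT Pool.Agent.WSB71

open Pool.Agent.TR90.TourAux in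
open Pool.Agent.LB24 in
theorem tour : ∃ C : ℝ, 1 ≤ C ∧ ∀ i0 I : ℕ, 10 ≤ i0 → i0 ≤ I → ∀ β : ℝ, 1 ≤ β →
    ∃ H : ℕ, ∃ C' : ℝ, 0 ≤ C' ∧ ∀ φ : ℤ → ℤ, Lip2 φ → ∀ (T0 : ℤ) (W : ℕ) (Y : Finset Site),
      (∀ y ∈ Y, UU φ y ∧ T0 ≤ Ts y ∧ Ts y ≤ T0 + W ∧ gs y < φ (Ts y) + 2 ^ i0) →
      ∃ A R : Finset Site,
        (∀ x ∈ A, UU φ x ∧ T0 - H ≤ Ts x ∧ Ts x ≤ T0 + W + H ∧ gs x ≤ φ (Ts x) + H) ∧
        Y ⊆ R ∧
        (∀ x : Site, T0 ≤ Ts x → Ts x ≤ T0 + W → φ (Ts x) + 2 ^ i0 ≤ gs x →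
          gs x ≤ φ (Ts x) + 2 ^ I → x ∈ R) ∧
        Cov A R β (C' * (W + 1 + Y.card)) (pt T0 (φ T0 + 2 ^ I)) (pt T0 (φ T0 + 2 ^ I))
          (C * β * W / Real.sqrt (2 ^ i0) + C' + Y.card * (4 * β + C * 2 ^ i0)) := by
  obtain ⟨C1, hC1, hbx⟩ := cov_bx
  refine ⟨12336 * C1 + 10, by linarith, ?_⟩
  intro i0 I hi0 hI β hβ
  have hβ0 : 0 ≤ β := by linarith
  obtain ⟨τI, hτI⟩ : ∃ τI : ℝ, τI = C1 * β * ((2 ^ I) ^ 2 * Real.sqrt (2 ^ I)) := ⟨_, rfl⟩
  obtain ⟨K, hK⟩ : ∃ K : ℝ, K = 2 * C1 * β * 2 ^ I := ⟨_, rfl⟩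
  obtain ⟨N, hN⟩ : ∃ N : ℕ, N = 64 * (I - i0) + 1 := ⟨_, rfl⟩
  obtain ⟨t, ht⟩ : ∃ t : ℝ, t = β + 3 * 2 ^ i0 := ⟨_, rfl⟩
  obtain ⟨E, hE⟩ : ∃ E : ℝ, E = 4 * β + 9 * 2 ^ i0 := ⟨_, rfl⟩
  have hτI0 : 0 ≤ τI := by rw [hτI]; positivity
  have hK0 : 0 ≤ K := by rw [hK]; positivity
  have ht0 : 0 ≤ t := by rw [ht]; positivity
  have hE0 : 0 ≤ E := by rw [hE]; positivity
  refine ⟨4 * 2 ^ I, N * (4 * τI) + N * K + t, by positivity, ?_⟩
  intro φ hφ T0 W Y hY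
  obtain ⟨A, hA⟩ := exists_amb hφ (T0 - ((4 * 2 ^ I : ℕ) : ℤ)) (T0 + W + ((4 * 2 ^ I : ℕ) : ℤ))
    (4 * 2 ^ I)
  -- scales
  obtain ⟨mm, hmm⟩ : ∃ mm : ℕ → ℕ, ∀ k, mm k = 2 ^ (i0 + k - 6) := ⟨_, fun _ => rfl⟩
  have hmm1 : ∀ k, 1 ≤ mm k := fun k => by rw [hmm]; exact Nat.one_le_two_pow
  have hmm64 : ∀ k, 64 * mm k = 2 ^ (i0 + k) := by
    intro k
    rw [hmm, show (64 : ℕ) = 2 ^ 6 by norm_num, ← pow_add]
    congr 1
    omega
  have hmm2 : ∀ k, mm (k + 1) = 2 * mm k := by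
    intro k
    have h1 := hmm64 k
    have h2 := hmm64 (k + 1)
    rw [← add_assoc, pow_succ] at h2
    omega
  have hpowI : ∀ k, i0 + k ≤ I → 64 * mm k ≤ 2 ^ I := by
    intro k hk
    rw [hmm64]
    exact Nat.pow_le_pow_right (by norm_num) hk
  have hAk : ∀ k, i0 + k ≤ I → ∀ z, UU φ z → T0 - 16 * (mm k : ℤ) ≤ Ts z →
      Ts z ≤ T0 + W + 17 * (mm k : ℤ) → gs z ≤ φ (Ts z) + 256 * (mm k : ℤ) → z ∈ A := by
    intro k hk z h1 h2 h3 h4
    have h5 := hpowI k hk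
    rw [hA]
    push_cast
    have h6 : 64 * (mm k : ℤ) ≤ 2 ^ I := by exact_mod_cast h5
    refine ⟨h1, by omega, by omega, by omega⟩
  obtain ⟨lev, hlev⟩ : ∃ lev : ℕ → ℕ → ℤ, ∀ k κ, lev k κ = (64 + (κ : ℤ)) * (mm k : ℤ) :=
    ⟨_, fun _ _ => rfl⟩
  have hlev0 : ∀ k, lev k 0 = 2 ^ (i0 + k) := by
    intro k
    rw [hlev]
    have := hmm64 k
    have h2 : 64 * (mm k : ℤ) = 2 ^ (i0 + k) := by exact_mod_cast this
    push_cast
    linarith
  have hlev64 : ∀ k, lev k 64 = lev (k + 1) 0 := by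
    intro k
    rw [hlev, hlev, hmm2]
    push_cast
    ring
  obtain ⟨s, hs⟩ : ∃ s : ℕ → ℝ, ∀ k, s k = 1 / Real.sqrt (2 ^ (i0 + k)) := ⟨_, fun _ => rfl⟩
  have hs0 : ∀ k, 0 ≤ s k := fun k => by rw [hs]; positivity
  have hss : ∀ k, 4 * s (k + 1) ≤ 3 * s k := by
    intro k
    rw [hs, hs]
    exact sqrt_step (i0 + k)
  -- the invariant
  obtain ⟨Inv, hInv⟩ : ∃ Inv : ℕ → ℕ → Prop, ∀ k κ, Inv k κ ↔ ∀ R : Finset Site,
      (∀ x ∈ R, (T0 ≤ Ts x ∧ Ts x ≤ T0 + W ∧ φ (Ts x) + 2 ^ i0 ≤ gs x ∧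
        gs x ≤ φ (Ts x) + lev k κ) ∨ x ∈ Y) →
      Cov A R β (((64 * k + κ + 1 : ℕ) : ℝ) * ((W + 1) * (4 * τI)) + Y.card * t)
        (pt T0 (φ T0 + lev k κ)) (pt T0 (φ T0 + lev k κ))
        (48 * C1 * β * W * (256 * (s 0 - s k) + κ * s k + s 0) + ((64 * k + κ + 1 : ℕ) : ℝ) * K +
          Y.card * E) := ⟨_, fun _ _ => Iff.rfl⟩
  have hnum : ∀ k, i0 + k ≤ I → _ ∧ _ := fun k hk =>
    row_num (C1 := C1) (β := β) (W := W) hC1 hβ (hmm1 k) (hmm64 k) hk
  have hW0 : (0 : ℝ) ≤ W := Nat.cast_nonneg _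
  -- base
  have hbase : Inv 0 0 := by
    rw [hInv]
    intro R hR
    have hlev' := hlev0 0
    rw [add_zero] at hlev'
    have hm64 : 64 * (mm 0 : ℤ) = 2 ^ i0 := by
      have := hmm64 0
      rw [add_zero] at this
      exact_mod_cast this
    have hk0 : i0 + 0 ≤ I := by omega
    have h := row_cov hbx hφ (β := β) (t := t) (E := E) hβ (d := 2 ^ i0) (m := mm 0) (hmm1 0)
      (by rw [hm64]) (by omega) (T0 := T0) (W := W) (A := A) (hAk 0 hk0) (Y := Y)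
      (fun y hy => ⟨(hY y hy).2.1, (hY y hy).2.2.1⟩) (by
        intro y hy T hT1 hT2 hT3 hT4
        obtain ⟨hy1, hy2, hy3, hy4⟩ := hY y hy
        have h := detour hφ (A := A) (T := T) (d := 2 ^ i0) (m := mm 0) (hmm1 0)
          (by rw [hm64]) (by omega) (by
            intro z hz1 hz2 hz3 hz4
            exact hAk 0 hk0 z hz1 (by omega) (by omega) hz4) hy1 hT3 hT4 hy4 hβ0
        refine cov_cast h (le_refl _) ?_ ?_
        · rw [ht]; push_cast; linarith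
        · rw [hE]; push_cast; linarith) (R := R) (by
        intro x hx
        rcases hR x hx with ⟨a1, a2, a3, a4⟩ | hxY
        · left
          rw [hlev'] at a4
          exact ⟨a1, a2, a3, by omega⟩
        · exact Or.inr hxY)
    rw [hlev']
    obtain ⟨n1, n2⟩ := hnum 0 hk0
    rw [← hτI] at n2
    rw [← hK] at n1
    have p1 : 0 ≤ C1 * β * Real.sqrt ((8 * mm 0 : ℕ) : ℝ) := by positivity
    have p2 : 0 ≤ C1 * β * (((8 * mm 0 : ℕ) : ℝ) ^ 2 * Real.sqrt ((8 * mm 0 : ℕ) : ℝ)) := by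
      positivity
    refine cov_cast h (le_refl _) ?_ ?_
    · push_cast at n2 p2 ⊢
      linarith
    · have e1 : s 0 = 1 / Real.sqrt (2 ^ (i0 + 0)) := hs 0
      rw [← e1] at n1
      push_cast at n1 p1 ⊢
      linarith
  -- inner step
  have hstep : ∀ k, i0 + k + 1 ≤ I → ∀ κ, κ < 64 → Inv k κ → Inv k (κ + 1) := by
    intro k hk κ hκ hinv
    rw [hInv] at hinv ⊢
    intro R hR
    have hk' : i0 + k ≤ I := by omega
    have hd1 : lev k (κ + 1) = lev k κ + mm k := by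
      rw [hlev, hlev]; push_cast; ring
    have hd2 : 64 * (mm k : ℤ) ≤ lev k κ := by
      rw [hlev]
      have h1 : (0 : ℤ) ≤ (κ : ℤ) * (mm k : ℤ) := by positivity
      linarith [add_mul (64 : ℤ) (κ : ℤ) (mm k : ℤ)]
    have hd3 : lev k κ ≤ 128 * (mm k : ℤ) := by
      rw [hlev]
      apply mul_le_mul_of_nonneg_right _ (by positivity)
      omega
    obtain ⟨d, hd⟩ : ∃ d : ℤ, d = lev k κ := ⟨_, rfl⟩
    rw [hd1] at hR ⊢
    rw [← hd] at hinv hd2 hd3 hR ⊢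
    -- the row
    have hrow := row_cov hbx hφ (β := β) (t := 0) (E := 0) hβ (d := d) (m := mm k) (hmm1 k)
      hd2 hd3 (T0 := T0) (W := W) (A := A) (hAk k hk') (Y := ∅) (by simp)
      (by simp) (R := R.filter (fun x => ¬ (gs x ≤ φ (Ts x) + d ∨ x ∈ Y))) (by
        intro x hx
        rw [Finset.mem_filter] at hx
        left
        rcases hR x hx.1 with ⟨a1, a2, a3, a4⟩ | hxY
        · refine ⟨a1, a2, ?_, by linarith⟩
          by_contra hcon
          exact hx.2 (Or.inl (by omega))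
        · exact absurd (Or.inr hxY) hx.2)
    have htour := hinv (R.filter (fun x => gs x ≤ φ (Ts x) + d ∨ x ∈ Y)) (by
      intro x hx
      rw [Finset.mem_filter] at hx
      rcases hR x hx.1 with ⟨a1, a2, a3, a4⟩ | hxY
      · rcases hx.2 with h | h
        · exact Or.inl ⟨a1, a2, a3, h⟩
        · exact Or.inr h
      · exact Or.inr hxY)
    -- transitions
    have hboxA : LB24.bx (pt T0 (φ T0 + d)) (8 * mm k) ⊆ A := by
      intro w hw
      obtain ⟨a1, a2, a3, a4⟩ := box_dom hφ (hmm1 k) hd2 hd3 hw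
      have h1 : (0 : ℤ) ≤ W := by positivity
      have h2 : (0 : ℤ) ≤ mm k := by positivity
      exact hAk k hk' w a1 a2 (by linarith) a4
    have hmem : pt T0 (φ T0 + (d + mm k)) ∈ LB24.bx (pt T0 (φ T0 + d)) (8 * mm k) := by
      apply pt_mem_bx hφ (hmm1 k)
      · simp
      · simp
    have tr1 := (hbx β hβ (8 * mm k) (by have := hmm1 k; omega) (pt T0 (φ T0 + d)) _ _ hmem
      (self_mem_bx _ _)).mono hboxA (Finset.empty_subset _) le_rfl le_rfl le_rfl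
    have tr2 := (hbx β hβ (8 * mm k) (by have := hmm1 k; omega) (pt T0 (φ T0 + d)) _ _
      (self_mem_bx _ _) hmem).mono hboxA (Finset.empty_subset _) le_rfl le_rfl le_rfl
    have h := ((tr1.comp htour).comp hrow).comp tr2
    obtain ⟨n1, n2⟩ := hnum k hk'
    rw [← hτI] at n2
    rw [← hK] at n1
    have e1 : s k = 1 / Real.sqrt (2 ^ (i0 + k)) := hs k
    rw [← e1] at n1
    refine cov_cast h ?_ ?_ ?_
    · intro x hx
      simp only [Finset.mem_union, Finset.mem_filter]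
      tauto
    · push_cast at n2 ⊢
      simp only [Finset.card_empty, CharP.cast_eq_zero, zero_mul, add_zero]
      linarith
    · push_cast at n1 ⊢
      simp only [Finset.card_empty, CharP.cast_eq_zero, zero_mul, add_zero]
      linarith
  have hinner : ∀ k, i0 + k + 1 ≤ I → Inv k 0 → ∀ κ, κ ≤ 64 → Inv k κ := by
    intro k hk h0 κ
    induction κ with
    | zero => intro _; exact h0
    | succ κ ih => intro hκ; exact hstep k hk κ (by omega) (ih (by omega))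
  have hall : ∀ k, i0 + k ≤ I → Inv k 0 := by
    intro k
    induction k with
    | zero => intro _; exact hbase
    | succ k ih =>
      intro hk
      have h := hinner k (by omega) (ih (by omega)) 64 le_rfl
      rw [hInv] at h ⊢
      intro R hR
      rw [← hlev64] at hR ⊢
      refine cov_cast (h R hR) (le_refl _) ?_ ?_
      · apply le_of_eq
        congr 2
      · have h1 := hss k
        have h2 : 256 * (s 0 - s k) + ((64 : ℕ) : ℝ) * s k + s 0 ≤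
            256 * (s 0 - s (k + 1)) + ((0 : ℕ) : ℝ) * s (k + 1) + s 0 := by
          push_cast
          linarith
        have h3 : 48 * C1 * β * W * (256 * (s 0 - s k) + ((64 : ℕ) : ℝ) * s k + s 0) ≤
            48 * C1 * β * W * (256 * (s 0 - s (k + 1)) + ((0 : ℕ) : ℝ) * s (k + 1) + s 0) :=
          mul_le_mul_of_nonneg_left h2 (by positivity)
        have h4 : ((64 * k + 64 + 1 : ℕ) : ℝ) = ((64 * (k + 1) + 0 + 1 : ℕ) : ℝ) := by
          push_cast; ring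
        rw [h4]
        linarith
  -- conclusion
  have hfin := hall (I - i0) (by omega)
  rw [hInv] at hfin
  have hlevI : lev (I - i0) 0 = 2 ^ I := by
    rw [hlev0]
    congr 1
    omega
  rw [hlevI] at hfin
  have hpow2 : (2 : ℤ) ≤ 2 ^ i0 := by
    calc (2 : ℤ) = 2 ^ 1 := by norm_num
      _ ≤ 2 ^ i0 := pow_le_pow_right₀ (by norm_num) (by omega)
  refine ⟨A, (A.filter (fun x => T0 ≤ Ts x ∧ Ts x ≤ T0 + W ∧ φ (Ts x) + 2 ^ i0 ≤ gs x ∧
    gs x ≤ φ (Ts x) + 2 ^ I)) ∪ Y, ?_, Finset.subset_union_right, ?_, ?_⟩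
  · intro x hx
    rw [hA] at hx
    exact hx
  · intro x h1 h2 h3 h4
    refine Finset.mem_union_left _ (Finset.mem_filter.2 ⟨?_, h1, h2, h3, h4⟩)
    rw [hA]
    have h5 : (0 : ℤ) ≤ 2 ^ I := by positivity
    push_cast
    exact ⟨Or.inl (by omega), by omega, by omega, by omega⟩
  · refine cov_cast (hfin _ ?_) (le_refl _) ?_ ?_
    · intro x hx
      rw [Finset.mem_union, Finset.mem_filter] at hx
      rcases hx with ⟨_, hx⟩ | hx
      · exact Or.inl hx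
      · exact Or.inr hx
    · rw [add_zero, ← hN]
      have h1 : (0 : ℝ) ≤ Y.card := Nat.cast_nonneg _
      have h2 : (0 : ℝ) ≤ N * (4 * τI) := by positivity
      have h3 : (0 : ℝ) ≤ N * K := by positivity
      have e : (N * (4 * τI) + N * K + t) * (W + 1 + Y.card) =
        N * ((W + 1) * (4 * τI)) + Y.card * t + (N * (4 * τI)) * Y.card + N * K * (W + 1 + Y.card)
          + t * (W + 1) := by ring
      rw [e]
      have h4 : 0 ≤ (N * (4 * τI)) * (Y.card : ℝ) := by positivity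
      have h5 : 0 ≤ N * K * ((W : ℝ) + 1 + Y.card) := by positivity
      have h6 : 0 ≤ t * ((W : ℝ) + 1) := by positivity
      linarith
    · rw [add_zero, ← hN]
      have h1 : (0 : ℝ) ≤ Y.card := Nat.cast_nonneg _
      have h2 : (0 : ℝ) ≤ N * (4 * τI) := by positivity
      have e0 : s 0 = 1 / Real.sqrt (2 ^ i0) := by rw [hs, add_zero]
      have hsk := hs0 (I - i0)
      have h3 : 48 * C1 * β * W * (256 * (s 0 - s (I - i0)) + ((0 : ℕ) : ℝ) * s (I - i0) + s 0) ≤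
          48 * C1 * β * W * (257 * s 0) := by
        apply mul_le_mul_of_nonneg_left _ (by positivity)
        push_cast
        linarith
      have h4 : (12336 * C1 + 10) * β * W / Real.sqrt (2 ^ i0) =
          48 * C1 * β * W * (257 * s 0) + 10 * β * W * s 0 := by
        rw [e0]; ring
      have h5 : 0 ≤ 10 * β * W * s 0 := by have := hs0 0; positivity
      have h6 : E ≤ 4 * β + (12336 * C1 + 10) * 2 ^ i0 := by
        rw [hE]
        have : (0 : ℝ) < 2 ^ i0 := by positivity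
        nlinarith
      have h7 : (Y.card : ℝ) * E ≤ Y.card * (4 * β + (12336 * C1 + 10) * 2 ^ i0) :=
        mul_le_mul_of_nonneg_left h6 h1
      rw [h4]
      linarith

end Pool.Agent.TR90
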