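import Pool.Agent.LB24.Defs
import Pool.Agent.LT.Row
import Pool.Agent.WSB71.Tile

/-!
# TR90, module Travel: travelling between two sites inside the cones above them

In a square of side `m` (`sq m`, translated): from any site to any site at cost `6 log (m + 1) + 20`, time `(m+1)^2`
(`cov_sqq`, from `kernel_lower` of `LT/Sine.lean`), so the same in boxes (`cov_bxx`), and along sequences of boxes of radius
`q` whose consecutive centres are at distance `≤ q` (`cov_walk`).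
Path from `a` to `b` (`q = ⌊r/16⌋`): from `a` up in the direction `(1, -1)` (`T` constant, `g` increases)
to `a + 60 P q (1, -1)`, then to `b + 60 P q (1, -1)`, then down to `b`.
-/

open MeasureTheory Filter Topology
open scoped NNReal ENNReal

namespace Pool.Agent.TR90

open Pool.Agent.LT Pool.Agent.WSB71

/-- From any site to any site in a square. -/
lemma cov_sqq {m : ℕ} (hm : 1 ≤ m) {x y : Site} (hx : x ∈ sq m) (hy : y ∈ sq m) :
    Cov (sq m) ∅ 1 (((m : ℝ) + 1) ^ 2) x y (6 * Real.log (m + 1) + 20) := by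
  have hN : (0 : ℝ) < (m : ℝ) + 1 := by positivity
  refine ⟨⟨((m : ℝ) + 1) ^ 2, by positivity⟩, le_rfl, ?_⟩
  apply covAt_of_kernel hx hy
  refine le_trans ?_ (kernel_lower hm (s := ((m : ℝ) + 1) ^ 2) le_rfl ⟨_, hx⟩ ⟨_, hy⟩)
  have h1 := ph_ge hx
  have h1' := ph_ge hy
  have h2 : (4 / ((m : ℝ) + 1) ^ 2) * (4 / ((m : ℝ) + 1) ^ 2) ≤ ph m x * ph m y := by
    have : 0 ≤ 4 / ((m : ℝ) + 1) ^ 2 := by positivity
    exact mul_le_mul h1 h1' this (this.trans h1)
  have h9 : Real.exp (6 * Real.log ((m : ℝ) + 1)) = ((m : ℝ) + 1) ^ 6 := by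
    have : (6 : ℝ) * Real.log ((m : ℝ) + 1) = Real.log (((m : ℝ) + 1) ^ 6) := by
      rw [Real.log_pow]; norm_num
    rw [this, Real.exp_log (by positivity)]
  have e1 : Real.exp (-(6 * Real.log ((m : ℝ) + 1) + 20))
      = 1 / ((m : ℝ) + 1) ^ 6 * Real.exp (-20) := by
    rw [neg_add, Real.exp_add, Real.exp_neg (6 * Real.log ((m : ℝ) + 1)), h9, one_div]
  have hlam : ((m : ℝ) + 1) ^ 2 * lam1 m ≤ 20 := by
    have h3 := lm_one_le m
    have hpi2 : Real.pi ^ 2 ≤ 10 := by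
      have := Real.pi_lt_d2
      have := Real.pi_pos
      nlinarith
    unfold lam1
    calc ((m : ℝ) + 1) ^ 2 * (2 * lm m 1) ≤ (m + 1) ^ 2 * (2 * (Real.pi ^ 2 / (m + 1) ^ 2)) := by
          gcongr
      _ = 2 * Real.pi ^ 2 := by field_simp
      _ ≤ 20 := by linarith
  rw [e1]
  apply mul_le_mul
  · calc 1 / ((m : ℝ) + 1) ^ 6 ≤ 16 / ((m : ℝ) + 1) ^ 6 := by gcongr; norm_num
      _ = 1 / ((m : ℝ) + 1) ^ 2 * ((4 / ((m : ℝ) + 1) ^ 2) * (4 / ((m : ℝ) + 1) ^ 2)) := by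
          field_simp; norm_num
      _ ≤ 1 / ((m : ℝ) + 1) ^ 2 * (ph m x * ph m y) := by gcongr
  · apply Real.exp_le_exp.2
    linarith
  · exact (Real.exp_pos _).le
  · have := ph_pos hx
    have := ph_pos hy
    positivity

/-- From any site to any site in a box. -/
lemma cov_bxx {q : ℕ} {p x y : Site} (hx : x ∈ LB24.bx p q) (hy : y ∈ LB24.bx p q) :
    Cov (LB24.bx p q) ∅ 1 (((2 * q : ℕ) + 2 : ℝ) ^ 2) x y (6 * Real.log ((2 * q : ℕ) + 2) + 20) := by
  obtain ⟨v, hv⟩ : ∃ v : Site, v = (p.1 - q, p.2 - q) := ⟨_, rfl⟩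
  have hv1 : v.1 = p.1 - q := by rw [hv]
  have hv2 : v.2 = p.2 - q := by rw [hv]
  have hsq : ∀ z : Site, z ∈ LB24.bx p q → z - v ∈ sq (2 * q + 1) := by
    intro z hz
    rw [LB24.mem_bx, abs_le, abs_le] at hz
    rw [mem_sq, Prod.fst_sub, Prod.snd_sub, hv1, hv2]
    omega
  have h1 := (cov_sqq (m := 2 * q + 1) (by omega) (hsq x hx) (hsq y hy)).shift_by v
    (A' := LB24.bx p q) (R' := ∅) (by
      intro z hz
      rw [mem_sq] at hz
      rw [LB24.mem_bx, Prod.fst_add, Prod.snd_add, hv1, hv2, abs_le, abs_le]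
      omega) (by
      intro z hz
      exact absurd hz (Finset.notMem_empty z))
  have e1 : v + (x - v) = x := by abel
  have e2 : v + (y - v) = y := by abel
  rw [e1, e2] at h1
  have e3 : (((2 * q + 1 : ℕ) : ℝ) + 1) = ((2 * q : ℕ) : ℝ) + 2 := by push_cast; ring
  rw [e3] at h1
  exact h1

/-- Along a sequence of boxes. -/
lemma cov_walk {A : Finset Site} {q : ℕ} (Z : ℕ → Site) (K : ℕ)
    (hA : ∀ k ≤ K, LB24.bx (Z k) q ⊆ A) (hZ : ∀ k < K, Z (k + 1) ∈ LB24.bx (Z k) q) :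
    Cov A ∅ 1 (K * ((2 * q : ℕ) + 2 : ℝ) ^ 2) (Z 0) (Z K)
      (K * (6 * Real.log ((2 * q : ℕ) + 2) + 20)) := by
  have hself : ∀ z : Site, z ∈ LB24.bx z q := by
    intro z
    rw [LB24.mem_bx]
    simp
  induction K with
  | zero =>
    exact (cov_refl (hA 0 le_rfl (hself _)) 1).mono (le_refl _) (le_refl _) le_rfl (by simp)
      (by simp)
  | succ K ih =>
    have h1 := ih (fun k hk => hA k (by omega)) (fun k hk => hZ k (by omega))
    have h2 := (cov_bxx (hself (Z K)) (hZ K (by omega))).mono (hA K (by omega)) (le_refl _) le_rfl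
      le_rfl le_rfl
    refine (h1.comp h2).mono (le_refl _) (Finset.empty_subset _) le_rfl ?_ ?_
    · push_cast; linarith
    · push_cast; linarith

theorem travel : ∃ C : ℝ, 1 ≤ C ∧ ∀ r P : ℕ, 64 ≤ r → 1 ≤ P → ∀ a b : Site,
    |Ts a - Ts b| ≤ P * r → |gs a - gs b| ≤ P * r → ∃ A : Finset Site,
      (∀ y ∈ A, (2 * |Ts y - Ts a| ≤ gs y - gs a + r ∨ 2 * |Ts y - Ts b| ≤ gs y - gs b + r) ∧
        |Ts y - Ts a| ≤ 10 * P * r ∧ |gs y - gs a| ≤ 10 * P * r) ∧
      Cov A ∅ 1 (C * P * r ^ 2) a b (C * P * (1 + Real.log r)) := by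
  refine ⟨2800, by norm_num, ?_⟩
  intro r P hr hP a b hT hg
  obtain ⟨q, hq⟩ : ∃ q : ℕ, q = r / 16 := ⟨_, rfl⟩
  have hq1 : 16 * q ≤ r := by omega
  have hq2 : r ≤ 20 * q := by omega
  have hq4 : 4 ≤ q := by omega
  obtain ⟨A, hAdef⟩ : ∃ A : Finset Site, ∀ y, y ∈ A ↔
      (2 * |Ts y - Ts a| ≤ gs y - gs a + r ∨ 2 * |Ts y - Ts b| ≤ gs y - gs b + r) ∧
        |Ts y - Ts a| ≤ 10 * P * r ∧ |gs y - gs a| ≤ 10 * P * r := by
    classical
    refine ⟨(LB24.bx a (10 * P * r)).filter (fun y =>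
      (2 * |Ts y - Ts a| ≤ gs y - gs a + r ∨ 2 * |Ts y - Ts b| ≤ gs y - gs b + r) ∧
        |Ts y - Ts a| ≤ 10 * P * r ∧ |gs y - gs a| ≤ 10 * P * r), fun y => ?_⟩
    rw [Finset.mem_filter, and_iff_right_iff_imp]
    rintro ⟨-, h1, h2⟩
    rw [LB24.mem_bx]
    unfold Ts at h1
    unfold gs at h2
    push_cast
    rw [abs_le] at h1 h2 ⊢
    rw [abs_le]
    generalize (10 * (P : ℤ) * r) = M at h1 h2 ⊢
    omega
  refine ⟨A, fun y hy => (hAdef y).1 hy, ?_⟩
  -- products as atoms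
  obtain ⟨M, hM⟩ : ∃ M : ℤ, M = P * r := ⟨_, rfl⟩
  obtain ⟨N, hN⟩ : ∃ N : ℤ, N = P * q := ⟨_, rfl⟩
  have hM1 : (10 * (P : ℤ) * r) = 10 * M := by rw [hM]; ring
  have hN1 : 16 * N ≤ M := by
    rw [hN, hM]
    have h1 : (16 * q : ℤ) ≤ r := by exact_mod_cast hq1
    have h2 : (0 : ℤ) ≤ P := by positivity
    nlinarith
  have hN2 : M ≤ 20 * N := by
    rw [hN, hM]
    have h1 : (r : ℤ) ≤ 20 * q := by exact_mod_cast hq2
    have h2 : (0 : ℤ) ≤ P := by positivity
    nlinarith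
  have hN3 : (q : ℤ) ≤ N := by
    rw [hN]
    have h1 : (1 : ℤ) ≤ P := by exact_mod_cast hP
    have h2 : (0 : ℤ) ≤ q := by positivity
    nlinarith
  have hrM : (r : ℤ) ≤ M := by
    rw [hM]
    have h1 : (1 : ℤ) ≤ P := by exact_mod_cast hP
    have h2 : (0 : ℤ) ≤ r := by positivity
    nlinarith
  rw [← hM] at hT hg
  have hb1 : |b.1 - a.1| ≤ M := by
    unfold Ts at hT
    unfold gs at hg
    rw [abs_le] at hT hg ⊢
    omega
  have hb2 : |b.2 - a.2| ≤ M := by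
    unfold Ts at hT
    unfold gs at hg
    rw [abs_le] at hT hg ⊢
    omega
  -- up
  have hkN : ∀ k : ℕ, k ≤ 60 * P → (0 : ℤ) ≤ k * q ∧ (k : ℤ) * q ≤ 60 * N := by
    intro k hk
    have h1 : (k : ℤ) ≤ 60 * P := by exact_mod_cast hk
    have h2 : (0 : ℤ) ≤ q := by positivity
    have h3 : (0 : ℤ) ≤ k := by positivity
    constructor
    · positivity
    · rw [hN]
      nlinarith
  have up : ∀ c : Site, c = a ∨ c = b → ∀ k ≤ 60 * P,
      LB24.bx ((c.1 + k * q, c.2 - k * q) : Site) q ⊆ A := by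
    intro c hc k hk y hy
    obtain ⟨h1, h2⟩ := hkN k hk
    rw [LB24.mem_bx] at hy
    simp only at hy
    generalize (k : ℤ) * q = t at h1 h2 hy
    rw [hAdef, hM1]
    obtain ⟨hy1, hy2⟩ := hy
    rw [abs_le] at hy1 hy2
    rw [abs_le] at hT hg
    unfold Ts gs at *
    have hsq : (16 * q : ℤ) ≤ r := by exact_mod_cast hq1
    rcases hc with rfl | rfl
    · refine ⟨Or.inl ?_, ?_, ?_⟩
      · have : |y.1 + y.2 - (c.1 + c.2)| ≤ 2 * q := by rw [abs_le]; omega
        omega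
      · rw [abs_le]; omega
      · rw [abs_le]; omega
    · refine ⟨Or.inr ?_, ?_, ?_⟩
      · have : |y.1 + y.2 - (c.1 + c.2)| ≤ 2 * q := by rw [abs_le]; omega
        omega
      · rw [abs_le]; omega
      · rw [abs_le]; omega
  -- the middle
  have mid' : ∀ k : ℕ, LB24.bx ((a.1 + 60 * N + max (-((k : ℤ) * q)) (min ((k : ℤ) * q) (b.1 - a.1)),
      a.2 - 60 * N + max (-((k : ℤ) * q)) (min ((k : ℤ) * q) (b.2 - a.2))) : Site) q ⊆ A := by
    intro k y hy
    have h1 : (0 : ℤ) ≤ k * q := by positivity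
    rw [LB24.mem_bx] at hy
    simp only at hy
    generalize (k : ℤ) * q = t at h1 hy
    obtain ⟨d1, hd1⟩ : ∃ d : ℤ, d = max (-t) (min t (b.1 - a.1)) := ⟨_, rfl⟩
    obtain ⟨d2, hd2⟩ : ∃ d : ℤ, d = max (-t) (min t (b.2 - a.2)) := ⟨_, rfl⟩
    rw [← hd1, ← hd2] at hy
    rw [abs_le] at hb1 hb2
    have b1 : -M ≤ d1 ∧ d1 ≤ M := by omega
    have b2 : -M ≤ d2 ∧ d2 ≤ M := by omega
    clear hd1 hd2
    rw [hAdef, hM1]
    obtain ⟨hy1, hy2⟩ := hy
    rw [abs_le] at hy1 hy2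
    have hsq : (16 * q : ℤ) ≤ r := by exact_mod_cast hq1
    have e1 : Ts y - Ts a = (y.1 - a.1) + (y.2 - a.2) := by unfold Ts; ring
    have e2 : gs y - gs a = (y.1 - a.1) - (y.2 - a.2) := by unfold gs; ring
    refine ⟨Or.inl ?_, ?_, ?_⟩
    · have : |Ts y - Ts a| ≤ 2 * M + 2 * q := by rw [e1, abs_le]; omega
      omega
    · rw [e1, abs_le]; omega
    · rw [e2, abs_le]; omega
  -- the three parts
  have hPK : ((60 * P : ℕ) : ℤ) * q = 60 * N := by rw [hN]; push_cast; ring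
  have hPK2 : ((20 * P : ℕ) : ℤ) * q = 20 * N := by rw [hN]; push_cast; ring
  have step : ∀ (x : Site) (s1 s2 : ℤ), |s1| ≤ q → |s2| ≤ q →
      ((x.1 + s1, x.2 + s2) : Site) ∈ LB24.bx x q := by
    intro x s1 s2 h1 h2
    rw [LB24.mem_bx]
    simp only [add_sub_cancel_left]
    exact ⟨h1, h2⟩
  have w1 := cov_walk (A := A) (q := q) (fun k => ((a.1 + k * q, a.2 - k * q) : Site)) (60 * P)
    (fun k hk => up a (Or.inl rfl) k hk) (by
      intro k hk
      rw [LB24.mem_bx]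
      simp only
      push_cast
      constructor
      · have : a.1 + ((k : ℤ) + 1) * q - (a.1 + k * q) = q := by ring
        rw [this, abs_of_nonneg (by positivity)]
      · have : a.2 - ((k : ℤ) + 1) * q - (a.2 - k * q) = -q := by ring
        rw [this, abs_neg, abs_of_nonneg (by positivity)])
  have w2 := cov_walk (A := A) (q := q) (fun k => ((a.1 + 60 * N + max (-((k : ℤ) * q)) (min ((k : ℤ) * q) (b.1 - a.1)),
      a.2 - 60 * N + max (-((k : ℤ) * q)) (min ((k : ℤ) * q) (b.2 - a.2))) : Site)) (20 * P)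
    (fun k _ => mid' k) (by
      intro k hk
      rw [LB24.mem_bx]
      simp only
      push_cast
      have e : ((k : ℤ) + 1) * q = k * q + q := by ring
      have h1 : (0 : ℤ) ≤ k * q := by positivity
      rw [e]
      generalize (k : ℤ) * q = t at h1 ⊢
      rw [abs_le, abs_le]
      omega)
  have w3 := cov_walk (A := A) (q := q)
    (fun k => ((b.1 + (60 * P - k : ℕ) * q, b.2 - (60 * P - k : ℕ) * q) : Site)) (60 * P)
    (fun k hk => up b (Or.inr rfl) (60 * P - k) (by omega)) (by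
      intro k hk
      rw [LB24.mem_bx]
      simp only
      obtain ⟨j, hj⟩ : ∃ j : ℕ, j = 60 * P - (k + 1) := ⟨_, rfl⟩
      have hj' : 60 * P - k = j + 1 := by omega
      rw [← hj, hj']
      push_cast
      constructor
      · have : b.1 + (j : ℤ) * q - (b.1 + (j + 1) * q) = -q := by ring
        rw [this, abs_neg, abs_of_nonneg (by positivity)]
      · have : b.2 - (j : ℤ) * q - (b.2 - (j + 1) * q) = q := by ring
        rw [this, abs_of_nonneg (by positivity)])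
  simp only [hPK, hPK2, Nat.sub_zero, Nat.sub_self, Nat.cast_zero, zero_mul, add_zero, sub_zero] at w1 w2 w3
  have m1 : max (-(20 * N)) (min (20 * N) (b.1 - a.1)) = b.1 - a.1 := by
    rw [abs_le] at hb1
    omega
  have m2 : max (-(20 * N)) (min (20 * N) (b.2 - a.2)) = b.2 - a.2 := by
    rw [abs_le] at hb2
    omega
  have m3 : max (-(0 : ℤ)) (min 0 (b.1 - a.1)) = 0 := by omega
  have m4 : max (-(0 : ℤ)) (min 0 (b.2 - a.2)) = 0 := by omega
  rw [m1, m2, m3, m4] at w2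
  have e1 : ((a.1 + 60 * N + (b.1 - a.1), a.2 - 60 * N + (b.2 - a.2)) : Site)
      = (b.1 + 60 * N, b.2 - 60 * N) := by
    apply Prod.ext
    · simp only; ring
    · simp only; ring
  rw [e1, add_zero, add_zero] at w2
  have hall := (w1.comp w2).comp w3
  have hrR : (64 : ℝ) ≤ r := by exact_mod_cast hr
  have hPR : (1 : ℝ) ≤ P := by exact_mod_cast hP
  have hqR : (16 * q : ℝ) ≤ r := by exact_mod_cast hq1
  have hqR4 : (4 : ℝ) ≤ q := by exact_mod_cast hq4
  have hlog : Real.log (((2 * q : ℕ) : ℝ) + 2) ≤ Real.log r := by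
    apply Real.log_le_log (by positivity)
    push_cast
    linarith
  have hlog0 : 0 ≤ Real.log (r : ℝ) := Real.log_nonneg (by linarith)
  refine hall.mono (le_refl _) (Finset.empty_subset _) le_rfl ?_ ?_
  · push_cast
    have h1 : ((2 : ℝ) * q + 2) ^ 2 ≤ r ^ 2 := by
      apply pow_le_pow_left₀ (by positivity)
      linarith
    have h2 : (0 : ℝ) ≤ P := by linarith
    have h3 := mul_le_mul_of_nonneg_left h1 h2
    have h4 : (0 : ℝ) ≤ P * r ^ 2 := by positivity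
    nlinarith
  · push_cast at hlog ⊢
    have h2 : (0 : ℝ) ≤ P := by linarith
    have h3 := mul_le_mul_of_nonneg_left hlog h2
    have h4 := mul_nonneg h2 hlog0
    nlinarith

end Pool.Agent.TR90
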