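import Pool.Agent.TR90.MainD
import Pool.Agent.TR90.MainE
import Pool.Agent.TR90.Tour
import Pool.Agent.TR90.Travel

/-!
# TR90: `tile_realizable`
-/

open MeasureTheory Filter Topology
open scoped NNReal ENNReal

namespace Pool.Agent.TR90

open Pool.Agent.LT Pool.Agent.WSB71

lemma exists_i0 {Ct β ε : ℝ} (hCt : 1 ≤ Ct) (hβ : 1 ≤ β) (hε : 0 < ε) :
    ∃ i0 : ℕ, 10 ≤ i0 ∧ 2 * Ct * β / Real.sqrt (2 ^ i0) ≤ ε / 16 := by
  obtain ⟨i1, hi1⟩ := pow_unbounded_of_one_lt ((32 * Ct * β / ε) ^ 2) (one_lt_two : (1 : ℝ) < 2)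
  refine ⟨max 10 i1, le_max_left _ _, ?_⟩
  have h1 : (32 * Ct * β / ε) ^ 2 ≤ 2 ^ (max 10 i1) :=
    hi1.le.trans (pow_le_pow_right₀ one_lt_two.le (le_max_right _ _))
  have h2 : 32 * Ct * β / ε ≤ Real.sqrt (2 ^ (max 10 i1)) := Real.le_sqrt_of_sq_le h1
  have h3 : 0 < 32 * Ct * β / ε := by positivity
  rw [div_le_iff₀ (by linarith)]
  calc 2 * Ct * β = ε / 16 * (32 * Ct * β / ε) := by field_simp; ring
    _ ≤ ε / 16 * Real.sqrt (2 ^ (max 10 i1)) := by gcongr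

lemma log_four_le : Real.log 4 ≤ 2 := by
  have h1 : Real.log 4 = 2 * Real.log 2 := by
    rw [show (4 : ℝ) = 2 ^ 2 by norm_num, Real.log_pow]
    norm_num
  have h2 := Real.log_two_lt_d9
  linarith

/-- The cost of the codes. -/
lemma code_cost {h : ℤ} (hh : 1 ≤ h) {n : ℕ} (hn : n ≤ 4 ^ (24 * h.toNat + 24)) :
    ∃ qx : ℝ, (n : ℝ) ≤ Real.exp qx ∧ qx ≤ 96 * h := by
  refine ⟨((24 * h.toNat + 24 : ℕ) : ℝ) * Real.log 4, ?_, ?_⟩
  · rw [Real.exp_nat_mul, Real.exp_log (by norm_num)]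
    exact_mod_cast hn
  · have e2 : ((h.toNat : ℤ)) = h := Int.toNat_of_nonneg (by linarith)
    have e3 : ((h.toNat : ℝ)) = h := by exact_mod_cast e2
    have e4 := log_four_le
    have e5 : (1 : ℝ) ≤ h := by exact_mod_cast hh
    push_cast
    rw [e3]
    calc (24 * (h : ℝ) + 24) * Real.log 4 ≤ (24 * (h : ℝ) + 24) * 2 := by gcongr
      _ ≤ 96 * h := by linarith

/-- The cost of a tile. -/
lemma cost_tile {ε Ct β κ T sq L h M s c1 qx K2 lg Dl j Λ : ℝ} (hε : 0 < ε) (hκ : 0 < κ)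
    (hCt : 1 ≤ Ct) (hβ : 1 ≤ β) (hL : L = Λ * h) (hh : 1 ≤ h) (hΛ1 : 1536 / ε ≤ Λ)
    (hΛ2 : 200 * s * κ * (16 / ε) ≤ Λ) (h48 : 48 / ε ≤ h) (hΛ3 : 1 ≤ Λ) (hsq : 0 < sq)
    (hA1 : 2 * Ct * β / sq ≤ ε / 16) (hT : T ≤ 2 * L) (hM : M ≤ ε / (16 * κ) * L)
    (hqx : qx ≤ 96 * h) (hD : Dl ≤ ε / (16 * (K2 + 1)) * L / j) (hj : 0 < j) (hlg : lg ≤ j)
    (hlg0 : 0 ≤ lg) (hK2 : 0 ≤ K2) (hD0 : 0 ≤ Dl)
    (hc1 : c1 = Ct * β * T / sq + (M + 200 * h * s) * κ) :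
    qx + 2 + Real.log 2 + c1 + Dl * (K2 * lg) ≤ ε * L := by
  have t1 : qx ≤ ε / 16 * L := by
    calc qx ≤ 96 * h := hqx
      _ = ε / 16 * (1536 / ε * h) := by field_simp; norm_num
      _ ≤ ε / 16 * (Λ * h) := by gcongr
      _ = ε / 16 * L := by rw [hL]
  have hhL : h ≤ L := by rw [hL]; nlinarith
  have t2 : 2 + Real.log 2 ≤ ε / 16 * L := by
    have e1 := Real.log_two_lt_d9
    calc 2 + Real.log 2 ≤ 3 := by linarith
      _ = ε / 16 * (48 / ε) := by field_simp; norm_num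
      _ ≤ ε / 16 * L := by gcongr; linarith
  have t3 : Ct * β * T / sq ≤ ε / 16 * L := by
    calc Ct * β * T / sq ≤ Ct * β * (2 * L) / sq := by gcongr
      _ = 2 * Ct * β / sq * L := by ring
      _ ≤ ε / 16 * L := by
        apply mul_le_mul_of_nonneg_right hA1
        linarith
  have t4 : M * κ ≤ ε / 16 * L := by
    calc M * κ ≤ ε / (16 * κ) * L * κ := by gcongr
      _ = ε / 16 * L := by field_simp
  have t5 : 200 * h * s * κ ≤ ε / 16 * L := by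
    calc 200 * h * s * κ = ε / 16 * (200 * s * κ * (16 / ε) * h) := by field_simp
      _ ≤ ε / 16 * (Λ * h) := by gcongr
      _ = ε / 16 * L := by rw [hL]
  have t6 : Dl * (K2 * lg) ≤ ε / 16 * L := by
    calc Dl * (K2 * lg) ≤ (ε / (16 * (K2 + 1)) * L / j) * ((K2 + 1) * j) := by
          have hL0 : 0 ≤ L := by linarith
          have hK3 : K2 ≤ K2 + 1 := by linarith
          have hpos : 0 ≤ ε / (16 * (K2 + 1)) * L / j := by positivity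
          exact mul_le_mul hD (mul_le_mul hK3 hlg hlg0 (by linarith)) (mul_nonneg hK2 hlg0) hpos
      _ = ε / 16 * L := by field_simp
  have t7 : c1 = Ct * β * T / sq + M * κ + 200 * h * s * κ := by
    rw [hc1]
    ring
  have t8 : 0 ≤ ε * L := by
    have : 0 ≤ L := by linarith
    positivity
  rw [t7]
  linarith

lemma nm_ok {k C' T y1 c1 Cn : ℝ} (hk : 1 ≤ k) (hC' : 0 ≤ C')
    (hCn : 32 * (C' * (T + 1 + y1) + c1 + C' + 1) + 3 ≤ Cn) :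
    32 * (C' * (k * T + 1 + k * y1) + (k * c1 + C') + 1) + 3 ≤ k * Cn := by
  have h1 : C' * 1 ≤ C' * k := mul_le_mul_of_nonneg_left hk hC'
  have h2 := mul_le_mul_of_nonneg_left hCn (show (0 : ℝ) ≤ k by linarith)
  have h3 : k * (32 * (C' * (T + 1 + y1) + c1 + C' + 1) + 3)
      = 32 * (C' * (k * T) + C' * k + C' * (k * y1) + k * c1 + C' * k + k) + k * 3 := by ring
  have h4 : 32 * (C' * (k * T + 1 + k * y1) + (k * c1 + C') + 1) + 3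
      = 32 * (C' * (k * T) + C' * 1 + C' * (k * y1) + k * c1 + C' * 1 + 1) + 3 := by ring
  rw [h4]
  linarith

/-- The total cost. -/
lemma cost_row {k Zl qx l2 c1 C' Dl K2 K1 lg lc lm l4 ε L A C0 : ℝ} (hk : 1 ≤ k) (hA : 0 ≤ A)
    (hcost : qx + 2 + l2 + c1 + Dl * (K2 * lg) ≤ ε * L)
    (hC0 : C0 = lc + lm + C' + 5 + K1 * lg + l4) :
    k * (qx + 2 + l2 - Zl) + lc + lm + (k * c1 + C' + 5) + (K1 * lg + k * Dl * (K2 * lg)) + l4
      ≤ (-Zl + ε * L) * k + (A + C0) := by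
  have g2 := mul_le_mul_of_nonneg_left hcost (show (0 : ℝ) ≤ k by linarith)
  rw [hC0]
  have e1 : k * (qx + 2 + l2 + c1 + Dl * (K2 * lg))
      = k * (qx + 2 + l2 - Zl) + k * Zl + k * c1 + k * Dl * (K2 * lg) := by ring
  rw [e1] at g2
  have e2 : (-Zl + ε * L) * k = k * (ε * L) - k * Zl := by ring
  rw [e2]
  linarith

/-- From the chains to the measure of the row event. -/
lemma to_real {β Zr e1 e2 u : ℝ} {Zf X P : ℝ≥0∞} {k Qn : ℕ} (hu : 0 ≤ u) (he1 : 0 ≤ e1)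
    (he2 : 0 ≤ e2) (hP : P ≠ ⊤)
    (h1 : Zf ^ k * ENNReal.ofReal e1 * ENNReal.ofReal e2 * fw 0 1 ≤ (Qn : ℝ≥0∞) * X)
    (h2 : ENNReal.ofReal u * X ≤ P) :
    u * (Zf.toReal ^ k * e1 * e2 * (1 / 4)) ≤ Qn * P.toReal := by
  have h3 : ENNReal.ofReal u * (Zf ^ k * ENNReal.ofReal e1 * ENNReal.ofReal e2 * fw 0 1)
      ≤ (Qn : ℝ≥0∞) * P := by
    calc ENNReal.ofReal u * (Zf ^ k * ENNReal.ofReal e1 * ENNReal.ofReal e2 * fw 0 1)
        ≤ ENNReal.ofReal u * ((Qn : ℝ≥0∞) * X) := by gcongr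
      _ = (Qn : ℝ≥0∞) * (ENNReal.ofReal u * X) := by ring
      _ ≤ (Qn : ℝ≥0∞) * P := by gcongr
  have h4 := ENNReal.toReal_mono (ENNReal.mul_ne_top (ENNReal.natCast_ne_top _) hP) h3
  rw [ENNReal.toReal_mul, ENNReal.toReal_mul, ENNReal.toReal_mul, ENNReal.toReal_mul,
    ENNReal.toReal_mul, ENNReal.toReal_pow, ENNReal.toReal_ofReal hu, ENNReal.toReal_ofReal he1,
    ENNReal.toReal_ofReal he2, ENNReal.toReal_natCast] at h4
  have h5 : (fw 0 1).toReal = 1 / 4 := by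
    unfold fw
    rw [pow_one, ENNReal.toReal_ofReal (by norm_num)]
    norm_num
  rw [h5] at h4
  exact h4

theorem tile_realizable {β ε : ℝ} (hβ : 1 ≤ β) (hε : 0 < ε) : ∃ s₀ : ℤ, 1 ≤ s₀ ∧ ∃ ε₅ : ℝ, 0 < ε₅ ∧
    ∃ Λ₀ : ℕ, 1 ≤ Λ₀ ∧ ∀ Λ : ℕ, Λ₀ ≤ Λ → ∃ j₀ : ℕ, ∃ c₉ : ℝ, 0 < c₉ ∧ ∀ j : ℕ, j₀ ≤ j →
      ∀ M : ℕ, (M : ℝ) ≤ ε₅ * (Λ * 2 ^ j : ℕ) →
      ∀ (v : Site) (D : List (Option Site × Option Site)),
        (D.length : ℝ) ≤ c₉ * (Λ * 2 ^ j : ℕ) / j →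
        ZT β 0 (2 ^ j) s₀ (Λ * 2 ^ j) M v D ≠ 0 →
          Realizable β v (-Real.log (ZT β 0 (2 ^ j) s₀ (Λ * 2 ^ j) M v D).toReal
            + ε * (Λ * 2 ^ j : ℕ)) := by
  classical
  obtain ⟨Ct, hCt, htour⟩ := tour
  obtain ⟨Cv, hCv, hV⟩ := travel
  obtain ⟨i0, hi0, hA1⟩ := exists_i0 hCt hβ hε
  obtain ⟨κ, hκd⟩ : ∃ κ : ℝ, κ = 4 * β + Ct * 2 ^ i0 := ⟨_, rfl⟩
  have hκ : 0 < κ := by rw [hκd]; positivity
  obtain ⟨Λ₀, hΛ₀⟩ := exists_nat_ge (max 100 (max (200 * 2 ^ i0 * κ * (16 / ε)) (1536 / ε)))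
  have hΛ₀1 : (100 : ℝ) ≤ Λ₀ := (le_max_left _ _).trans hΛ₀
  have hΛ₀2 : 200 * 2 ^ i0 * κ * (16 / ε) ≤ Λ₀ :=
    ((le_max_left _ _).trans (le_max_right _ _)).trans hΛ₀
  have hΛ₀3 : 1536 / ε ≤ Λ₀ := ((le_max_right _ _).trans (le_max_right _ _)).trans hΛ₀
  refine ⟨2 ^ i0, one_le_pow₀ (by norm_num), ε / (16 * κ), by positivity, Λ₀, ?_, ?_⟩
  · have : (1 : ℝ) ≤ Λ₀ := by linarith
    exact_mod_cast this
  intro Λ hΛ
  have hΛr : (Λ₀ : ℝ) ≤ Λ := by exact_mod_cast hΛ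
  have hΛ100 : 100 ≤ Λ := by
    have : (100 : ℝ) ≤ Λ := by linarith
    exact_mod_cast this
  obtain ⟨j1, hj1⟩ := pow_unbounded_of_one_lt (48 / ε) (one_lt_two : (1 : ℝ) < 2)
  have hKP2 : 0 ≤ KP Cv (200 * Λ) := KP_nonneg hCv (by omega)
  refine ⟨max (max 9 (i0 + 1)) j1, ε / (16 * (KP Cv (200 * Λ) + 1)), by positivity, ?_⟩
  intro j hj M hM v D hD hZ
  have hj9 : 9 ≤ j := ((le_max_left _ _).trans (le_max_left _ _)).trans hj
  have hji : i0 + 1 ≤ j := ((le_max_right _ _).trans (le_max_left _ _)).trans hj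
  have hjj : j1 ≤ j := (le_max_right _ _).trans hj
  -- the scales
  obtain ⟨r', hr'⟩ : ∃ r' : ℕ, r' = 2 ^ (j - 3) := ⟨_, rfl⟩
  have hrj : 2 ^ j = 8 * r' := by
    rw [hr', show (8 : ℕ) = 2 ^ 3 by norm_num, ← pow_add]
    congr 1
    omega
  have hr64 : 64 ≤ r' := by
    rw [hr', show (64 : ℕ) = 2 ^ 6 by norm_num]
    exact Nat.pow_le_pow_right (by norm_num) (by omega)
  obtain ⟨h, hh⟩ : ∃ h : ℤ, h = 2 ^ j := ⟨_, rfl⟩
  have hh8 : h = 8 * r' := by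
    rw [hh]
    exact_mod_cast hrj
  obtain ⟨L, hL⟩ : ∃ L : ℕ, L = Λ * 2 ^ j := ⟨_, rfl⟩
  have hL8 : L = Λ * (8 * r') := by rw [hL, hrj]
  rw [← hL] at hM hD hZ ⊢
  rw [← hh] at hZ ⊢
  have hr64z : (64 : ℤ) ≤ r' := by exact_mod_cast hr64
  have hh1 : 1 ≤ h := by rw [hh8]; linarith
  have hLz : (L : ℤ) = Λ * h := by rw [hL8, hh8]; push_cast; ring
  have hLr : (L : ℝ) = Λ * h := by exact_mod_cast hLz
  have hhL : 100 * h ≤ L := by
    rw [hLz]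
    have : (100 : ℤ) ≤ Λ := by exact_mod_cast hΛ100
    nlinarith
  have hsh : 2 * 2 ^ i0 ≤ h := by
    rw [hh, ← pow_succ']
    exact pow_le_pow_right₀ (by norm_num) hji
  have hhr : (1 : ℝ) ≤ h := by exact_mod_cast hh1
  have hL1 : (1 : ℝ) ≤ L := by
    have h1 : (100 * h : ℝ) ≤ L := by exact_mod_cast hhL
    linarith
  -- a finite part of the sum
  have hZt : ZT β 0 h (2 ^ i0) L M v D ≠ ⊤ :=
    (tile_cont (by linarith) h (2 ^ i0) L M hh1 v D one_pos).1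
  obtain ⟨F0, hF0, hne, hZf, hZft⟩ := finite_part hZ hZt
  obtain ⟨q0, hq0⟩ := hne
  have hvb := v_bounds (hF0 q0 hq0).1
  have hv : 0 < Ts v := by
    have h1 := hvb.1
    have : (1 : ℤ) ≤ L := by exact_mod_cast hL1
    linarith
  have hv0 : v ≠ 0 := by
    rintro rfl
    unfold Ts at hv
    simp at hv
  obtain ⟨N, hN⟩ := exists_len F0
  obtain ⟨Q0, hQ, hQc⟩ := card_codes (s₀ := 2 ^ i0) (M := M) (v := v) (D := D) hh1 hhL
  obtain ⟨qx, hQe, hqx⟩ := code_cost hh1 hQc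
  clear hQc
  obtain ⟨b1, hb1, hst⟩ := exists_strip h i0 L M hv D
  refine ⟨hv0, b1, fun b2 _ => ?_⟩
  obtain ⟨B', hst⟩ := hst b2
  obtain ⟨I, hIB, hI30, hIi⟩ : ∃ I : ℕ, B' ≤ 2 ^ I ∧ 30 * L ≤ 2 ^ I ∧ i0 ≤ I := by
    refine ⟨max i0 (max B'.toNat (30 * L)), ?_, ?_, le_max_left _ _⟩
    · have h1 : B'.toNat < 2 ^ (max i0 (max B'.toNat (30 * L))) :=
        lt_of_le_of_lt ((le_max_left _ _).trans (le_max_right _ _)) Nat.lt_two_pow_self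
      have h2 := Int.self_le_toNat B'
      have h3 : (B'.toNat : ℤ) < 2 ^ (max i0 (max B'.toNat (30 * L))) := by exact_mod_cast h1
      linarith
    · exact (lt_of_le_of_lt ((le_max_right _ _).trans (le_max_right _ _))
        Nat.lt_two_pow_self).le
  obtain ⟨H, C', hC', hT⟩ := htour i0 I hi0 hIi β hβ
  obtain ⟨Nv, hNv⟩ := exists_nat_ge (101 * Cv * (200 * Λ + 2 ^ I : ℕ) * (r' : ℝ) ^ 2)
  obtain ⟨Hs, hHs⟩ : ∃ Hs : ℤ, Hs = H + (30 * (200 * Λ + 2 ^ I) * r' + 20 * L + 2 ^ I) := ⟨_, rfl⟩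
  have hz3 : (0 : ℤ) ≤ 2 ^ I := pow_nonneg zero_le_two _
  have hz1 : (0 : ℤ) ≤ 30 * (200 * Λ + 2 ^ I) * r' :=
    mul_nonneg (mul_nonneg (Int.natCast_nonneg 30) (add_nonneg (mul_nonneg (Int.natCast_nonneg 200)
      (Int.natCast_nonneg _)) hz3)) (Int.natCast_nonneg _)
  have hz2 : (0 : ℤ) ≤ L := Int.natCast_nonneg _
  have hz4 : (0 : ℤ) ≤ H := Int.natCast_nonneg _
  obtain ⟨b, b3, hb23, hS⟩ := hst I hIB Hs (by linarith) (by linarith)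
    (pt 1 (-(13 * h) + 2 ^ I))
  set x0 := pt 1 (-(13 * h) + 2 ^ I) with hx0
  -- constants
  obtain ⟨y1, hy1⟩ : ∃ y1 : ℝ, y1 = M + 200 * h * 2 ^ i0 := ⟨_, rfl⟩
  obtain ⟨c1, hc1⟩ : ∃ c1 : ℝ, c1 = Ct * β * Ts v / Real.sqrt (2 ^ i0) + y1 * κ := ⟨_, rfl⟩
  have hvr : (0 : ℝ) < Ts v := by exact_mod_cast hv
  have hy10 : 0 ≤ y1 := by rw [hy1]; positivity
  have hc10 : 0 ≤ c1 := by rw [hc1]; positivity
  obtain ⟨Cn, hCn⟩ := exists_nat_ge (32 * (C' * (Ts v + 1 + y1) + c1 + C' + 1) + 3)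
  obtain ⟨Cm, hCm⟩ : ∃ Cm : ℕ, Cm = Cn + D.length * (Nv + N) + 1 := ⟨_, rfl⟩
  obtain ⟨lg, hlg⟩ : ∃ lg : ℝ, lg = 1 + Real.log r' := ⟨_, rfl⟩
  have hr'r : (64 : ℝ) ≤ r' := by exact_mod_cast hr64
  have hlg0 : 1 ≤ lg := by
    rw [hlg]
    have := Real.log_nonneg (show (1 : ℝ) ≤ r' by linarith)
    linarith
  have hlgj : lg ≤ j := by
    rw [hlg, hr']
    push_cast
    rw [Real.log_pow]
    have h1 : Real.log 2 ≤ 1 := by
      have := Real.log_two_lt_d9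
      linarith
    have h2 : ((j - 3 : ℕ) : ℝ) = j - 3 := by
      rw [Nat.cast_sub (by omega)]
      norm_num
    have h3 : (0 : ℝ) ≤ ((j - 3 : ℕ) : ℝ) := Nat.cast_nonneg _
    have h4 : ((j - 3 : ℕ) : ℝ) * Real.log 2 ≤ ((j - 3 : ℕ) : ℝ) * 1 := by gcongr
    linarith
  have hKP1 : 0 ≤ KP Cv (200 * Λ + 2 ^ I) := KP_nonneg hCv (by omega)
  obtain ⟨C0, hC0⟩ : ∃ C0 : ℝ, C0 = Real.log (Cn + 1) + Real.log (Cm * (32 * (β + 1))) + C' + 5 +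
    KP Cv (200 * Λ + 2 ^ I) * lg + Real.log 4 := ⟨_, rfl⟩
  have hCm1 : (1 : ℝ) ≤ Cm := by
    rw [hCm]
    push_cast
    have : (0 : ℝ) ≤ Cn := Nat.cast_nonneg _
    have : (0 : ℝ) ≤ D.length * (Nv + N) := by positivity
    linarith
  have hC00 : 0 ≤ C0 := by
    rw [hC0]
    have h1 := Real.log_nonneg (show (1 : ℝ) ≤ (Cn : ℝ) + 1 by
      have : (0 : ℝ) ≤ Cn := Nat.cast_nonneg _
      linarith)
    have h2 := Real.log_nonneg (show (1 : ℝ) ≤ Cm * (32 * (β + 1)) by nlinarith)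
    have h3 := Real.log_nonneg (show (1 : ℝ) ≤ 4 by norm_num)
    have h4 : 0 ≤ KP Cv (200 * Λ + 2 ^ I) * lg := by positivity
    linarith
  -- the cost per tile
  set Zr := (ZT β 0 h (2 ^ i0) L M v D).toReal with hZr
  have hZr0 : 0 < Zr := ENNReal.toReal_pos hZ hZt
  have hD0 : (0 : ℝ) ≤ D.length := Nat.cast_nonneg _
  have hcost : qx + 2 + Real.log 2 + c1 + D.length * (KP Cv (200 * Λ) * lg) ≤ ε * L := by
    have hj0 : (0 : ℝ) < j := by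
      have : 0 < j := by omega
      exact_mod_cast this
    refine cost_tile (h := h) (Λ := Λ) hε hκ hCt hβ hLr hhr (hΛ₀3.trans hΛr) (hΛ₀2.trans hΛr) ?_
      (by linarith) (Real.sqrt_pos.2 (pow_pos two_pos _)) hA1 ?_ hM hqx hD hj0 hlgj (by linarith)
      hKP2 hD0 (by rw [hc1, hy1])
    · rw [hh]
      push_cast
      exact hj1.le.trans (pow_le_pow_right₀ one_lt_two.le hjj)
    · exact_mod_cast hvb.2.1
  refine ⟨b3, Cm * (16 * (β + 1)) + C0, hb23, fun k hk =>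
    ⟨x0, qR x0 v D (k * D.length), ⟨hS.x0c, Or.inl hS.x0d.le⟩, ?_, ?_⟩⟩
  · obtain ⟨q1, q2⟩ := q_last hS hk
    refine ⟨q1, ?_⟩
    rcases q2 with q2 | q2
    · exact Or.inl q2.le
    · exact Or.inr q2.le
  have hk0 : (1 : ℝ) ≤ k := by exact_mod_cast hk
  by_cases hex : ∃ μ : Measure WP, IsLaw μ
  swap
  · refine ⟨0, ?_, fun μ hμ => absurd ⟨μ, hμ⟩ hex⟩
    rw [NNReal.coe_zero]
    positivity
  obtain ⟨μ₀, hμ₀⟩ := hex
  obtain ⟨S, hS1, hS2⟩ := row_set hμ₀ hT hV hCt hCv hC' hβ (by omega) hr64 hΛ100 hh8 hL8 hsh hI30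
    hF0 ⟨q0, hq0⟩ hN (fun q hq => hQ q (hF0 q hq)) hNv (Hs := Hs) (by linarith) (by linarith) hS
    (nm := k * Cn) hk (ct := k * c1 + C') (by
      rw [← hy1, hc1, hκd]
      apply le_of_eq
      ring) (by
      rw [← hy1]
      rw [Nat.cast_mul]
      exact nm_ok hk0 hC' hCn)
  obtain ⟨s, hs, hrow⟩ := row_of_chains (β := β) (by linarith) (x := x0)
    (y := qR x0 v D (k * D.length)) (n := k * Cn + k * D.length * (Nv + N) + 1) (by omega) S hS1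
  have hnle : k * Cn + k * D.length * (Nv + N) + 1 ≤ k * Cm := by
    have h1 : k * Cm = k * Cn + k * D.length * (Nv + N) + k := by rw [hCm]; ring
    rw [h1]
    exact Nat.add_le_add_left hk _
  have hnler : ((k * Cn + k * D.length * (Nv + N) + 1 : ℕ) : ℝ) ≤ k * Cm := by
    exact_mod_cast hnle
  refine ⟨s, ?_, fun μ hμ => ?_⟩
  · refine hs.trans ?_
    calc ((k * Cn + k * D.length * (Nv + N) + 1 : ℕ) : ℝ) * (16 * (β + 1))
        ≤ (k * Cm) * (16 * (β + 1)) := mul_le_mul_of_nonneg_right hnler (by linarith)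
      _ = Cm * (16 * (β + 1)) * k := by ring
      _ ≤ (Cm * (16 * (β + 1)) + C0) * k :=
        mul_le_mul_of_nonneg_right (by linarith) (by linarith)
  · have := hμ.prob
    have hfin : μ (rowEv β v b1 b2 b3 k x0 (qR x0 v D (k * D.length)) s) ≠ ⊤ :=
      measure_ne_top _ _
    have hreal := to_real (β := β) (Zr := Zr) (by positivity) (Real.exp_pos _).le
      (Real.exp_pos _).le hfin hS2 (hrow μ hμ)
    refine num_final (Cn := Cn) (Cm := Cm) (qx := qx)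
      hk hβ hZr0 hZf ?_ (by omega) hnle hQe hreal ?_
    · rw [Nat.mul_add, Nat.mul_one]
      exact Nat.add_le_add_left hk _
    · rw [← hlg]
      have g1 := cost_row (Zl := Real.log Zr) hk0 (show 0 ≤ Cm * (16 * (β + 1)) by positivity)
        hcost hC0
      push_cast
      exact g1

end Pool.Agent.TR90
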