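import Pool.Agent.TR90.Defs
import Pool.Agent.WSB71.FMain
import Pool.Agent.WSB71.TileUnique

/-!
# TR90, module Prod: rows of tiles

The zones `i v + Zz (ω i).1 h` lie in the disjoint strips `1 + i a < T < 1 + (i + 1) a`, `a = Ts v > 0`, so the weight
of the visits is a product (sitewise), and `Wg` is invariant under translations.
`row_unique`: the list `allExc k v ω` determines each `(ω i).2` because `(ω i).2.length = D.length`; then `tile_unique` with
`V = visits (ω i).2`.
`card_codes`: `γ.take (12 h + 13)` is a chain with `12 h + 13` sites starting at `0`, `γ.reverse.take (12 h + 13)` one which starts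
at `v` (`chains`, `card_chains`, `mem_chains` of `FMain.lean`).
-/

open MeasureTheory Filter Topology
open scoped NNReal ENNReal

namespace Pool.Agent.TR90

open Pool.Agent.LT Pool.Agent.WSB71

variable {h s₀ : ℤ} {L M : ℕ} {v : Site} {D : List (Option Site × Option Site)}

lemma Ts_add (x y : Site) : Ts (x + y) = Ts x + Ts y := by
  unfold Ts
  simp only [Prod.fst_add, Prod.snd_add]
  ring

lemma Ts_nsmul (i : ℕ) (x : Site) : Ts (i • x) = i * Ts x := by
  have h1 : (i • x).1 = i * x.1 := by rw [Prod.smul_fst, nsmul_eq_mul]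
  have h2 : (i • x).2 = i * x.2 := by rw [Prod.smul_snd, nsmul_eq_mul]
  unfold Ts
  rw [h1, h2]
  ring

lemma tfst_eq {γ : List Site} (hγ : TilePath L v γ) : Tfst γ = 1 := by
  have h1 := hγ.head
  unfold Tfst
  cases γ with
  | nil => simp at h1
  | cons p t =>
    simp only [List.head?_cons, Option.some.injEq] at h1
    rw [List.headD_cons, h1]
    rfl

lemma tlst_eq {γ : List Site} (hγ : TilePath L v γ) : Tlst γ = 1 + Ts v := by
  have h1 := hγ.last
  unfold Tlst
  rw [List.getLastD_eq_getLast?, h1, Option.getD_some]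
  unfold Td Ts
  ring

lemma zz_strip {γ : List Site} (hγ : TilePath L v γ) (hh : 1 ≤ h) {x : Site} (hx : x ∈ Zz γ h) :
    1 < Ts x ∧ Ts x < 1 + Ts v := by
  obtain ⟨-, h1, h2, -⟩ := hx
  rw [tfst_eq hγ] at h1
  rw [tlst_eq hγ] at h2
  constructor <;> linarith

lemma cz_strip {γ : List Site} (hγ : TilePath L v γ) (hh : 1 ≤ h) {x : Site} (hx : x ∈ Cz γ h) :
    1 < Ts x ∧ Ts x < 1 + Ts v := by
  obtain ⟨-, h1, h2, -⟩ := hx
  rw [tfst_eq hγ] at h1
  rw [tlst_eq hγ] at h2
  constructor <;> linarith

lemma visits_zz {q : List Site × List (List Site)} (hq : Tile h s₀ L M v D q) {x : Site}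
    (hx : x ∈ visits q.2) : x ∈ Zz q.1 h := by
  unfold visits at hx
  rw [List.mem_flatMap] at hx
  obtain ⟨e, he, hxe⟩ := hx
  obtain ⟨a, b, hab, -, -⟩ := hq.2.2.1 e he
  exact hab.2.2.2 x hxe

/-- strips are disjoint -/
lemma strip_eq {a : ℤ} (ha : 0 < a) {i j : ℕ} {t u : ℤ} (ht : 1 < t ∧ t < 1 + a)
    (hu : 1 < u ∧ u < 1 + a) (he : (i : ℤ) * a + t = j * a + u) : i = j := by
  rcases lt_trichotomy i j with hij | hij | hij
  · exfalso
    have h1 : ((i : ℤ) + 1) * a ≤ j * a :=
      mul_le_mul_of_nonneg_right (by exact_mod_cast hij) ha.le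
    nlinarith
  · exact hij
  · exfalso
    have h1 : ((j : ℤ) + 1) * a ≤ i * a :=
      mul_le_mul_of_nonneg_right (by exact_mod_cast hij) ha.le
    nlinarith

/-- visits of the tile `i`, translated -/
def tv (v : Site) (ω : ℕ → List Site × List (List Site)) (i : ℕ) : List Site :=
  (visits (ω i).2).map (fun x => i • v + x)

lemma allExc_flat (k : ℕ) (ω : ℕ → List Site × List (List Site)) :
    (allExc k v ω).flatMap List.dropLast = (List.range k).flatMap (tv v ω) := by
  unfold allExc tv visits
  rw [List.flatMap_assoc]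
  congr 1
  funext i
  rw [List.flatMap_map, List.map_flatMap]
  congr 1
  funext e
  rw [List.map_dropLast]

lemma mem_tv {k : ℕ} (hh : 1 ≤ h) {ω : ℕ → List Site × List (List Site)}
    (hω : ∀ i < k, Tile h s₀ L M v D (ω i)) {i : ℕ} (hi : i < k) {x : Site}
    (hx : x ∈ tv v ω i) : ∃ y, x = i • v + y ∧ y ∈ visits (ω i).2 ∧
      (1 < Ts y ∧ Ts y < 1 + Ts v) := by
  unfold tv at hx
  rw [List.mem_map] at hx
  obtain ⟨y, hy, rfl⟩ := hx
  exact ⟨y, rfl, hy, zz_strip (hω i hi).1 hh (visits_zz (hω i hi) hy)⟩

lemma tv_index {k : ℕ} (hv : 0 < Ts v) (hh : 1 ≤ h) {ω : ℕ → List Site × List (List Site)}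
    (hω : ∀ i < k, Tile h s₀ L M v D (ω i)) {i j : ℕ} (hi : i < k) (hj : j < k) {x : Site}
    (hx : x ∈ tv v ω i) (hx' : x ∈ tv v ω j) : i = j := by
  obtain ⟨y, hy, -, h1⟩ := mem_tv hh hω hi hx
  obtain ⟨z, hz, -, h2⟩ := mem_tv hh hω hj hx'
  refine strip_eq hv h1 h2 ?_
  rw [← Ts_nsmul, ← Ts_nsmul, ← Ts_add, ← Ts_add, ← hy, ← hz]

lemma count_flat {k : ℕ} (hv : 0 < Ts v) (hh : 1 ≤ h) {ω : ℕ → List Site × List (List Site)}
    (hω : ∀ i < k, Tile h s₀ L M v D (ω i)) {i : ℕ} (hi : i < k) {x : Site}
    (hx : x ∈ tv v ω i) : ((List.range k).flatMap (tv v ω)).count x = (tv v ω i).count x := by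
  rw [List.count_flatMap]
  have h1 : ∀ m ≤ k, (List.map (List.count x ∘ tv v ω) (List.range m)).sum =
      if i < m then (tv v ω i).count x else 0 := by
    intro m
    induction m with
    | zero => intro _; simp
    | succ m ih =>
      intro hm
      rw [List.range_succ, List.map_append, List.sum_append, ih (by omega)]
      simp only [List.map_cons, List.map_nil, List.sum_cons, List.sum_nil, add_zero,
        Function.comp_apply]
      have h0 : i ≠ m → (tv v ω m).count x = 0 := fun hne =>
        List.count_eq_zero_of_not_mem fun hm' =>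
          hne (tv_index hv hh hω hi (by omega) hx hm')
      rcases lt_trichotomy i m with h2 | h2 | h2
      · rw [if_pos h2, if_pos (by omega), h0 (by omega), add_zero]
      · subst h2
        rw [if_neg (lt_irrefl _), if_pos (Nat.lt_succ_self _), zero_add]
      · rw [if_neg (by omega), if_neg (by omega), zero_add, h0 (by omega)]
  rw [h1 k le_rfl, if_pos hi]

theorem Wg_row {β : ℝ} (hv : 0 < Ts v) {k : ℕ} (hh : 1 ≤ h)
    (ω : ℕ → List Site × List (List Site)) (hω : ∀ i < k, Tile h s₀ L M v D (ω i)) :
    Wg β 0 (Cu k v h ω) ((allExc k v ω).flatMap List.dropLast)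
      = ∏ i ∈ Finset.range k, Wg β 0 (Cz (ω i).1 h) (visits (ω i).2) := by
  rw [allExc_flat]
  unfold Wg
  have hset : ((List.range k).flatMap (tv v ω)).toFinset =
      (Finset.range k).biUnion fun i => (tv v ω i).toFinset := by
    ext x
    simp only [List.mem_toFinset, List.mem_flatMap, List.mem_range, Finset.mem_biUnion,
      Finset.mem_range]
  rw [hset, Finset.prod_biUnion]
  · refine Finset.prod_congr rfl fun i hi => ?_
    rw [Finset.mem_range] at hi
    have himg : (tv v ω i).toFinset = (visits (ω i).2).toFinset.image (fun x => i • v + x) := by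
      ext x
      simp only [tv, List.mem_toFinset, List.mem_map, Finset.mem_image]
    have hinj : Function.Injective (fun x : Site => i • v + x) := fun x y hxy => by
      simpa using hxy
    rw [himg, Finset.prod_image fun x _ y _ hxy => hinj hxy]
    refine Finset.prod_congr rfl fun y hy => ?_
    rw [List.mem_toFinset] at hy
    have hyt : i • v + y ∈ tv v ω i := List.mem_map.2 ⟨y, hy, rfl⟩
    have hcount : ((List.range k).flatMap (tv v ω)).count (i • v + y) = (visits (ω i).2).count y := by
      rw [count_flat hv hh hω hi hyt]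
      unfold tv
      exact List.count_map_of_injective _ _ hinj _
    have hmem : i • v + y ∈ Cu k v h ω ↔ y ∈ Cz (ω i).1 h := by
      constructor
      · rintro ⟨j, hj, hjy⟩
        have h1 := cz_strip (hω j hj).1 hh hjy
        have h2 := zz_strip (hω i hi).1 hh (visits_zz (hω i hi) hy)
        have h3 : i = j := by
          refine strip_eq hv h2 h1 ?_
          rw [← Ts_nsmul, ← Ts_nsmul, ← Ts_add, ← Ts_add]
          congr 1
          abel
        subst h3
        rwa [add_sub_cancel_left] at hjy
      · intro hy'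
        refine ⟨i, hi, ?_⟩
        rwa [add_sub_cancel_left]
    rw [hcount]
    by_cases hc : y ∈ Cz (ω i).1 h
    · rw [if_pos hc, if_pos (hmem.2 hc)]
    · rw [if_neg hc, if_neg fun h => hc (hmem.1 h)]
  · intro i hi j hj hij
    rw [Finset.mem_coe, Finset.mem_range] at hi hj
    rw [Function.onFun, Finset.disjoint_left]
    intro x hx hx'
    rw [List.mem_toFinset] at hx hx'
    exact hij (tv_index hv hh hω hi hj hx hx')

lemma allExc_succ (k : ℕ) (ω : ℕ → List Site × List (List Site)) :
    allExc (k + 1) v ω = allExc k v ω ++ (ω k).2.map (fun e => e.map (fun x => k • v + x)) := by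
  unfold allExc
  rw [List.range_succ, List.flatMap_append]
  simp

lemma tile_length {q : List Site × List (List Site)} (hq : Tile h s₀ L M v D q) :
    q.2.length = D.length := by
  rw [← hq.2.1]
  simp [ends]

theorem allExc_length {k : ℕ} (ω : ℕ → List Site × List (List Site))
    (hω : ∀ i < k, Tile h s₀ L M v D (ω i)) : (allExc k v ω).length = k * D.length := by
  induction k with
  | zero => simp [allExc]
  | succ k ih =>
    rw [allExc_succ, List.length_append, ih fun i hi => hω i (by omega), List.length_map,
      tile_length (hω k (by omega))]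
    ring

/-- The excursion of index `i |D| + m`. -/
theorem allExc_get {k : ℕ} (ω : ℕ → List Site × List (List Site))
    (hω : ∀ i < k, Tile h s₀ L M v D (ω i)) {i m : ℕ} (hi : i < k) (hm : m < D.length) :
    (allExc k v ω).getD (i * D.length + m) []
      = ((ω i).2.getD m []).map (fun x => i • v + x) := by
  induction k with
  | zero => omega
  | succ k ih =>
    have hlen := allExc_length (v := v) ω (k := k) fun j hj => hω j (by omega)
    rw [allExc_succ]
    rcases Nat.lt_or_ge i k with h1 | h1
    · rw [List.getD_append _ _ _ _ (by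
        rw [hlen]
        calc i * D.length + m < i * D.length + D.length := by omega
          _ = (i + 1) * D.length := by ring
          _ ≤ k * D.length := Nat.mul_le_mul_right _ h1)]
      exact ih (fun j hj => hω j (by omega)) h1
    · have h2 : i = k := by omega
      subst h2
      rw [List.getD_append_right _ _ _ _ (by rw [hlen]; omega), hlen, Nat.add_sub_cancel_left]
      have hl := tile_length (hω i (by omega))
      rw [List.getD_eq_getElem _ _ (by rw [List.length_map, hl]; exact hm),
        List.getD_eq_getElem _ _ (by rw [hl]; exact hm), List.getElem_map]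

theorem row_unique (hh : 1 ≤ h) {k : ℕ} (ω ω' : ℕ → List Site × List (List Site))
    (hω : ∀ i < k, Tile h s₀ L M v D (ω i)) (hω' : ∀ i < k, Tile h s₀ L M v D (ω' i))
    (hE : allExc k v ω = allExc k v ω') (hc : ∀ i < k, codeT h (ω i) = codeT h (ω' i)) :
    ∀ i < k, ω i = ω' i := by
  intro i hi
  have hl := tile_length (hω i hi)
  have hl' := tile_length (hω' i hi)
  have h2 : (ω i).2 = (ω' i).2 := by
    refine List.ext_getElem (by rw [hl, hl']) fun m h1 h2 => ?_
    have hm : m < D.length := by rw [← hl]; exact h1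
    have h3 := allExc_get ω hω hi hm
    have h4 := allExc_get ω' hω' hi hm
    rw [hE, h4] at h3
    have hinj : Function.Injective (fun x : Site => i • v + x) := fun x y hxy => by
      simpa using hxy
    have h5 := List.map_injective_iff.2 hinj h3
    rw [List.getD_eq_getElem _ _ h1, List.getD_eq_getElem _ _ h2] at h5
    exact h5.symm
  have h1 : (ω i).1 = (ω' i).1 := by
    have hcode := hc i hi
    unfold codeT at hcode
    rw [Prod.mk.injEq] at hcode
    refine tile_unique hh (hω i hi).1 (hω' i hi).1 (V := visits (ω i).2) (fun x hx => ⟨?_, ?_⟩)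
      (hω i hi).2.2.2.1 ?_ hcode.1 hcode.2
    · exact visits_zz (hω i hi) hx
    · rw [h2] at hx
      exact visits_zz (hω' i hi) hx
    · rw [h2]
      exact (hω' i hi).2.2.2.1
  exact Prod.ext h1 h2

theorem card_codes (hh : 1 ≤ h) (hhL : 100 * h ≤ L) : ∃ Q : Finset (List Site × List Site),
    (∀ q, Tile h s₀ L M v D q → codeT h q ∈ Q) ∧ Q.card ≤ 4 ^ (24 * h.toNat + 24) := by
  refine ⟨(chains (12 * h.toNat + 12) 0) ×ˢ (chains (12 * h.toNat + 12) v), ?_, ?_⟩
  · intro q hq
    have hγ := hq.1
    have hlen : 12 * h.toNat + 13 ≤ q.1.length := by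
      have h1 := hγ.len.1
      have h2 : (h.toNat : ℤ) = h := Int.toNat_of_nonneg (by linarith)
      have h3 : 100 * h.toNat ≤ L := by
        have : (100 : ℤ) * h.toNat ≤ L := by rw [h2]; exact hhL
        exact_mod_cast this
      have h4 : 1 ≤ h.toNat := by
        have : (1 : ℤ) ≤ h.toNat := by rw [h2]; exact hh
        exact_mod_cast this
      omega
    unfold codeT
    rw [Finset.mem_product]
    constructor
    · refine mem_chains (hγ.chain.take _) ?_ ?_
      · rw [List.head?_take, if_neg (by omega)]
        exact hγ.head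
      · rw [List.length_take]
        omega
    · have hrev : q.1.reverse.IsChain Adj := by
        rw [List.isChain_reverse]
        exact hγ.chain.imp fun a b hab => hab.symm
      refine mem_chains (hrev.take _) ?_ ?_
      · rw [List.head?_take, if_neg (by omega), List.head?_reverse]
        exact hγ.last
      · rw [List.length_take, List.length_reverse]
        omega
  · rw [Finset.card_product]
    calc _ ≤ 4 ^ (12 * h.toNat + 12) * 4 ^ (12 * h.toNat + 12) :=
          Nat.mul_le_mul (card_chains _ _) (card_chains _ _)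
      _ = 4 ^ (24 * h.toNat + 24) := by rw [← pow_add]; congr 1; ring

end Pool.Agent.TR90
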