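import Pool.Agent.TR90.GeoB
import Pool.Agent.TR90.Glue
import Pool.Agent.TR90.Prod

/-!
# TR90, module MainA: the function `φ` of a row of tiles
-/

open MeasureTheory Filter Topology
open scoped NNReal ENNReal

namespace Pool.Agent.TR90

open Pool.Agent.LT Pool.Agent.WSB71

/-! ### Coordinates -/

lemma gs_add (x y : Site) : gs (x + y) = gs x + gs y := by
  unfold gs; simp only [Prod.fst_add, Prod.snd_add]; ring

lemma Ts_sub (x y : Site) : Ts (x - y) = Ts x - Ts y := by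
  unfold Ts; simp only [Prod.fst_sub, Prod.snd_sub]; ring

lemma gs_sub (x y : Site) : gs (x - y) = gs x - gs y := by
  unfold gs; simp only [Prod.fst_sub, Prod.snd_sub]; ring

lemma gs_nsmul (i : ℕ) (v : Site) : gs (i • v) = i * gs v := by
  unfold gs; rw [Prod.smul_fst, Prod.smul_snd, nsmul_eq_mul, nsmul_eq_mul]; ring

lemma Lip2.abs_le {φ : ℤ → ℤ} (hφ : Lip2 φ) (T T' : ℤ) : |φ T' - φ T| ≤ 2 * |T' - T| := by
  have key : ∀ (n : ℕ) (T : ℤ), |φ (T + n) - φ T| ≤ 2 * n := by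
    intro n
    induction n with
    | zero => intro T; simp
    | succ n ih =>
      intro T
      have h1 := ih T
      have h2 := hφ (T + n)
      have h3 : φ (T + (n + 1 : ℕ)) - φ T = (φ (T + n + 1) - φ (T + n)) + (φ (T + n) - φ T) := by
        push_cast
        rw [← add_assoc]
        ring
      rw [h3]
      refine (abs_add_le _ _).trans ?_
      push_cast
      linarith
  rcases le_total T T' with h | h
  · have h1 := key (T' - T).toNat T
    rw [Int.toNat_of_nonneg (by linarith)] at h1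
    rw [abs_of_nonneg (show 0 ≤ T' - T by linarith)]
    convert h1 using 3
    ring_nf
  · have h1 := key (T - T').toNat T'
    rw [Int.toNat_of_nonneg (by linarith)] at h1
    rw [abs_sub_comm T' T, abs_of_nonneg (show 0 ≤ T - T' by linarith), abs_sub_comm]
    convert h1 using 3
    ring_nf

/-- Cones above deep sites are in the domain. -/
lemma cone_UU {φ : ℤ → ℤ} (hφ : Lip2 φ) {a y : Site} {r : ℤ} (ha : φ (Ts a) + r + 2 ≤ gs a)
    (hy : 2 * |Ts y - Ts a| ≤ gs y - gs a + r) : UU φ y := by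
  left
  have h1 := hφ.abs_le (Ts a) (Ts y)
  have h2 := le_abs_self (φ (Ts y) - φ (Ts a))
  linarith

lemma UU_lower {φ : ℤ → ℤ} (hφ : Lip2 φ) {x : Site} (hx : UU φ x) : φ (Ts x) + 1 ≤ gs x := by
  rcases hx with h | h
  · linarith
  · have h1 := hφ (Ts x - 1)
    rw [sub_add_cancel] at h1
    have h2 := le_abs_self (φ (Ts x) - φ (Ts x - 1))
    linarith

/-! ### Stations -/

/-- First site of the excursion number `m`. -/
def Da (D : List (Option Site × Option Site)) (m : ℕ) : Site := (D.getD m (none, none)).1.getD 0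

/-- Last site of the excursion number `m`. -/
def Db (D : List (Option Site × Option Site)) (m : ℕ) : Site := (D.getD m (none, none)).2.getD 0

variable {h s₀ : ℤ} {L M : ℕ} {v : Site} {D : List (Option Site × Option Site)}

lemma stations {q : List Site × List (List Site)} (hq : Tile h s₀ L M v D q) {m : ℕ}
    (hm : m < D.length) :
    IsExc (Cz q.1 h) (Zz q.1 h) (Da D m) (Db D m) (q.2.getD m []) ∧ TileEnt h q.1 (Da D m) ∧
      rightOf q.1 (Db D m) := by
  have hlen := tile_length hq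
  have hm' : m < q.2.length := by rw [hlen]; exact hm
  have he : q.2.getD m [] = q.2[m] := by
    rw [List.getD_eq_getElem?_getD, List.getElem?_eq_getElem hm']; rfl
  obtain ⟨a, b, h1, h2, h3⟩ := hq.2.2.1 (q.2[m]) (List.getElem_mem hm')
  have hD : D.getD m (none, none) = (some a, some b) := by
    have h4 : D.getD m (none, none) = D[m] := by
      rw [List.getD_eq_getElem?_getD, List.getElem?_eq_getElem hm]; rfl
    have h5 : D[m] = (ends q.2)[m]'(by rw [hq.2.1]; exact hm) := by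
      simp only [hq.2.1]
    rw [h4, h5]
    unfold ends
    rw [List.getElem_map, h1.1.1, h1.1.2.1]
  have ha : Da D m = a := by unfold Da; rw [hD]; rfl
  have hb : Db D m = b := by unfold Db; rw [hD]; rfl
  rw [ha, hb, he]
  exact ⟨h1, h2, h3⟩

/-! ### The parameter `ρ` -/

open Classical in
/-- The height `ρ` of a tile. -/
noncomputable def rhoT (h s₀ : ℤ) (M : ℕ) (q : List Site × List (List Site)) : ℤ :=
  if H : TileCond h s₀ M q.1 (visits q.2) then H.2.choose else 1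

lemma rhoT_spec {q : List Site × List (List Site)} (hq : Tile h s₀ L M v D q) :
    h ≤ 4 * rhoT h s₀ M q ∧ 2 * rhoT h s₀ M q ≤ h ∧
    {x : Site | rightOf q.1 x ∧ Tfst q.1 + 8 * h ≤ Ts x ∧ Ts x ≤ Tlst q.1 - 8 * h ∧
      env q.1 (Ts x) + rhoT h s₀ M q ≤ gs x ∧ gs x < env q.1 (Ts x) + rhoT h s₀ M q + s₀ ∧
      x ∉ visits q.2}.ncard ≤ M := by
  have H := hq.2.2.2
  unfold rhoT
  rw [dif_pos H]
  exact H.2.choose_spec

/-- The profile of a tile. -/
noncomputable def prf (h s₀ : ℤ) (M : ℕ) (v : Site) (q : List Site × List (List Site)) : ℤ → ℤ :=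
  pr q.1 h (rhoT h s₀ M q) v

/-- The lower boundary of the domain of a row. -/
noncomputable def phi (k : ℕ) (h s₀ : ℤ) (M : ℕ) (v : Site)
    (ω : ℕ → List Site × List (List Site)) : ℤ → ℤ :=
  gl k (Ts v) (gs v) (fun i => prf h s₀ M v (ω i))

/-- Hypotheses on a row of tiles. -/
structure RowOf (k : ℕ) (h s₀ : ℤ) (L M : ℕ) (v : Site) (D : List (Option Site × Option Site))
    (ω : ℕ → List Site × List (List Site)) : Prop where
  hk : 1 ≤ k
  hh : 8 ≤ h
  hhL : 100 * h ≤ L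
  tile : ∀ i < k, Tile h s₀ L M v D (ω i)

namespace RowOf

variable {k : ℕ} {ω : ℕ → List Site × List (List Site)}

lemma hh1 (H : RowOf k h s₀ L M v D ω) : 1 ≤ h := by linarith [H.hh]

lemma path (H : RowOf k h s₀ L M v D ω) {i : ℕ} (hi : i < k) : TilePath L v (ω i).1 :=
  (H.tile i hi).1

lemma hv (H : RowOf k h s₀ L M v D ω) : 0 < Ts v := by
  have h1 := (v_bounds (H.path (Nat.lt_of_lt_of_le Nat.zero_lt_one H.hk))).1
  have h2 := H.hhL
  have h3 := H.hh
  linarith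

lemma rho0 (H : RowOf k h s₀ L M v D ω) {i : ℕ} (hi : i < k) : 1 ≤ rhoT h s₀ M (ω i) := by
  have h1 := (rhoT_spec (H.tile i hi)).1
  have := H.hh
  omega

lemma rho2 (H : RowOf k h s₀ L M v D ω) {i : ℕ} (hi : i < k) : 2 * rhoT h s₀ M (ω i) ≤ h :=
  (rhoT_spec (H.tile i hi)).2.1

lemma p0 (H : RowOf k h s₀ L M v D ω) : ∀ i < k, prf h s₀ M v (ω i) 0 = -(13 * h) := fun i hi =>
  pr_zero (H.path hi) H.hh1 H.hhL (by linarith [H.rho0 hi])

lemma p1 (H : RowOf k h s₀ L M v D ω) : ∀ i < k, prf h s₀ M v (ω i) (Ts v) = -(13 * h) + gs v :=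
  fun i hi => pr_last (H.path hi) H.hh1 H.hhL (by linarith [H.rho0 hi])

lemma plip (H : RowOf k h s₀ L M v D ω) : ∀ i < k, ∀ τ,
    |prf h s₀ M v (ω i) (τ + 1) - prf h s₀ M v (ω i) τ| ≤ 2 :=
  fun i hi τ => pr_lip (H.path hi) _ τ

lemma pbd (H : RowOf k h s₀ L M v D ω) : ∀ i < k, ∀ τ, 0 ≤ τ → τ ≤ Ts v →
    |prf h s₀ M v (ω i) τ| ≤ 10 * L :=
  fun i hi _ h0 h1 => pr_bound (H.path hi) H.hh1 H.hhL (by linarith [H.rho0 hi]) h0 h1

lemma lip (H : RowOf k h s₀ L M v D ω) : Lip2 (phi k h s₀ M v ω) :=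
  gl_lip H.hk H.hv H.p0 H.p1 H.plip

lemma eq (H : RowOf k h s₀ L M v D ω) {i : ℕ} (hi : i < k) {τ : ℤ} (hτ0 : 0 ≤ τ)
    (hτ1 : τ ≤ Ts v) :
    phi k h s₀ M v ω (1 + i * Ts v + τ) = i * gs v + prf h s₀ M v (ω i) τ :=
  gl_eq H.hv H.p0 H.p1 hi hτ0 hτ1

/-- The height above `φ` in local coordinates. -/
lemma loc (H : RowOf k h s₀ L M v D ω) {i : ℕ} (hi : i < k) {x : Site} (h0 : 1 ≤ Ts x)
    (h1 : Ts x ≤ 1 + Ts v) :
    phi k h s₀ M v ω (Ts (i • v + x)) = i * gs v + prf h s₀ M v (ω i) (Ts x - 1) ∧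
      gs (i • v + x) = i * gs v + gs x := by
  constructor
  · rw [← H.eq hi (by linarith) (by linarith), Ts_add, Ts_nsmul]
    congr 1
    ring
  · rw [gs_add, gs_nsmul]

lemma phi_one (H : RowOf k h s₀ L M v D ω) : phi k h s₀ M v ω 1 = -(13 * h) := by
  have hi : 0 < k := H.hk
  have := H.eq hi (τ := 0) le_rfl H.hv.le
  rw [H.p0 0 hi] at this
  simpa using this

/-- Exits are deep. -/
lemma exit_deep (H : RowOf k h s₀ L M v D ω) {i m : ℕ} (hi : i < k) (hm : m < D.length) :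
    phi k h s₀ M v ω (Ts (i • v + Db D m)) + h ≤ gs (i • v + Db D m) ∧
      1 ≤ Ts (Db D m) ∧ Ts (Db D m) ≤ 1 + Ts v ∧ |gs (Db D m)| ≤ 10 * L := by
  obtain ⟨h1, -, h3⟩ := stations (H.tile i hi) hm
  obtain ⟨g1, g2, g3, g4⟩ := exit_depth (H.path hi) H.hh1 H.hhL
    (ρ := rhoT h s₀ M (ω i)) (by linarith [H.rho0 hi]) (H.rho2 hi) h1 h3
  obtain ⟨e1, e2⟩ := H.loc hi g2 g3
  refine ⟨?_, g2, g3, g4⟩
  rw [e1, e2]
  unfold prf
  linarith

/-- Entrances are deep. -/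
lemma ent_deep (H : RowOf k h s₀ L M v D ω) {i m : ℕ} (hi : i < k) (hm : m < D.length) :
    4 * phi k h s₀ M v ω (Ts (i • v + Da D m)) + h ≤ 4 * gs (i • v + Da D m) ∧
      1 ≤ Ts (Da D m) ∧ Ts (Da D m) ≤ 1 + Ts v ∧ |gs (Da D m)| ≤ 10 * L := by
  obtain ⟨h1, h2, -⟩ := stations (H.tile i hi) hm
  obtain ⟨g1, g2, g3, g4⟩ := ent_depth (H.path hi) H.hh H.hhL
    (ρ := rhoT h s₀ M (ω i)) (by linarith [H.rho0 hi]) (H.rho2 hi) h1.2.1 h2
  obtain ⟨e1, e2⟩ := H.loc hi g2 g3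
  refine ⟨?_, g2, g3, g4⟩
  rw [e1, e2]
  unfold prf
  linarith

/-- Visits of the excursions. -/
lemma mem_vis {x : Site} :
    x ∈ (allExc k v ω).flatMap List.dropLast ↔ ∃ i < k, x - i • v ∈ visits (ω i).2 := by
  unfold allExc visits
  simp only [List.mem_flatMap, List.mem_range, List.mem_map]
  constructor
  · rintro ⟨e, ⟨i, hi, e', he', rfl⟩, hx⟩
    refine ⟨i, hi, e', he', ?_⟩
    rw [← List.map_dropLast, List.mem_map] at hx
    obtain ⟨y, hy, rfl⟩ := hx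
    simpa using hy
  · rintro ⟨i, hi, e', he', hx⟩
    refine ⟨_, ⟨i, hi, e', he', rfl⟩, ?_⟩
    rw [← List.map_dropLast, List.mem_map]
    exact ⟨_, hx, by simp⟩

lemma vis_zz (H : RowOf k h s₀ L M v D ω) {i : ℕ} (hi : i < k) {x : Site}
    (hx : x ∈ visits (ω i).2) : x ∈ Zz (ω i).1 h := by
  unfold visits at hx
  rw [List.mem_flatMap] at hx
  obtain ⟨e, he, hx⟩ := hx
  obtain ⟨a, b, h1, -, -⟩ := (H.tile i hi).2.2.1 e he
  exact h1.2.2.2 x hx

/-- Visits of the excursions are in the inner zones or in the domain. -/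
lemma vis_cases (H : RowOf k h s₀ L M v D ω) {x : Site}
    (hx : x ∈ (allExc k v ω).flatMap List.dropLast) :
    1 ≤ Ts x ∧ Ts x ≤ 1 + k * Ts v ∧ |gs x - phi k h s₀ M v ω (Ts x)| ≤ 20 * L ∧
      (x ∈ Cu k v h ω ∨ UU (phi k h s₀ M v ω) x) := by
  obtain ⟨i, hi, hx⟩ := mem_vis.1 hx
  have hz := H.vis_zz hi hx
  obtain ⟨z1, z2, z3⟩ := zz_bound (H.path hi) H.hh1 H.hhL hz
  have hxe : x = i • v + (x - i • v) := by abel
  obtain ⟨e1, e2⟩ := H.loc hi z1.le z2.le
  have hTx : Ts (x - i • v) = Ts x - i * Ts v := by rw [Ts_sub, Ts_nsmul]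
  have hv := H.hv
  have hik : (i : ℤ) + 1 ≤ k := by exact_mod_cast hi
  rw [← hxe] at e1 e2
  refine ⟨?_, ?_, ?_, ?_⟩
  · rw [hTx] at z1
    have : 0 ≤ (i : ℤ) * Ts v := by positivity
    linarith
  · rw [hTx] at z2
    nlinarith
  · rw [e1, e2]
    have h5 := H.pbd i hi (Ts (x - i • v) - 1) (by linarith) (by linarith)
    have h6 : (i : ℤ) * gs v + gs (x - i • v) - (i * gs v + prf h s₀ M v (ω i) (Ts (x - i • v) - 1))
        = gs (x - i • v) - prf h s₀ M v (ω i) (Ts (x - i • v) - 1) := by ring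
    rw [h6]
    refine (abs_sub _ _).trans ?_
    linarith
  · by_cases hc : x - i • v ∈ Cz (ω i).1 h
    · left
      exact ⟨i, hi, hc⟩
    · right
      left
      have h7 := zone_depth (H.path hi) H.hh1 H.hhL (ρ := rhoT h s₀ M (ω i))
        (by linarith [H.rho0 hi]) (H.rho2 hi) hz hc
      rw [e1, e2]
      unfold prf
      have := H.hh
      linarith

open Classical in
/-- The unvisited part of the layer. -/
lemma layer (H : RowOf k h s₀ L M v D ω) (hs : 1 ≤ s₀) (hsh : 2 * s₀ ≤ h) :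
    ∃ Y : Finset Site, (∀ y ∈ Y, UU (phi k h s₀ M v ω) y ∧ 1 ≤ Ts y ∧ Ts y ≤ 1 + k * Ts v ∧
        gs y < phi k h s₀ M v ω (Ts y) + s₀) ∧
      (∀ y, UU (phi k h s₀ M v ω) y → 1 ≤ Ts y → Ts y ≤ 1 + k * Ts v →
        gs y < phi k h s₀ M v ω (Ts y) + s₀ →
        ¬ (y ∈ Cu k v h ω ∧ y ∈ (allExc k v ω).flatMap List.dropLast) → y ∈ Y) ∧
      (Y.card : ℤ) ≤ k * (M + 200 * h * s₀) := by
  have h1 : ∀ i : ℕ, ∃ Y : Finset Site, i < k → (∀ x : Site, 1 ≤ Ts x → Ts x ≤ 1 + Ts v →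
      prf h s₀ M v (ω i) (Ts x - 1) + 1 ≤ gs x → gs x < prf h s₀ M v (ω i) (Ts x - 1) + s₀ →
      ¬ (x ∈ Cz (ω i).1 h ∧ x ∈ visits (ω i).2) → x ∈ Y) ∧ (Y.card : ℤ) ≤ M + 200 * h * s₀ := by
    intro i
    by_cases hi : i < k
    · obtain ⟨Y, hY⟩ := layer_count (H.path hi) H.hh1 H.hhL (H.rho0 hi) (H.rho2 hi) hs hsh
        (rhoT_spec (H.tile i hi)).2.2
      exact ⟨Y, fun _ => hY⟩
    · exact ⟨∅, fun h => absurd h hi⟩
  choose Y hY using h1
  set Z : Finset Site := (Finset.range k).biUnion (fun i => (Y i).image (fun x => i • v + x))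
    with hZ
  refine ⟨Z.filter (fun y => UU (phi k h s₀ M v ω) y ∧ 1 ≤ Ts y ∧ Ts y ≤ 1 + k * Ts v ∧
        gs y < phi k h s₀ M v ω (Ts y) + s₀), ?_, ?_, ?_⟩
  · intro y hy
    exact (Finset.mem_filter.1 hy).2
  · intro y hU h0 h1 hg hnot
    rw [Finset.mem_filter]
    refine ⟨?_, hU, h0, h1, hg⟩
    obtain ⟨i, hi, τ, hτ0, hτ1, hT⟩ := exists_tile H.hk H.hv h0 h1
    rw [hZ, Finset.mem_biUnion]
    refine ⟨i, Finset.mem_range.2 hi, ?_⟩
    rw [Finset.mem_image]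
    refine ⟨y - i • v, ?_, by abel⟩
    have hTy : Ts (y - i • v) = 1 + τ := by rw [Ts_sub, Ts_nsmul, hT]; ring
    have hye : i • v + (y - i • v) = y := by abel
    obtain ⟨e1, e2⟩ := H.loc hi (x := y - i • v) (by rw [hTy]; linarith) (by rw [hTy]; linarith)
    rw [hye] at e1 e2
    have hlow := UU_lower H.lip hU
    apply (hY i hi).1 _ (by rw [hTy]; linarith) (by rw [hTy]; linarith)
    · linarith
    · linarith
    · rintro ⟨hc, hvis⟩
      exact hnot ⟨⟨i, hi, hc⟩, mem_vis.2 ⟨i, hi, hvis⟩⟩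
  · have h2 : (Z.card : ℤ) ≤ k * (M + 200 * h * s₀) := by
      have h3 : (Z.card : ℤ) ≤ ∑ i ∈ Finset.range k, ((Y i).card : ℤ) := by
        have h4 : Z.card ≤ ∑ i ∈ Finset.range k, (Y i).card := by
          refine Finset.card_biUnion_le.trans (Finset.sum_le_sum fun i _ => Finset.card_image_le)
        exact_mod_cast h4
      refine h3.trans ?_
      have h5 : ∑ i ∈ Finset.range k, ((Y i).card : ℤ) ≤ ∑ i ∈ Finset.range k, (M + 200 * h * s₀) :=
        Finset.sum_le_sum fun i hi => (hY i (Finset.mem_range.1 hi)).2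
      refine h5.trans (le_of_eq ?_)
      rw [Finset.sum_const, Finset.card_range, nsmul_eq_mul]
    refine le_trans ?_ h2
    exact_mod_cast Finset.card_filter_le _ _

end RowOf

end Pool.Agent.TR90
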