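import Pool.Agent.TR90.CovChain
import Pool.Agent.TR90.MainA

/-!
# TR90, module MainB: tours and travels of a row
-/

open MeasureTheory Filter Topology
open scoped NNReal ENNReal

namespace Pool.Agent.TR90

open Pool.Agent.LT Pool.Agent.WSB71

lemma Wg_anti {β : ℝ} (hβ : 0 ≤ β) {B B' : Set Site} (l : List Site) (hB : ∀ x ∈ l, x ∈ B → x ∈ B') :
    Wg β 0 B' l ≤ Wg β 0 B l := by
  classical
  unfold Wg
  apply Finset.prod_le_prod' (fun x hx => ?_)
  have hx' : x ∈ l := List.mem_toFinset.1 hx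
  have hn : 1 ≤ l.count x := List.count_pos_iff.2 hx'
  by_cases h : x ∈ B
  · rw [if_pos h, if_pos (hB x hx' h)]
  · rw [if_neg h]
    split_ifs
    · exact gw_le_fw hβ (by norm_num) hn
    · exact le_rfl

lemma tsum_finite_set {α : Type*} {S : Set α} (hS : S.Finite) (f : α → ℝ≥0∞) :
    ∑' x : S, f x = ∑ x ∈ hS.toFinset, f x := by
  classical
  rw [tsum_subtype S f, tsum_eq_sum (s := hS.toFinset)]
  · apply Finset.sum_congr rfl
    intro x hx
    rw [Set.indicator_of_mem (hS.mem_toFinset.1 hx)]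
  · intro x hx
    rw [Set.indicator_of_notMem (fun h => hx (hS.mem_toFinset.2 h))]

/-- The property of the tours. -/
def TourProp (Ct : ℝ) (i0 I : ℕ) (β : ℝ) (H : ℕ) (C' : ℝ) : Prop :=
  ∀ φ : ℤ → ℤ, Lip2 φ → ∀ (T0 : ℤ) (W : ℕ) (Y : Finset Site),
      (∀ y ∈ Y, UU φ y ∧ T0 ≤ Ts y ∧ Ts y ≤ T0 + W ∧ gs y < φ (Ts y) + 2 ^ i0) →
      ∃ A R : Finset Site,
        (∀ x ∈ A, UU φ x ∧ T0 - H ≤ Ts x ∧ Ts x ≤ T0 + W + H ∧ gs x ≤ φ (Ts x) + H) ∧
        Y ⊆ R ∧
        (∀ x : Site, T0 ≤ Ts x → Ts x ≤ T0 + W → φ (Ts x) + 2 ^ i0 ≤ gs x →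
          gs x ≤ φ (Ts x) + 2 ^ I → x ∈ R) ∧
        Cov A R β (C' * (W + 1 + Y.card)) (pt T0 (φ T0 + 2 ^ I)) (pt T0 (φ T0 + 2 ^ I))
          (Ct * β * W / Real.sqrt (2 ^ i0) + C' + Y.card * (4 * β + Ct * 2 ^ i0))

variable {h : ℤ} {L M : ℕ} {v : Site} {D : List (Option Site × Option Site)}

/-- The tours of a row. -/
lemma tour_for {μ : Measure WP} (hμ : IsLaw μ) {Ct β C' : ℝ} {i0 I H : ℕ}
    (hT : TourProp Ct i0 I β H C') (hCt : 1 ≤ Ct) (hC' : 0 ≤ C') (hβ : 1 ≤ β)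
    {k : ℕ} {ω : ℕ → List Site × List (List Site)}
    (HR : RowOf k h (2 ^ i0) L M v D ω) (hsh : 2 * 2 ^ i0 ≤ h) {nm : ℕ} {y ct : ℝ}
    (hy : (k : ℝ) * (M + 200 * h * 2 ^ i0) ≤ y)
    (hct : Ct * β * (k * Ts v) / Real.sqrt (2 ^ i0) + C' + y * (4 * β + Ct * 2 ^ i0) ≤ ct)
    (hnm : 32 * (C' * (k * Ts v + 1 + y) + ct + 1) + 3 ≤ nm) :
    ∃ (A R : Finset Site) (U : Finset (List Site)),
      (∀ x ∈ A, UU (phi k h (2 ^ i0) M v ω) x ∧ 1 - (H : ℤ) ≤ Ts x ∧ Ts x ≤ 1 + k * Ts v + H ∧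
        gs x ≤ phi k h (2 ^ i0) M v ω (Ts x) + H) ∧
      (∀ x, UU (phi k h (2 ^ i0) M v ω) x → 1 ≤ Ts x → Ts x ≤ 1 + k * Ts v →
        gs x ≤ phi k h (2 ^ i0) M v ω (Ts x) + 2 ^ I →
        (phi k h (2 ^ i0) M v ω (Ts x) + 2 ^ i0 ≤ gs x ∨
          ¬ (x ∈ Cu k v h ω ∧ x ∈ (allExc k v ω).flatMap List.dropLast)) → x ∈ R) ∧
      (∀ t ∈ U, t.IsChain Adj ∧ t.head? = some (pt 1 (-(13 * h) + 2 ^ I)) ∧
        t.getLast? = some (pt 1 (-(13 * h) + 2 ^ I)) ∧ (∀ z ∈ t, z ∈ A) ∧ (∀ z ∈ R, z ∈ t) ∧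
        t.length ≤ nm) ∧
      ENNReal.ofReal (Real.exp (-(ct + 5))) ≤ ∑ t ∈ U, Wg β 0 (R : Set Site) t := by
  classical
  have h20 : (1 : ℤ) ≤ 2 ^ i0 := one_le_pow₀ (by norm_num)
  obtain ⟨Y, hY1, hY2, hY3⟩ := HR.layer h20 hsh
  have hv := HR.hv
  have hkv : 0 ≤ (k : ℤ) * Ts v := by positivity
  set W : ℕ := ((k : ℤ) * Ts v).toNat with hW
  have hWz : (W : ℤ) = k * Ts v := Int.toNat_of_nonneg hkv
  have hWr : (W : ℝ) = k * Ts v := by exact_mod_cast hWz
  obtain ⟨A, R, hA, hYR, hR, hcov⟩ := hT (phi k h (2 ^ i0) M v ω) HR.lip 1 W Y (by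
    intro y hy
    obtain ⟨g1, g2, g3, g4⟩ := hY1 y hy
    exact ⟨g1, g2, by rw [hWz]; exact g3, g4⟩)
  rw [HR.phi_one] at hcov
  have hYc : (Y.card : ℝ) ≤ y := by
    refine le_trans ?_ hy
    exact_mod_cast hY3
  have hy0 : 0 ≤ y := le_trans (Nat.cast_nonneg _) hYc
  have hs0 : 0 < Real.sqrt (2 ^ i0) := Real.sqrt_pos.2 (by positivity)
  have hct0 : 0 ≤ ct := by
    refine le_trans ?_ hct
    have : (0 : ℝ) ≤ k * Ts v := by rw [← hWr]; positivity
    positivity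
  have hvr : (0 : ℝ) ≤ k * Ts v := by rw [← hWr]; positivity
  have hcov2 := hcov.mono (c' := ct) (τ' := C' * (k * Ts v + 1 + y)) (le_refl _) (le_refl _)
    le_rfl (by rw [hWr]; gcongr) (by
      refine le_trans ?_ hct
      rw [hWr]
      gcongr)
  have hch := cov_chain hμ (by linarith) (by positivity) hct0 hcov2 (n := nm) hnm
  have hfin : {l : List Site | l.IsChain Adj ∧ l.head? = some (pt 1 (-(13 * h) + 2 ^ I)) ∧
      l.getLast? = some (pt 1 (-(13 * h) + 2 ^ I)) ∧ (∀ z ∈ l, z ∈ A) ∧ (∀ z ∈ R, z ∈ l) ∧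
      l.length ≤ nm}.Finite := by
    apply (TC.finite_lists A nm).subset
    rintro l ⟨-, -, -, g4, -, g6⟩
    exact ⟨g6, g4⟩
  refine ⟨A, R, hfin.toFinset, ?_, ?_, ?_, ?_⟩
  · intro x hx
    obtain ⟨g1, g2, g3, g4⟩ := hA x hx
    rw [hWz] at g3
    exact ⟨g1, g2, g3, g4⟩
  · intro x hU h0 h1 hg hor
    by_cases hd : phi k h (2 ^ i0) M v ω (Ts x) + 2 ^ i0 ≤ gs x
    · exact hR x h0 (by rw [hWz]; exact h1) hd hg
    · rcases hor with h2 | h2
      · exact absurd h2 hd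
      · push Not at hd
        exact hYR (hY2 x hU h0 h1 hd h2)
  · intro t ht
    exact hfin.mem_toFinset.1 ht
  · exact hch.trans (le_of_eq (tsum_finite_set hfin _))

/-- The property of the travels. -/
def TravelProp (Cv : ℝ) : Prop :=
  ∀ r P : ℕ, 64 ≤ r → 1 ≤ P → ∀ a b : Site,
    |Ts a - Ts b| ≤ P * r → |gs a - gs b| ≤ P * r → ∃ A : Finset Site,
      (∀ y ∈ A, (2 * |Ts y - Ts a| ≤ gs y - gs a + r ∨ 2 * |Ts y - Ts b| ≤ gs y - gs b + r) ∧
        |Ts y - Ts a| ≤ 10 * P * r ∧ |gs y - gs a| ≤ 10 * P * r) ∧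
      Cov A ∅ 1 (Cv * P * r ^ 2) a b (Cv * P * (1 + Real.log r))

/-- The cost of a travel, without the logarithm. -/
noncomputable def KP (Cv : ℝ) (P : ℕ) : ℝ := Cv * P + 7 + Real.log (101 * Cv * P)

lemma KP_nonneg {Cv : ℝ} (hCv : 1 ≤ Cv) {P : ℕ} (hP : 1 ≤ P) : 0 ≤ KP Cv P := by
  unfold KP
  have h1 : (1 : ℝ) ≤ P := by exact_mod_cast hP
  have h2 : 1 ≤ 101 * Cv * P := by nlinarith
  have := Real.log_nonneg h2
  positivity

lemma travel_one {μ : Measure WP} (hμ : IsLaw μ) {Cv : ℝ} (hCv : 1 ≤ Cv) (hT : TravelProp Cv)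
    {r P : ℕ} (hr : 64 ≤ r) (hP : 1 ≤ P) {a b : Site} (hab : a ≠ b)
    (h1 : |Ts a - Ts b| ≤ P * r) (h2 : |gs a - gs b| ≤ P * r) :
    ∃ (A : Finset Site) (n : ℕ) (V : Finset (List Site)),
      (∀ y ∈ A, (2 * |Ts y - Ts a| ≤ gs y - gs a + r ∨ 2 * |Ts y - Ts b| ≤ gs y - gs b + r) ∧
        |Ts y - Ts a| ≤ 10 * P * r ∧ |gs y - gs a| ≤ 10 * P * r) ∧
      2 ≤ n ∧ (n : ℝ) ≤ 101 * Cv * P * r ^ 2 ∧
      (∀ l ∈ V, l.IsChain Adj ∧ l.head? = some a ∧ l.getLast? = some b ∧ (∀ z ∈ l, z ∈ A) ∧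
        l.length = n) ∧
      ENNReal.ofReal (Real.exp (-(KP Cv P * (1 + Real.log r)))) ≤ (V.card : ℝ≥0∞) * fw 0 n := by
  obtain ⟨A, hA, hcov⟩ := hT r P hr hP a b h1 h2
  have hP' : (1 : ℝ) ≤ P := by exact_mod_cast hP
  have hr' : (64 : ℝ) ≤ r := by exact_mod_cast hr
  have hlog : 0 ≤ Real.log r := Real.log_nonneg (by linarith)
  have hlr : 1 + Real.log r ≤ r := by
    have := Real.log_le_sub_one_of_pos (show (0 : ℝ) < r by linarith)
    linarith
  have hCP : 1 ≤ Cv * P := by nlinarith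
  obtain ⟨n, hn2, hn, V, hV, hm⟩ := cov_travel hμ hab (by positivity) (by positivity) hcov
  have hr2 : (r : ℝ) ≤ r ^ 2 := by nlinarith
  have hbig : 32 * (Cv * P * r ^ 2 + Cv * P * (1 + Real.log r) + 1) + 5 ≤ 101 * Cv * P * r ^ 2 := by
    have e1 : Cv * P * (1 + Real.log r) ≤ Cv * P * r ^ 2 := by
      apply mul_le_mul_of_nonneg_left _ (by positivity)
      linarith
    have e2 : (64 : ℝ) ^ 2 ≤ r ^ 2 := by gcongr
    have e3 : r ^ 2 ≤ Cv * P * r ^ 2 := by nlinarith [sq_nonneg (r : ℝ)]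
    nlinarith
  refine ⟨A, n, V, hA, hn2, by linarith, hV, ?_⟩
  have hfw : (V.card : ℝ≥0∞) * fw 0 n = ENNReal.ofReal (V.card * (1 / 4 : ℝ) ^ n) := by
    unfold fw
    rw [ENNReal.ofReal_mul (by positivity), ENNReal.ofReal_natCast,
      ENNReal.ofReal_pow (by norm_num)]
    norm_num
  rw [hfw]
  apply ENNReal.ofReal_le_ofReal
  refine le_trans ?_ hm
  set X := 32 * (Cv * P * r ^ 2 + Cv * P * (1 + Real.log r) + 1) + 5 with hX
  have hXpos : 0 < X := by positivity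
  have hlogX : Real.log X ≤ Real.log (101 * Cv * P) + 2 * Real.log r := by
    calc Real.log X ≤ Real.log (101 * Cv * P * r ^ 2) := Real.log_le_log hXpos hbig
      _ = Real.log (101 * Cv * P) + 2 * Real.log r := by
        rw [Real.log_mul (by positivity) (by positivity), Real.log_pow]
        norm_num
  have hl0 : 0 ≤ Real.log (101 * Cv * P) := Real.log_nonneg (by nlinarith)
  rw [div_eq_mul_inv, ← Real.exp_log hXpos, ← Real.exp_neg, ← Real.exp_add]
  apply Real.exp_le_exp.2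
  unfold KP
  nlinarith

/-- The starting points of the travels. -/
def qR (x0 v : Site) (D : List (Option Site × Option Site)) : ℕ → Site
  | 0 => x0
  | r + 1 => (r / D.length) • v + Db D (r % D.length)

/-- The end points of the travels. -/
def aR (v : Site) (D : List (Option Site × Option Site)) (r : ℕ) : Site :=
  (r / D.length) • v + Da D (r % D.length)

lemma idx {k n r : ℕ} (hr : r < k * n) : 0 < n ∧ r / n < k ∧ r % n < n := by
  have hn : 0 < n := by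
    rcases Nat.eq_zero_or_pos n with h | h
    · subst h; simp at hr
    · exact h
  exact ⟨hn, Nat.div_lt_of_lt_mul (by rw [mul_comm]; exact hr), Nat.mod_lt _ hn⟩

/-- The travels of a row. -/
lemma travel_for {μ : Measure WP} (hμ : IsLaw μ) {Cv : ℝ} (hCv : 1 ≤ Cv) (hT : TravelProp Cv)
    {i0 I k r' Λ : ℕ} (F : Set (ℕ → List Site × List (List Site)))
    (hF : ∀ ω ∈ F, RowOf k h (2 ^ i0) L M v D ω) (hFne : F.Nonempty)
    (hr' : 64 ≤ r') (hh : h = 8 * r') (hL : L = Λ * (8 * r')) (hΛ : 1 ≤ Λ)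
    (hI : 30 * L ≤ 2 ^ I) :
    ∃ (V : ℕ → Finset (List Site)) (n : ℕ → ℕ), ∀ r < k * D.length,
      2 ≤ n r ∧ (n r : ℝ) ≤ 101 * Cv * (200 * Λ + 2 ^ I : ℕ) * r' ^ 2 ∧
      (∀ τ ∈ V r, τ.IsChain Adj ∧ τ.head? = some (qR (pt 1 (-(13 * h) + 2 ^ I)) v D r) ∧
        τ.getLast? = some (aR v D r) ∧ τ.length = n r ∧
        ∀ z ∈ τ, ∀ ω ∈ F, UU (phi k h (2 ^ i0) M v ω) z ∧
          1 - (30 * (200 * Λ + 2 ^ I) * r' : ℤ) ≤ Ts z ∧
          Ts z ≤ 1 + k * Ts v + 30 * (200 * Λ + 2 ^ I) * r' ∧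
          |gs z - phi k h (2 ^ i0) M v ω (Ts z)| ≤
            30 * (200 * Λ + 2 ^ I) * r' + 20 * L + 2 ^ I) ∧
      ENNReal.ofReal (Real.exp (-(KP Cv (if r = 0 then 200 * Λ + 2 ^ I else 200 * Λ)
        * (1 + Real.log r')))) ≤ ((V r).card : ℝ≥0∞) * fw 0 (n r) := by
  obtain ⟨ω₀, hω₀⟩ := hFne
  have HR₀ := hF ω₀ hω₀
  set x0 : Site := pt 1 (-(13 * h) + 2 ^ I) with hx0
  have hv := HR₀.hv
  have hvb := v_bounds (HR₀.path (Nat.lt_of_lt_of_le Nat.zero_lt_one HR₀.hk))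
  have hr'z : (64 : ℤ) ≤ r' := by exact_mod_cast hr'
  have hLz : (L : ℤ) = Λ * (8 * r') := by exact_mod_cast hL
  have hΛz : (1 : ℤ) ≤ Λ := by exact_mod_cast hΛ
  have hIz : (30 * L : ℤ) ≤ 2 ^ I := by exact_mod_cast hI
  have hrL : (r' : ℤ) * 8 ≤ L := by rw [hLz]; nlinarith
  have hx0T : Ts x0 = 1 := Ts_pt _ _
  have hx0g := gs_pt 1 (-(13 * h) + 2 ^ I)
  rw [← hx0] at hx0g
  -- stations
  have hq : ∀ r < k * D.length, ∀ ω ∈ F,
      phi k h (2 ^ i0) M v ω (Ts (qR x0 v D r)) + r' + 2 ≤ gs (qR x0 v D r) ∧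
      |gs (qR x0 v D r) - phi k h (2 ^ i0) M v ω (Ts (qR x0 v D r))| ≤ 20 * L + 2 ^ I ∧
      1 ≤ Ts (qR x0 v D r) ∧ Ts (qR x0 v D r) ≤ 1 + k * Ts v := by
    intro r hr ω hω
    have HR := hF ω hω
    cases r with
    | zero =>
      simp only [qR]
      rw [hx0T, HR.phi_one]
      refine ⟨by linarith, ?_, le_rfl, ?_⟩
      · rw [abs_le]
        constructor <;> linarith
      · have : 0 ≤ (k : ℤ) * Ts v := by positivity
        linarith
    | succ r =>
      simp only [qR]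
      obtain ⟨i1, i2, i3⟩ := idx (show r < k * D.length by omega)
      obtain ⟨g1, g2, g3, g4⟩ := HR.exit_deep i2 i3
      obtain ⟨e1, e2⟩ := HR.loc i2 g2 g3
      have hp := HR.pbd _ i2 (Ts (Db D (r % D.length)) - 1) (by linarith) (by linarith)
      have hik : ((r / D.length : ℕ) : ℤ) + 1 ≤ k := by exact_mod_cast i2
      have hi0 : (0 : ℤ) ≤ ((r / D.length : ℕ) : ℤ) := by positivity
      refine ⟨by linarith, ?_, ?_, ?_⟩
      · rw [e1, e2]
        rw [abs_le] at g4 hp ⊢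
        constructor <;> linarith [g4.1, g4.2, hp.1, hp.2]
      · rw [Ts_add, Ts_nsmul]
        have : 0 ≤ ((r / D.length : ℕ) : ℤ) * Ts v := by positivity
        linarith
      · rw [Ts_add, Ts_nsmul]
        nlinarith
  have ha : ∀ r < k * D.length, ∀ ω ∈ F,
      phi k h (2 ^ i0) M v ω (Ts (aR v D r)) + r' + 2 ≤ gs (aR v D r) := by
    intro r hr ω hω
    have HR := hF ω hω
    obtain ⟨i1, i2, i3⟩ := idx hr
    obtain ⟨g1, -, -, -⟩ := HR.ent_deep i2 i3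
    unfold aR
    linarith
  have hdist : ∀ r < k * D.length, qR x0 v D r ≠ aR v D r ∧
      |Ts (qR x0 v D r) - Ts (aR v D r)|
        ≤ ((if r = 0 then 200 * Λ + 2 ^ I else 200 * Λ : ℕ) : ℤ) * r' ∧
      |gs (qR x0 v D r) - gs (aR v D r)|
        ≤ ((if r = 0 then 200 * Λ + 2 ^ I else 200 * Λ : ℕ) : ℤ) * r' := by
    intro r hr
    obtain ⟨i1, i2, i3⟩ := idx hr
    obtain ⟨-, a2, a3, a4⟩ := HR₀.ent_deep i2 i3
    have ha1 := (stations (HR₀.tile _ i2) i3).1.2.1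
    rw [abs_le] at a4
    cases r with
    | zero =>
      simp only [if_true, qR]
      rw [Nat.zero_div, Nat.zero_mod] at *
      have hae : aR v D 0 = Da D 0 := by
        unfold aR
        rw [Nat.zero_div, Nat.zero_mod, zero_smul, zero_add]
      rw [hae, hx0T]
      push_cast
      have h2I : (0 : ℤ) ≤ 2 ^ I := by positivity
      have hprod : (2 : ℤ) ^ I ≤ 2 ^ I * r' := le_mul_of_one_le_right h2I (by linarith)
      refine ⟨?_, ?_, ?_⟩
      · intro h'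
        rw [← h'] at a4
        linarith [a4.2]
      · rw [abs_le]
        constructor <;> linarith [hvb.2.1]
      · rw [abs_le]
        constructor <;> linarith [a4.1, a4.2, hx0g.1, hx0g.2]
    | succ r =>
      simp only [Nat.succ_ne_zero, if_false, qR]
      obtain ⟨j1, j2, j3⟩ := idx (show r < k * D.length by omega)
      obtain ⟨-, b2, b3, b4⟩ := HR₀.exit_deep j2 j3
      have hb1 := (stations (HR₀.tile _ j2) j3).1.2.2.1
      rw [abs_le] at b4
      have hcases : (r + 1) / D.length = r / D.length ∨ (r + 1) / D.length = r / D.length + 1 := by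
        have h1 : r / D.length ≤ (r + 1) / D.length := Nat.div_le_div_right (by omega)
        have h2 : (r + 1) / D.length ≤ r / D.length + 1 := by
          rw [Nat.div_le_iff_le_mul_add_pred i1]
          have := Nat.div_add_mod r D.length
          have h3 := Nat.mod_lt r i1
          have h4 : D.length * (r / D.length + 1) = D.length * (r / D.length) + D.length := by ring
          omega
        omega
      have hgv := abs_le.1 hvb.2.2.1
      have hTf := hvb.2.2.2.1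
      unfold aR
      rw [Ts_add, Ts_add, Ts_nsmul, Ts_nsmul, gs_add, gs_add, gs_nsmul, gs_nsmul]
      rcases hcases with hc | hc
      · rw [hc] at ha1 ⊢
        refine ⟨?_, ?_, ?_⟩
        · intro h'
          have h'' := add_left_cancel h'
          apply hb1
          rw [h'']
          exact TC.cz_sub_zz HR₀.hh1 ha1
        · rw [abs_le]
          push_cast
          constructor <;> linarith [hvb.2.1]
        · rw [abs_le]
          push_cast
          constructor <;> linarith [a4.1, a4.2, b4.1, b4.2]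
      · rw [hc]
        refine ⟨?_, ?_, ?_⟩
        · intro h'
          have h1 := congrArg Ts h'
          rw [Ts_add, Ts_add, Ts_nsmul, Ts_nsmul] at h1
          push_cast at h1
          have h2 : Tfst (ω₀ ((r + 1) / D.length)).1 + 8 * h ≤ Ts (Da D ((r + 1) % D.length)) :=
            ha1.2.1
          have h3 := (v_bounds (HR₀.path i2)).2.2.2.1
          rw [h3] at h2
          have := HR₀.hh
          linarith
        · rw [abs_le]
          push_cast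
          constructor <;> linarith [hvb.2.1]
        · rw [abs_le]
          push_cast
          constructor <;> linarith [a4.1, a4.2, b4.1, b4.2, hgv.1, hgv.2]
  -- the travels
  have key : ∀ r : ℕ, ∃ (V : Finset (List Site)) (n : ℕ), r < k * D.length →
      2 ≤ n ∧ (n : ℝ) ≤ 101 * Cv * (200 * Λ + 2 ^ I : ℕ) * r' ^ 2 ∧
      (∀ τ ∈ V, τ.IsChain Adj ∧ τ.head? = some (qR x0 v D r) ∧
        τ.getLast? = some (aR v D r) ∧ τ.length = n ∧
        ∀ z ∈ τ, ∀ ω ∈ F, UU (phi k h (2 ^ i0) M v ω) z ∧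
          1 - (30 * (200 * Λ + 2 ^ I) * r' : ℤ) ≤ Ts z ∧
          Ts z ≤ 1 + k * Ts v + 30 * (200 * Λ + 2 ^ I) * r' ∧
          |gs z - phi k h (2 ^ i0) M v ω (Ts z)| ≤
            30 * (200 * Λ + 2 ^ I) * r' + 20 * L + 2 ^ I) ∧
      ENNReal.ofReal (Real.exp (-(KP Cv (if r = 0 then 200 * Λ + 2 ^ I else 200 * Λ)
        * (1 + Real.log r')))) ≤ (V.card : ℝ≥0∞) * fw 0 n := by
    intro r
    by_cases hr : r < k * D.length
    swap
    · exact ⟨∅, 0, fun h => absurd h hr⟩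
    obtain ⟨hne, hd1, hd2⟩ := hdist r hr
    obtain ⟨A, n, V, hA, hn2, hn, hV, hm⟩ := travel_one hμ hCv hT hr'
      (P := if r = 0 then 200 * Λ + 2 ^ I else 200 * Λ) (by split_ifs <;> omega) hne hd1 hd2
    have hPle : (if r = 0 then 200 * Λ + 2 ^ I else 200 * Λ) ≤ 200 * Λ + 2 ^ I := by
      split_ifs
      · exact le_rfl
      · exact Nat.le_add_right _ _
    refine ⟨V, n, fun _ => ⟨hn2, ?_, ?_, hm⟩⟩
    · refine hn.trans ?_
      have : (((if r = 0 then 200 * Λ + 2 ^ I else 200 * Λ : ℕ)) : ℝ) ≤ (200 * Λ + 2 ^ I : ℕ) := by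
        exact_mod_cast hPle
      gcongr
    · intro τ hτ
      obtain ⟨v1, v2, v3, v4, v5⟩ := hV τ hτ
      refine ⟨v1, v2, v3, v5, ?_⟩
      intro z hz ω hω
      have HR := hF ω hω
      obtain ⟨c1, c2, c3⟩ := hA z (v4 z hz)
      obtain ⟨q1, q2, q3, q4⟩ := hq r hr ω hω
      have a1 := ha r hr ω hω
      have hPz : (((if r = 0 then 200 * Λ + 2 ^ I else 200 * Λ : ℕ)) : ℤ) * r'
          ≤ (200 * Λ + 2 ^ I) * r' := by
        apply mul_le_mul_of_nonneg_right _ (by positivity)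
        exact_mod_cast hPle
      set P : ℤ := (((if r = 0 then 200 * Λ + 2 ^ I else 200 * Λ : ℕ)) : ℤ) with hP
      have hlip := HR.lip.abs_le (Ts (qR x0 v D r)) (Ts z)
      have hPr : 0 ≤ P * r' := by positivity
      rw [abs_le] at c3 q2 hlip ⊢
      have c2' := abs_le.1 c2
      refine ⟨?_, ?_, ?_, ?_, ?_⟩
      · rcases c1 with c1 | c1
        · exact cone_UU HR.lip q1 c1
        · exact cone_UU HR.lip a1 c1
      · linarith
      · linarith
      · linarith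
      · linarith
  choose V n hVn using key
  exact ⟨V, n, hVn⟩

end Pool.Agent.TR90
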