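import Pool.Agent.WSB71.FMain
import Pool.Agent.WSB71.FUnique
import Pool.Agent.WSB71.RealDef

/-!
# TR90, module Row: from a set of chains to the row event

`exists_time` (for the translated chains `l - x` and the translated set `B`), `chainOf_toFinset`, `chainOf_getLast`;
the time `s` does not depend on the law by `isLaw_unique`.
-/

open MeasureTheory Filter Topology
open scoped NNReal ENNReal

namespace Pool.Agent.TR90

open Pool.Agent.LT Pool.Agent.WSB71

/-- The set of sites with a requirement. -/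
def Bmid (v : Site) (b2 b3 : ℤ) (k : ℕ) : Set Site :=
  {z | b3 ≤ dt v z ∧ dt v z ≤ k * dt v v - b3 ∧ cr v z ≤ b2}

lemma rw_inj (x : Site) : Function.Injective (fun z : Site => z - x) := fun a b h => by
  simpa using h

/-- Translation invariance of the weight. -/
lemma rw_Wg (β lam : ℝ) (B : Set Site) (x : Site) (l : List Site) :
    Wg β lam {w | x + w ∈ B} (l.map (fun z => z - x)) = Wg β lam B l := by
  classical
  unfold Wg
  have he : (l.map (fun z => z - x)).toFinset = l.toFinset.image (fun z => z - x) := by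
    ext w
    simp
  rw [he, Finset.prod_image (fun a _ b _ h => rw_inj x h)]
  apply Finset.prod_congr rfl
  intro z _
  have hc : (l.map (fun z => z - x)).count (z - x) = l.count z :=
    List.count_map_of_injective l _ (rw_inj x) z
  have hm : (z - x ∈ {w | x + w ∈ B}) ↔ z ∈ B := by
    rw [Set.mem_ofPred_eq, add_sub_cancel]
  rw [hc]
  by_cases h : z ∈ B
  · rw [if_pos h, if_pos (hm.2 h)]
  · rw [if_neg h, if_neg (fun h' => h (hm.1 h'))]

lemma rw_adj {a b x : Site} (h : Adj a b) : Adj (a - x) (b - x) := by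
  unfold Adj at h ⊢
  simpa using h

theorem row_of_chains {β : ℝ} (hβ : 0 < β) {v : Site} {b1 b2 b3 : ℤ} {k : ℕ} {x y : Site} {n : ℕ}
    (hn : 1 ≤ n) (S : Finset (List Site))
    (hS : ∀ l ∈ S, l.IsChain Adj ∧ l.head? = some x ∧ l.getLast? = some y ∧ l.length ≤ n ∧
      (∀ z ∈ l, |cr v z| ≤ b3 ∧ -b3 ≤ dt v z ∧ dt v z ≤ k * dt v v + b3) ∧
      (∀ z ∈ Bmid v b2 b3 k, b1 ≤ cr v z → z ∈ l)) :
    ∃ s : ℝ≥0, (s : ℝ) ≤ n * (16 * (β + 1)) ∧ ∀ μ : Measure WP, IsLaw μ →
      ENNReal.ofReal (1 / (2 * (n * (16 * (β + 1))))) * ∑ l ∈ S, Wg β 0 (Bmid v b2 b3 k) l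
        ≤ μ (rowEv β v b1 b2 b3 k x y s) := by
  classical
  by_cases hex : ∃ μ : Measure WP, IsLaw μ
  swap
  · refine ⟨0, ?_, fun μ hμ => absurd ⟨μ, hμ⟩ hex⟩
    rw [NNReal.coe_zero]
    positivity
  obtain ⟨μ, hμ⟩ := hex
  set B := Bmid v b2 b3 k with hB
  set B' : Set Site := {w | x + w ∈ B} with hB'
  set τ : List Site → List Site := fun l => l.map (fun z => z - x) with hτ
  have hτi : Function.Injective τ := List.map_injective_iff.2 (rw_inj x)
  set S' : Finset (List Site) := S.image τ with hS'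
  have hT : (0 : ℝ) < n * (16 * (β + 1)) := by
    have : (0 : ℝ) < n := by exact_mod_cast hn
    positivity
  obtain ⟨s, hs, hle⟩ := exists_time hμ hβ.le hT B' (S' : Set (List Site)) (by
    intro l' hl'
    rw [hS', Finset.mem_coe, Finset.mem_image] at hl'
    obtain ⟨l, hl, rfl⟩ := hl'
    obtain ⟨h1, h2, h3, h4, -, -⟩ := hS l hl
    refine ⟨?_, ?_, ?_⟩
    · rw [hτ]
      show (l.map (fun z => z - x)).IsChain Adj
      rw [List.isChain_map]
      exact h1.imp (fun a b h => rw_adj h)
    · rw [hτ]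
      show (l.map (fun z => z - x)).head? = some 0
      rw [List.head?_map, h2]
      simp
    · have : ((τ l).length : ℝ) ≤ n := by
        rw [hτ]
        show (((l.map (fun z => z - x)).length : ℕ) : ℝ) ≤ n
        rw [List.length_map]
        exact_mod_cast h4
      gcongr)
  refine ⟨s, hs, fun ν hν => ?_⟩
  rw [isLaw_unique hν hμ]
  have hsum : ∑' l : (S' : Set (List Site)), Wg β 0 B' l = ∑ l ∈ S, Wg β 0 B l := by
    rw [Finset.tsum_subtype' S' (fun l => Wg β 0 B' l), hS', Finset.sum_image (fun a _ b _ h => hτi h)]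
    apply Finset.sum_congr rfl
    intro l _
    exact rw_Wg β 0 B x l
  rw [hsum] at hle
  refine hle.trans (measure_mono ?_)
  rintro f ⟨hf1, hf2⟩
  rw [hS', Finset.mem_coe, Finset.mem_image] at hf1
  obtain ⟨l, hl, hlf⟩ := hf1
  obtain ⟨h1, h2, h3, h4, h5, h6⟩ := hS l hl
  have hmem : ∀ z : Site, z ∈ l ↔ z - x ∈ chainOf s f := by
    intro z
    rw [← hlf, hτ]
    show z ∈ l ↔ z - x ∈ l.map (fun z => z - x)
    rw [List.mem_map_of_injective (rw_inj x)]
  have hran : ∀ u ≤ s, x + f.1 u ∈ l := by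
    intro u hu
    rw [hmem, add_sub_cancel_left, ← List.mem_toFinset, chainOf_toFinset, mem_rangeF]
    exact ⟨u, hu, rfl⟩
  refine ⟨fun u hu => h5 _ (hran u hu), ?_, ?_⟩
  · have h7 := chainOf_getLast s f
    rw [← hlf, hτ] at h7
    have h8 : (l.map (fun z => z - x)).getLast? = some (f.1 s) := h7
    rw [List.getLast?_map, h3] at h8
    have h9 : y - x = f.1 s := by simpa using h8
    rw [← h9]
    abel
  · intro z hz1 hz2 hz3 hz4
    have hzB : z ∈ B := ⟨hz1, hz2, hz3⟩
    have hzl : z ∈ l := by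
      rcases hz4 with hz4 | ⟨u, hu, rfl⟩
      · exact h6 z hzB hz4
      · exact hran u hu
    have h7 := hf2 (z - x) ((hmem z).1 hzl) (by
      rw [hB', Set.mem_ofPred_eq, add_sub_cancel]; exact hzB)
    unfold lt at h7
    have h8 : (fun w : Site => if w = z - x then (1 : ℝ) else 0) =
        fun w => if x + w = z then 1 else 0 := by
      funext w
      have : (w = z - x) ↔ (x + w = z) := by
        rw [eq_sub_iff_add_eq, add_comm]
      simp only [this]
    rw [h8] at h7
    exact h7

end Pool.Agent.TR90
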