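import Pool.Agent.TR90.MainB
import Pool.Agent.TR90.Row

/-!
# TR90, module MainC: the chains of a row
-/

open MeasureTheory Filter Topology
open scoped NNReal ENNReal

namespace Pool.Agent.TR90

open Pool.Agent.LT Pool.Agent.WSB71

/-- Extension of a finite sequence. -/
def ext0 {k : ℕ} (ω : Fin k → List Site × List (List Site)) (i : ℕ) :
    List Site × List (List Site) :=
  if hi : i < k then ω ⟨i, hi⟩ else ([], [])

lemma ext0_lt {k : ℕ} (ω : Fin k → List Site × List (List Site)) {i : ℕ} (hi : i < k) :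
    ext0 ω i = ω ⟨i, hi⟩ := dif_pos hi

lemma flatMap_range {α β : Type*} (f : α → List β) (d : α) (l : List α) :
    (List.range l.length).flatMap (fun r => f (l.getD r d)) = l.flatMap f := by
  induction l with
  | nil => rfl
  | cons x l ih =>
    rw [List.length_cons, List.range_succ_eq_map, List.flatMap_cons, List.flatMap_cons,
      List.flatMap_map]
    simp only [List.getD_cons_zero, List.getD_cons_succ]
    rw [ih]

variable {h s₀ : ℤ} {L M k : ℕ} {v : Site} {D : List (Option Site × Option Site)}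
  {ω : ℕ → List Site × List (List Site)}

lemma visE_eq (hω : ∀ i < k, Tile h s₀ L M v D (ω i)) :
    visE (k * D.length) (fun r => (allExc k v ω).getD r []) = (allExc k v ω).flatMap List.dropLast := by
  unfold visE
  rw [← allExc_length ω hω]
  exact flatMap_range List.dropLast [] _

/-- The excursion number `r`. -/
lemma exc_spec (hω : ∀ i < k, Tile h s₀ L M v D (ω i)) (x0 : Site) {r : ℕ}
    (hr : r < k * D.length) :
    ((allExc k v ω).getD r []).IsChain Adj ∧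
      ((allExc k v ω).getD r []).head? = some (aR v D r) ∧
      ((allExc k v ω).getD r []).getLast? = some (qR x0 v D (r + 1)) ∧
      qR x0 v D (r + 1) ∉ ((allExc k v ω).getD r []).dropLast := by
  obtain ⟨i1, i2, i3⟩ := idx hr
  have hre : r = r / D.length * D.length + r % D.length := by
    have := Nat.div_add_mod r D.length
    rw [mul_comm] at this
    exact this.symm
  have hg : (allExc k v ω).getD r []
      = ((ω (r / D.length)).2.getD (r % D.length) []).map (fun x => (r / D.length) • v + x) := by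
    rw [← allExc_get ω hω i2 i3, ← hre]
  obtain ⟨⟨⟨h1, h2, h3⟩, h4, h5, h6⟩, -, -⟩ := stations (hω _ i2) i3
  rw [hg]
  refine ⟨?_, ?_, ?_, ?_⟩
  · rw [List.isChain_map]
    refine h3.imp ?_
    intro a b hab
    unfold Adj at hab ⊢
    simpa using hab
  · rw [List.head?_map, h1]
    rfl
  · rw [List.getLast?_map, h2]
    rfl
  · rw [← List.map_dropLast, List.mem_map]
    rintro ⟨z, hz, hze⟩
    have : z = Db D (r % D.length) := by
      simp only [qR] at hze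
      exact add_left_cancel hze
    rw [this] at hz
    exact h5 (h6 _ hz)

lemma exc_length {N : ℕ} (hω : ∀ i < k, Tile h s₀ L M v D (ω i))
    (hN : ∀ i < k, ∀ e ∈ (ω i).2, e.length ≤ N) (r : ℕ) :
    ((allExc k v ω).getD r []).length ≤ N := by
  by_cases hr : r < (allExc k v ω).length
  · have he : (allExc k v ω).getD r [] = (allExc k v ω)[r] := by
      rw [List.getD_eq_getElem?_getD, List.getElem?_eq_getElem hr]; rfl
    rw [he]
    have hm := List.getElem_mem hr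
    unfold allExc at hm
    simp only [List.mem_flatMap, List.mem_range, List.mem_map] at hm
    obtain ⟨i, hi, e, he', hee⟩ := hm
    change _ = (allExc k v ω)[r] at hee
    rw [← hee, List.length_map]
    exact hN i hi e he'
  · have he : (allExc k v ω).getD r [] = [] := by
      rw [List.getD_eq_getElem?_getD, List.getElem?_eq_none (not_lt.1 hr)]; rfl
    rw [he]
    simp

lemma allExc_ext {ω' : ℕ → List Site × List (List Site)}
    (hω : ∀ i < k, Tile h s₀ L M v D (ω i)) (hω' : ∀ i < k, Tile h s₀ L M v D (ω' i))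
    (hE : ∀ r < k * D.length, (allExc k v ω).getD r [] = (allExc k v ω').getD r []) :
    allExc k v ω = allExc k v ω' := by
  have h1 := allExc_length (v := v) ω hω
  have h2 := allExc_length (v := v) ω' hω'
  apply List.ext_getElem (by rw [h1, h2])
  intro n hn hn'
  have := hE n (by rw [← h1]; exact hn)
  rw [List.getD_eq_getElem?_getD, List.getD_eq_getElem?_getD, List.getElem?_eq_getElem hn,
    List.getElem?_eq_getElem hn'] at this
  exact this

/-- The strip around a row. -/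
structure StripOK (h s₀ : ℤ) (L M I : ℕ) (v : Site) (D : List (Option Site × Option Site))
    (x0 : Site) (Hs b1 b2 b3 b : ℤ) : Prop where
  bd : ∀ k ω, RowOf k h s₀ L M v D ω → ∀ z : Site, 1 - Hs ≤ Ts z → Ts z ≤ 1 + k * Ts v + Hs →
    |gs z - phi k h s₀ M v ω (Ts z)| ≤ Hs → |cr v z| ≤ b ∧ -b ≤ dt v z ∧ dt v z ≤ k * dt v v + b
  inn : ∀ k ω, RowOf k h s₀ L M v D ω → ∀ z : Site, 1 ≤ Ts z → Ts z ≤ 1 + k * Ts v →
    (b1 ≤ cr v z → phi k h s₀ M v ω (Ts z) + s₀ ≤ gs z) ∧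
    (cr v z ≤ b2 → gs z ≤ phi k h s₀ M v ω (Ts z) + 2 ^ I)
  mid : ∀ (k : ℕ) (z : Site), b3 ≤ dt v z → dt v z ≤ k * dt v v - b3 →
    (|cr v z| ≤ b ∨ |cr v z| ≤ b2) → 1 ≤ Ts z ∧ Ts z ≤ 1 + k * Ts v
  hb1 : 0 ≤ b1
  hb : b ≤ b3
  x0c : |cr v x0| ≤ b3
  x0d : |dt v x0| < b3
  yc : |cr v (Db D (D.length - 1))| ≤ b3
  yd : |dt v (Db D (D.length - 1) - v)| < b3

lemma cr_add (v x y : Site) : cr v (x + y) = cr v x + cr v y := by
  unfold cr
  simp only [Prod.fst_add, Prod.snd_add]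
  ring

lemma dt_add (v x y : Site) : dt v (x + y) = dt v x + dt v y := by
  unfold dt
  simp only [Prod.fst_add, Prod.snd_add]
  ring

lemma cr_nsmul (v : Site) (i : ℕ) : cr v (i • v) = 0 := by
  unfold cr
  rw [Prod.smul_fst, Prod.smul_snd, nsmul_eq_mul, nsmul_eq_mul]
  ring

lemma dt_nsmul (v : Site) (i : ℕ) : dt v (i • v) = i * dt v v := by
  unfold dt
  rw [Prod.smul_fst, Prod.smul_snd, nsmul_eq_mul, nsmul_eq_mul]
  ring

lemma dt_nonneg (v : Site) : 0 ≤ dt v v := by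
  unfold dt
  nlinarith [sq_nonneg v.1, sq_nonneg v.2]

/-- The last site of the row. -/
lemma q_last {I : ℕ} {x0 : Site} {Hs b1 b2 b3 b : ℤ} (hS : StripOK h s₀ L M I v D x0 Hs b1 b2 b3 b)
    (hk : 1 ≤ k) :
    |cr v (qR x0 v D (k * D.length))| ≤ b3 ∧
      (|dt v (qR x0 v D (k * D.length))| < b3 ∨
        |dt v (qR x0 v D (k * D.length)) - k * dt v v| < b3) := by
  rcases Nat.eq_zero_or_pos D.length with h0 | h0
  · rw [h0, Nat.mul_zero]
    exact ⟨hS.x0c, Or.inl hS.x0d⟩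
  · obtain ⟨n, hn⟩ : ∃ n, D.length = n + 1 := ⟨D.length - 1, by omega⟩
    obtain ⟨k', rfl⟩ : ∃ k', k = k' + 1 := ⟨k - 1, by omega⟩
    have h1 : (k' + 1) * D.length = (k' * D.length + n) + 1 := by rw [hn]; ring
    have h2 : (k' * D.length + n) / D.length = k' := by
      rw [mul_comm, Nat.mul_add_div h0, Nat.div_eq_of_lt (by omega), Nat.add_zero]
    have h3 : (k' * D.length + n) % D.length = D.length - 1 := by
      rw [mul_comm, Nat.mul_add_mod, Nat.mod_eq_of_lt (by omega)]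
      omega
    have h4 : qR x0 v D ((k' + 1) * D.length) = k' • v + Db D (D.length - 1) := by
      rw [h1]
      simp only [qR]
      rw [h2, h3]
    rw [h4, cr_add, dt_add, cr_nsmul, dt_nsmul, zero_add]
    refine ⟨hS.yc, Or.inr ?_⟩
    have h5 := hS.yd
    have h6 : dt v (Db D (D.length - 1)) = dt v (Db D (D.length - 1) - v) + dt v v := by
      rw [← dt_add]
      congr 1
      abel
    rw [h6]
    have h7 : (k' : ℤ) * dt v v + (dt v (Db D (D.length - 1) - v) + dt v v)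
        - ((k' + 1 : ℕ) : ℤ) * dt v v = dt v (Db D (D.length - 1) - v) := by
      push_cast
      ring
    rw [h7]
    exact h5


open Classical in
/-- The required part of the domain. -/
def Rr (v : Site) (b2 b3 : ℤ) (k : ℕ) (h : ℤ) (ω : ℕ → List Site × List (List Site))
    (R : Finset Site) : Set Site :=
  {x | x ∈ R ∧ x ∈ Bmid v b2 b3 k ∧
    ¬ (x ∈ Cu k v h ω ∧ x ∈ (allExc k v ω).flatMap List.dropLast)}

/-- Facts on one chain. -/
lemma chain_facts {i0 I : ℕ} {x0 : Site} {Hs b1 b2 b3 b : ℤ}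
    (hS : StripOK h (2 ^ i0) L M I v D x0 Hs b1 b2 b3 b) (HR : RowOf k h (2 ^ i0) L M v D ω)
    (hi0 : 1 ≤ i0)
    {H : ℕ} (hHs : (H : ℤ) ≤ Hs) (hLs : 20 * (L : ℤ) ≤ Hs) {A R : Finset Site}
    (hA : ∀ x ∈ A, UU (phi k h (2 ^ i0) M v ω) x ∧ 1 - (H : ℤ) ≤ Ts x ∧ Ts x ≤ 1 + k * Ts v + H ∧
        gs x ≤ phi k h (2 ^ i0) M v ω (Ts x) + H)
    (hR : ∀ x, UU (phi k h (2 ^ i0) M v ω) x → 1 ≤ Ts x → Ts x ≤ 1 + k * Ts v →
        gs x ≤ phi k h (2 ^ i0) M v ω (Ts x) + 2 ^ I →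
        (phi k h (2 ^ i0) M v ω (Ts x) + 2 ^ i0 ≤ gs x ∨
          ¬ (x ∈ Cu k v h ω ∧ x ∈ (allExc k v ω).flatMap List.dropLast)) → x ∈ R)
    {t : List Site} (ht : ∀ z ∈ t, z ∈ A) (hRt : ∀ z ∈ R, z ∈ t) {τ : ℕ → List Site}
    (hτ : ∀ r < k * D.length, ∀ z ∈ τ r, UU (phi k h (2 ^ i0) M v ω) z ∧
          1 - Hs ≤ Ts z ∧ Ts z ≤ 1 + k * Ts v + Hs ∧
          |gs z - phi k h (2 ^ i0) M v ω (Ts z)| ≤ Hs)
    {x : Site} (hx : x ∈ t ∨ (∃ r < k * D.length, x ∈ τ r) ∨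
      x ∈ (allExc k v ω).flatMap List.dropLast ∨ x = qR x0 v D (k * D.length)) :
    (|cr v x| ≤ b3 ∧ -b3 ≤ dt v x ∧ dt v x ≤ k * dt v v + b3) ∧
    (x ∈ Bmid v b2 b3 k → (x ∈ Cu k v h ω ∧ x ∈ (allExc k v ω).flatMap List.dropLast) ∨
      (x ∈ Rr v b2 b3 k h ω R ∧ x ∈ t)) := by
  have hkd : 0 ≤ (k : ℤ) * dt v v := mul_nonneg (by positivity) (dt_nonneg v)
  have hb := hS.hb
  -- the case of a site close to the profile
  have key : (1 - Hs ≤ Ts x ∧ Ts x ≤ 1 + k * Ts v + Hs ∧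
      |gs x - phi k h (2 ^ i0) M v ω (Ts x)| ≤ Hs) →
      (UU (phi k h (2 ^ i0) M v ω) x ∨
        (x ∈ Cu k v h ω ∧ x ∈ (allExc k v ω).flatMap List.dropLast)) →
      (|cr v x| ≤ b3 ∧ -b3 ≤ dt v x ∧ dt v x ≤ k * dt v v + b3) ∧
      (x ∈ Bmid v b2 b3 k → (x ∈ Cu k v h ω ∧ x ∈ (allExc k v ω).flatMap List.dropLast) ∨
        (x ∈ Rr v b2 b3 k h ω R ∧ x ∈ t)) := by
    rintro ⟨g1, g2, g3⟩ hU
    obtain ⟨c1, c2, c3⟩ := hS.bd k ω HR x g1 g2 g3
    refine ⟨⟨by linarith, by linarith, by linarith⟩, fun hB => ?_⟩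
    by_cases hc : x ∈ Cu k v h ω ∧ x ∈ (allExc k v ω).flatMap List.dropLast
    · exact Or.inl hc
    · right
      have hU' : UU (phi k h (2 ^ i0) M v ω) x := by
        rcases hU with h1 | h1
        · exact h1
        · exact absurd h1 hc
      obtain ⟨m1, m2⟩ := hS.mid k x hB.1 hB.2.1 (Or.inl c1)
      have hxR := hR x hU' m1 m2 ((hS.inn k ω HR x m1 m2).2 hB.2.2) (Or.inr hc)
      exact ⟨⟨hxR, hB, hc⟩, hRt x hxR⟩
  rcases hx with hx | ⟨r, hr, hx⟩ | hx | hx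
  · obtain ⟨a1, a2, a3, a4⟩ := hA x (ht x hx)
    have h1 := UU_lower HR.lip a1
    refine key ⟨by linarith, by linarith, ?_⟩ (Or.inl a1)
    rw [abs_le]
    constructor <;> linarith
  · obtain ⟨a1, a2, a3, a4⟩ := hτ r hr x hx
    exact key ⟨a2, a3, a4⟩ (Or.inl a1)
  · obtain ⟨a1, a2, a3, a4⟩ := HR.vis_cases hx
    have hL0 : (0 : ℤ) ≤ L := by positivity
    refine key ⟨by linarith, by linarith, by linarith⟩ ?_
    rcases a4 with a4 | a4
    · exact Or.inr ⟨a4, hx⟩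
    · exact Or.inl a4
  · obtain ⟨q1, q2⟩ := q_last hS HR.hk
    rw [hx]
    rcases q2 with q2 | q2
    · rw [abs_lt] at q2
      refine ⟨⟨q1, by linarith, by linarith⟩, fun hB => ?_⟩
      have := hB.1
      linarith
    · rw [abs_lt] at q2
      refine ⟨⟨q1, by linarith, by linarith⟩, fun hB => ?_⟩
      have := hB.2.1
      linarith

/-- Required sites are visited by the tour. -/
lemma chain_req {i0 I : ℕ} {x0 : Site} {Hs b1 b2 b3 b : ℤ}
    (hS : StripOK h (2 ^ i0) L M I v D x0 Hs b1 b2 b3 b) (HR : RowOf k h (2 ^ i0) L M v D ω)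
    (hi0 : 1 ≤ i0) {R : Finset Site}
    (hR : ∀ x, UU (phi k h (2 ^ i0) M v ω) x → 1 ≤ Ts x → Ts x ≤ 1 + k * Ts v →
        gs x ≤ phi k h (2 ^ i0) M v ω (Ts x) + 2 ^ I →
        (phi k h (2 ^ i0) M v ω (Ts x) + 2 ^ i0 ≤ gs x ∨
          ¬ (x ∈ Cu k v h ω ∧ x ∈ (allExc k v ω).flatMap List.dropLast)) → x ∈ R)
    {z : Site} (hz : z ∈ Bmid v b2 b3 k) (h1 : b1 ≤ cr v z) : z ∈ R := by
  have hb1 := hS.hb1
  obtain ⟨m1, m2⟩ := hS.mid k z hz.1 hz.2.1 (Or.inr (by
    rw [abs_of_nonneg (by linarith)]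
    exact hz.2.2))
  obtain ⟨e1, e2⟩ := hS.inn k ω HR z m1 m2
  have e1 := e1 h1
  have e2 := e2 hz.2.2
  have h2 : (2 : ℤ) ≤ 2 ^ i0 := by
    calc (2 : ℤ) = 2 ^ 1 := by norm_num
      _ ≤ 2 ^ i0 := pow_le_pow_right₀ (by norm_num) hi0
  exact hR z (Or.inl (by linarith)) m1 m2 e2 (Or.inl e1)

lemma x0_not_mem {i0 I : ℕ} {x0 : Site} {Hs b1 b2 b3 b : ℤ}
    (hS : StripOK h (2 ^ i0) L M I v D x0 Hs b1 b2 b3 b) : x0 ∉ Bmid v b2 b3 k := by
  intro hB
  have h1 := hB.1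
  have h2 := (abs_lt.1 hS.x0d).2
  linarith

end Pool.Agent.TR90
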