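import Pool.Agent.TR90.Asm
import Pool.Agent.TR90.MainC

/-!
# TR90, module MainD: the sum over the chains of a row
-/

open MeasureTheory Filter Topology
open scoped NNReal ENNReal

namespace Pool.Agent.TR90

open Pool.Agent.LT Pool.Agent.WSB71

lemma prod_exp (K : ℕ) (x : ℕ → ℝ≥0∞) (c : ℕ → ℝ)
    (hx : ∀ r < K, ENNReal.ofReal (Real.exp (-c r)) ≤ x r) {Cc : ℝ}
    (hc : ∑ r ∈ Finset.range K, c r ≤ Cc) :
    ENNReal.ofReal (Real.exp (-Cc)) ≤ ∏ r ∈ Finset.range K, x r := by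
  calc ENNReal.ofReal (Real.exp (-Cc))
      ≤ ENNReal.ofReal (∏ r ∈ Finset.range K, Real.exp (-c r)) := by
        apply ENNReal.ofReal_le_ofReal
        rw [← Real.exp_sum]
        apply Real.exp_le_exp.2
        rw [Finset.sum_neg_distrib]
        linarith
    _ = ∏ r ∈ Finset.range K, ENNReal.ofReal (Real.exp (-c r)) :=
        ENNReal.ofReal_prod_of_nonneg fun r _ => (Real.exp_pos _).le
    _ ≤ ∏ r ∈ Finset.range K, x r := Finset.prod_le_prod' fun r hr => hx r (Finset.mem_range.1 hr)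

lemma sum_if_le (K : ℕ) {a b lg : ℝ} (ha : 0 ≤ a) (hb : 0 ≤ b) (hl : 0 ≤ lg) :
    ∑ r ∈ Finset.range K, (if r = 0 then a else b) * lg ≤ a * lg + K * (b * lg) := by
  calc ∑ r ∈ Finset.range K, (if r = 0 then a else b) * lg
      ≤ ∑ r ∈ Finset.range K, ((if r = 0 then a * lg else 0) + b * lg) := by
        apply Finset.sum_le_sum
        intro r _
        split_ifs
        · have := mul_nonneg hb hl
          linarith
        · linarith
    _ ≤ a * lg + K * (b * lg) := by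
        rw [Finset.sum_add_distrib, Finset.sum_const, Finset.card_range, nsmul_eq_mul,
          Finset.sum_ite_eq']
        split_ifs
        · exact le_rfl
        · have := mul_nonneg ha hl
          linarith

lemma sum_prod_ext {k : ℕ} (F0 : Finset (List Site × List (List Site)))
    (w : List Site × List (List Site) → ℝ≥0∞) :
    ∑ ω ∈ Fintype.piFinset (fun _ : Fin k => F0), ∏ i ∈ Finset.range k, w (ext0 ω i)
      = (∑ q ∈ F0, w q) ^ k := by
  classical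
  have h1 : (∑ q ∈ F0, w q) ^ k = ∏ _i : Fin k, ∑ q ∈ F0, w q := by
    rw [Finset.prod_const, Finset.card_univ, Fintype.card_fin]
  rw [h1, Finset.prod_univ_sum]
  apply Finset.sum_congr rfl
  intro ω _
  rw [Finset.prod_range]
  apply Finset.prod_congr rfl
  intro i _
  rw [ext0_lt ω i.2]

/-- Output of the tours. -/
def TourOut (k : ℕ) (h : ℤ) (i0 I H M : ℕ) (v : Site) (ω : ℕ → List Site × List (List Site))
    (nm : ℕ) (β ct : ℝ) (A R : Finset Site) (U : Finset (List Site)) : Prop :=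
  (∀ x ∈ A, UU (phi k h (2 ^ i0) M v ω) x ∧ 1 - (H : ℤ) ≤ Ts x ∧ Ts x ≤ 1 + k * Ts v + H ∧
      gs x ≤ phi k h (2 ^ i0) M v ω (Ts x) + H) ∧
    (∀ x, UU (phi k h (2 ^ i0) M v ω) x → 1 ≤ Ts x → Ts x ≤ 1 + k * Ts v →
      gs x ≤ phi k h (2 ^ i0) M v ω (Ts x) + 2 ^ I →
      (phi k h (2 ^ i0) M v ω (Ts x) + 2 ^ i0 ≤ gs x ∨
        ¬ (x ∈ Cu k v h ω ∧ x ∈ (allExc k v ω).flatMap List.dropLast)) → x ∈ R) ∧
    (∀ t ∈ U, t.IsChain Adj ∧ t.head? = some (pt 1 (-(13 * h) + 2 ^ I)) ∧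
      t.getLast? = some (pt 1 (-(13 * h) + 2 ^ I)) ∧ (∀ z ∈ t, z ∈ A) ∧ (∀ z ∈ R, z ∈ t) ∧
      t.length ≤ nm) ∧
    ENNReal.ofReal (Real.exp (-(ct + 5))) ≤ ∑ t ∈ U, Wg β 0 (R : Set Site) t

theorem row_set {μ : Measure WP} (hμ : IsLaw μ) {Ct Cv β C' : ℝ} {i0 I H r' Λ M N Nv L : ℕ} {h : ℤ}
    {v : Site} {D : List (Option Site × Option Site)}
    (hT : TourProp Ct i0 I β H C') (hV : TravelProp Cv) (hCt : 1 ≤ Ct) (hCv : 1 ≤ Cv)
    (hC' : 0 ≤ C') (hβ : 1 ≤ β) (hi0 : 1 ≤ i0) (hr' : 64 ≤ r') (hΛ : 100 ≤ Λ)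
    (hh : h = 8 * r') (hL : L = Λ * (8 * r'))
    (hsh : 2 * 2 ^ i0 ≤ h) (hI : 30 * L ≤ 2 ^ I)
    {F0 : Finset (List Site × List (List Site))}
    (hF0 : ∀ q ∈ F0, Tile h (2 ^ i0) L M v D q)
    (hne : F0.Nonempty) (hN : ∀ q ∈ F0, ∀ e ∈ q.2, e.length ≤ N)
    {Q0 : Finset (List Site × List Site)} (hQ : ∀ q ∈ F0, codeT h q ∈ Q0)
    (hNv : 101 * Cv * (200 * Λ + 2 ^ I : ℕ) * r' ^ 2 ≤ Nv)
    {Hs b1 b2 b3 b : ℤ} (hHs1 : (H : ℤ) ≤ Hs)
    (hHs2 : 30 * (200 * Λ + 2 ^ I) * r' + 20 * L + 2 ^ I ≤ Hs)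
    (hS : StripOK h (2 ^ i0) L M I v D (pt 1 (-(13 * h) + 2 ^ I)) Hs b1 b2 b3 b)
    {k nm : ℕ} (hk : 1 ≤ k) {ct : ℝ}
    (hct : Ct * β * (k * Ts v) / Real.sqrt (2 ^ i0) + C'
      + ((k : ℝ) * (M + 200 * h * 2 ^ i0)) * (4 * β + Ct * 2 ^ i0) ≤ ct)
    (hnm : 32 * (C' * (k * Ts v + 1 + (k : ℝ) * (M + 200 * h * 2 ^ i0)) + ct + 1) + 3 ≤ nm) :
    ∃ S : Finset (List Site),
      (∀ l ∈ S, l.IsChain Adj ∧ l.head? = some (pt 1 (-(13 * h) + 2 ^ I)) ∧
        l.getLast? = some (qR (pt 1 (-(13 * h) + 2 ^ I)) v D (k * D.length)) ∧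
        l.length ≤ nm + k * D.length * (Nv + N) + 1 ∧
        (∀ z ∈ l, |cr v z| ≤ b3 ∧ -b3 ≤ dt v z ∧ dt v z ≤ k * dt v v + b3) ∧
        (∀ z ∈ Bmid v b2 b3 k, b1 ≤ cr v z → z ∈ l)) ∧
      (∑ q ∈ F0, Wg β 0 (Cz q.1 h) (visits q.2)) ^ k * ENNReal.ofReal (Real.exp (-(ct + 5))) *
          ENNReal.ofReal (Real.exp (-(KP Cv (200 * Λ + 2 ^ I) * (1 + Real.log r')
            + (k * D.length : ℕ) * (KP Cv (200 * Λ) * (1 + Real.log r'))))) * fw 0 1
        ≤ ((Q0.card ^ k * (nm + 1) : ℕ) : ℝ≥0∞) * ∑ l ∈ S, Wg β 0 (Bmid v b2 b3 k) l := by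
  classical
  set x0 := pt 1 (-(13 * h) + 2 ^ I) with hx0
  set F : Finset (Fin k → List Site × List (List Site)) := Fintype.piFinset (fun _ => F0) with hF
  have hh8 : 8 ≤ h := by rw [hh]; have : (64 : ℤ) ≤ r' := by exact_mod_cast hr'
                         linarith
  have hhL : 100 * h ≤ L := by
    rw [hh, hL]
    push_cast
    have h1 : (64 : ℤ) ≤ r' := by exact_mod_cast hr'
    have h2 : (100 : ℤ) ≤ Λ := by exact_mod_cast hΛ
    nlinarith
  have hh1 : 1 ≤ h := by linarith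
  have hRow : ∀ ω ∈ F, RowOf k h (2 ^ i0) L M v D (ext0 ω) := by
    intro ω hω
    refine ⟨hk, hh8, hhL, fun i hi => ?_⟩
    rw [ext0_lt ω hi]
    exact hF0 _ (Fintype.mem_piFinset.1 hω _)
  have hFne : F.Nonempty := by
    rw [hF]
    exact Fintype.piFinset_nonempty.2 fun _ => hne
  -- the tours
  have htour : ∀ ω : Fin k → List Site × List (List Site), ∃ (A R : Finset Site)
      (U : Finset (List Site)), ω ∈ F → TourOut k h i0 I H M v (ext0 ω) nm β ct A R U := by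
    intro ω
    by_cases hω : ω ∈ F
    · obtain ⟨A, R, U, hU⟩ := tour_for hμ hT hCt hC' hβ (hRow ω hω) hsh (nm := nm) (ct := ct)
        le_rfl hct hnm
      exact ⟨A, R, U, fun _ => hU⟩
    · exact ⟨∅, ∅, ∅, fun h => absurd h hω⟩
  choose A R U hU using htour
  -- the travels
  obtain ⟨V, n, hVn⟩ := travel_for hμ hCv hV (i0 := i0) (I := I) (k := k)
    ({ω' | ∃ ω ∈ F, ω' = ext0 ω}) (by
      rintro ω' ⟨ω, hω, rfl⟩
      exact hRow ω hω) (by
      obtain ⟨ω, hω⟩ := hFne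
      exact ⟨_, ω, hω, rfl⟩) hr' hh hL (by omega) hI
  have hvis : ∀ ω ∈ F, visE (k * D.length) (fun r => (allExc k v (ext0 ω)).getD r [])
      = (allExc k v (ext0 ω)).flatMap List.dropLast := fun ω hω => visE_eq (hRow ω hω).tile
  have hτ : ∀ τ : ℕ → List Site, (∀ r < k * D.length, τ r ∈ V r) → ∀ ω ∈ F,
      ∀ r < k * D.length, ∀ z ∈ τ r, UU (phi k h (2 ^ i0) M v (ext0 ω)) z ∧
          1 - Hs ≤ Ts z ∧ Ts z ≤ 1 + k * Ts v + Hs ∧
          |gs z - phi k h (2 ^ i0) M v (ext0 ω) (Ts z)| ≤ Hs := by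
    intro τ hτ ω hω r hr z hz
    obtain ⟨g1, g2, g3, g4⟩ := ((hVn r hr).2.2.1 (τ r) (hτ r hr)).2.2.2.2 z hz (ext0 ω) ⟨ω, hω, rfl⟩
    have hL0 : (0 : ℤ) ≤ L := by positivity
    have h20 : (0 : ℤ) ≤ 2 ^ I := by positivity
    exact ⟨g1, by linarith, by linarith, by linarith⟩
  have hHsL : 20 * (L : ℤ) ≤ Hs := by
    have h20 : (0 : ℤ) ≤ 2 ^ I := by positivity
    have : (0 : ℤ) ≤ 30 * (200 * Λ + 2 ^ I) * r' := by positivity
    linarith
  have hfacts : ∀ ω ∈ F, ∀ t ∈ U ω, ∀ τ : ℕ → List Site, (∀ r < k * D.length, τ r ∈ V r) →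
      ∀ x, (x ∈ t ∨ (∃ r < k * D.length, x ∈ τ r) ∨
        x ∈ visE (k * D.length) (fun r => (allExc k v (ext0 ω)).getD r []) ∨
          x = qR x0 v D (k * D.length)) →
      (|cr v x| ≤ b3 ∧ -b3 ≤ dt v x ∧ dt v x ≤ k * dt v v + b3) ∧
      (x ∈ Bmid v b2 b3 k → (x ∈ Cu k v h (ext0 ω) ∧
        x ∈ visE (k * D.length) (fun r => (allExc k v (ext0 ω)).getD r [])) ∨
        (x ∈ Rr v b2 b3 k h (ext0 ω) (R ω) ∧ x ∈ t)) := by
    intro ω hω t ht τ hτV x hx
    obtain ⟨u1, u2, u3, -⟩ := hU ω hω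
    obtain ⟨-, -, -, t4, t5, -⟩ := u3 t ht
    rw [hvis ω hω] at hx ⊢
    exact chain_facts hS (hRow ω hω) hi0 hHs1 hHsL u1 u2 t4 t5 (hτ τ hτV ω hω) hx
  -- the glued chains
  have hglue : ∀ ω ∈ F, ∀ t ∈ U ω, ∀ τ : ℕ → List Site, (∀ r < k * D.length, τ r ∈ V r) →
      (glueAll (k * D.length) t τ (fun r => (allExc k v (ext0 ω)).getD r [])
        (qR x0 v D (k * D.length))).IsChain Adj ∧
      (glueAll (k * D.length) t τ (fun r => (allExc k v (ext0 ω)).getD r [])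
        (qR x0 v D (k * D.length))).head? = some x0 ∧
      (glueAll (k * D.length) t τ (fun r => (allExc k v (ext0 ω)).getD r [])
        (qR x0 v D (k * D.length))).getLast? = some (qR x0 v D (k * D.length)) ∧
      (glueAll (k * D.length) t τ (fun r => (allExc k v (ext0 ω)).getD r [])
        (qR x0 v D (k * D.length))).length ≤ t.length + k * D.length * (Nv + N) + 1 ∧
      (∀ x ∈ glueAll (k * D.length) t τ (fun r => (allExc k v (ext0 ω)).getD r [])
        (qR x0 v D (k * D.length)), x ∈ t ∨ (∃ r < k * D.length, x ∈ τ r) ∨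
          x ∈ visE (k * D.length) (fun r => (allExc k v (ext0 ω)).getD r []) ∨
          x = qR x0 v D (k * D.length)) ∧
      (∀ x ∈ t, x = x0 ∨ x ∈ glueAll (k * D.length) t τ
        (fun r => (allExc k v (ext0 ω)).getD r []) (qR x0 v D (k * D.length))) := by
    intro ω hω t ht τ hτV
    obtain ⟨-, -, u3, -⟩ := hU ω hω
    obtain ⟨t1, t2, t3, -, -, -⟩ := u3 t ht
    obtain ⟨g1, g2, g3, g4, g5, g6, -⟩ := glueAll_chain (K := k * D.length) (t := t) (τ := τ)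
      (E := fun r => (allExc k v (ext0 ω)).getD r []) (a := aR v D) (q := qR x0 v D)
      (n := Nv + N) ⟨t1, t2, t3⟩ (by
        intro r hr
        obtain ⟨w1, w2, w3, -, -⟩ := (hVn r hr).2.2.1 (τ r) (hτV r hr)
        exact ⟨w1, w2, w3⟩) (by
        intro r hr
        obtain ⟨e1, e2, e3, -⟩ := exc_spec (hRow ω hω).tile x0 hr
        exact ⟨e1, e2, e3⟩) (by
        intro r hr
        have e1 := exc_length (N := N) (hRow ω hω).tile (by
          intro i hi e he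
          rw [ext0_lt ω hi] at he
          exact hN _ (Fintype.mem_piFinset.1 hω _) e he) r
        have e2 : (τ r).length ≤ Nv := by
          rw [((hVn r hr).2.2.1 (τ r) (hτV r hr)).2.2.2.1]
          have := ((hVn r hr).2.1).trans hNv
          exact_mod_cast this
        exact Nat.add_le_add e2 e1)
    exact ⟨g1, g2, g3, g4, g5, g6⟩
  obtain ⟨S, hS1, hS2⟩ := assemble (Ω := Fin k → List Site × List (List Site))
    (Q := Fin k → List Site × List Site) (β := β) (by linarith) F (k * D.length) nm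
    (aR v D) (qR x0 v D) (Bmid v b2 b3 k) (fun ω => Cu k v h (ext0 ω))
    (fun ω => Rr v b2 b3 k h (ext0 ω) (R ω)) (fun ω r => (allExc k v (ext0 ω)).getD r []) U V n
    (fun ω i => codeT h (ω i)) (Fintype.piFinset (fun _ => Q0))
    (fun ω hω r hr => (exc_spec (hRow ω hω).tile x0 hr).2)
    (fun ω hω t ht => by
      obtain ⟨-, -, u3, -⟩ := hU ω hω
      obtain ⟨-, t2, t3, -, -, t6⟩ := u3 t ht
      exact ⟨t2, t3, t6⟩)
    (fun r hr τ hτ' => by
      obtain ⟨-, w2, w3, w4, -⟩ := (hVn r hr).2.2.1 τ hτ'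
      exact ⟨w2, w3, w4⟩)
    (fun r hr => (hVn r hr).1)
    (fun ω hω => Fintype.mem_piFinset.2 fun i => hQ _ (Fintype.mem_piFinset.1 hω i))
    (fun ω hω ω' hω' hc hE => by
      have h1 := allExc_ext (v := v) (hRow ω hω).tile (hRow ω' hω').tile hE
      have h2 := row_unique hh1 (ext0 ω) (ext0 ω') (hRow ω hω).tile (hRow ω' hω').tile h1 (by
        intro i hi
        rw [ext0_lt ω hi, ext0_lt ω' hi]
        exact congrFun hc ⟨i, hi⟩)
      funext i
      have h3 := h2 i i.2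
      rw [ext0_lt ω i.2, ext0_lt ω' i.2] at h3
      exact h3)
    (x0_not_mem hS)
    (fun ω hω x hx => hx.2.1)
    (fun ω hω x hx => by
      rw [hvis ω hω]
      exact hx.2.2)
    (fun ω hω t ht τ hτV x hx hB =>
      (hfacts ω hω t ht τ hτV x ((hglue ω hω t ht τ hτV).2.2.2.2.1 x hx)).2 hB)
  refine ⟨S, ?_, ?_⟩
  · intro l hl
    obtain ⟨ω, hω, t, ht, τ, hτV, rfl⟩ := hS1 l hl
    obtain ⟨g1, g2, g3, g4, g5, g6⟩ := hglue ω hω t ht τ hτV
    obtain ⟨u1, u2, u3, -⟩ := hU ω hω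
    obtain ⟨-, -, -, t4, t5, t6⟩ := u3 t ht
    refine ⟨g1, g2, g3, by omega, fun z hz => (hfacts ω hω t ht τ hτV z (g5 z hz)).1, ?_⟩
    intro z hz hz1
    have hzR := chain_req hS (hRow ω hω) hi0 u2 hz hz1
    rcases g6 z (t5 z hzR) with h1 | h1
    · exact absurd (h1 ▸ hz) (x0_not_mem hS)
    · exact h1
  · refine le_trans ?_ (hS2.trans (le_of_eq ?_))
    · gcongr ?_ * ?_ * _
      · rw [← sum_prod_ext F0 (fun q => Wg β 0 (Cz q.1 h) (visits q.2)), Finset.sum_mul]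
        apply Finset.sum_le_sum
        intro ω hω
        gcongr ?_ * ?_
        · rw [hvis ω hω, Wg_row (hRow ω hω).hv hh1 (ext0 ω) (hRow ω hω).tile]
        · refine (hU ω hω).2.2.2.trans (Finset.sum_le_sum fun t _ => ?_)
          apply Wg_anti (by linarith)
          intro x _ hx
          exact hx.1
      · apply prod_exp (k * D.length) _
          (fun r => (if r = 0 then KP Cv (200 * Λ + 2 ^ I) else KP Cv (200 * Λ))
            * (1 + Real.log r'))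
        · intro r hr
          have := (hVn r hr).2.2.2
          split_ifs at this ⊢
          · exact this
          · exact this
        · apply sum_if_le
          · exact KP_nonneg hCv (by omega)
          · exact KP_nonneg hCv (by omega)
          · have h1 : (64 : ℝ) ≤ r' := by exact_mod_cast hr'
            have := Real.log_nonneg (show (1 : ℝ) ≤ r' by linarith)
            linarith
    · rw [Fintype.card_piFinset_const]

end Pool.Agent.TR90
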